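import Pool.Agent.H73.KT.A3

/-!
# Laws with constants
-/

set_option autoImplicit false

open MeasureTheory Filter Topology Set

namespace Pool.Agent.H73.KT

open Pool.Agent.H49.BP Pool.Agent.H73.TR

theorem mult_ne_iff {E D : Finset ℕ} : mult E D ≠ 0 ↔ ∃ t ∈ D, ∀ e ∈ E, t + e ∈ D := by
  constructor
  · exact mult_ne
  · rintro ⟨t, ht, h⟩
    unfold mult
    rw [Finset.card_ne_zero]
    exact ⟨t, Finset.mem_filter.2 ⟨ht, h⟩⟩

theorem mult_trans {A B C : Finset ℕ} (h1 : mult A B ≠ 0) (h2 : mult B C ≠ 0) : mult A C ≠ 0 := by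
  rw [mult_ne_iff] at *
  obtain ⟨t, ht, h1⟩ := h1
  obtain ⟨s, hs, h2⟩ := h2
  refine ⟨s + t, h2 t ht, fun e he => ?_⟩
  rw [add_assoc]
  exact h2 _ (h1 e he)

/-- the laws `c D / (log u) ^ (|D| - 1)`, switched off on `X` for the bad patterns -/
noncomputable def n0 (c : Finset ℕ → ℝ) (D : Finset ℕ) (u : ℝ) : ℝ :=
  if 2 ≤ u then c D / (Real.log u) ^ (D.card - 1) else 0

open Classical in
noncomputable def nb (c : Finset ℕ → ℝ) (Bad : Finset ℕ → Prop) (X : Set ℝ) (D : Finset ℕ) (u : ℝ) : ℝ :=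
  if Bad D ∧ u ∈ X then 0 else n0 c D u

theorem n0_laws {c : Finset ℕ → ℝ} (hc : ∀ D, 0 ≤ c D)
    (hc0 : ∀ D D' : Finset ℕ, 0 ∈ D → 2 ≤ D.card → 0 ∈ D' → mult D D' ≠ 0 → c D = 0 → c D' = 0) : Laws (n0 c) := by
  obtain ⟨h1, h2, h3, h4, h5⟩ := log_laws hc hc0 (n := n0 c) rfl
  exact ⟨h1, h2, h3, h4, h5⟩

theorem nb_laws {c : Finset ℕ → ℝ} (hc : ∀ D, 0 ≤ c D)
    (hc0 : ∀ D D' : Finset ℕ, 0 ∈ D → 2 ≤ D.card → 0 ∈ D' → mult D D' ≠ 0 → c D = 0 → c D' = 0)
    {Bad : Finset ℕ → Prop} (hBad : ∀ D D', mult D D' ≠ 0 → Bad D → Bad D') {X : Set ℝ} (hX : MeasurableSet X) :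
    Laws (nb c Bad X) := by
  classical
  have h0 := n0_laws hc hc0
  have hle : ∀ D u, nb c Bad X D u ≤ n0 c D u := by
    intro D u
    unfold nb
    split_ifs
    · exact h0.nonneg D u
    · exact le_rfl
  have hnn : ∀ D u, 0 ≤ nb c Bad X D u := by
    intro D u
    unfold nb
    split_ifs
    · exact le_rfl
    · exact h0.nonneg D u
  refine ⟨fun D => ?_, hnn, fun D => ?_, fun D hD0 hD2 => ?_, fun D D' hD0 hD2 hD0' hne hm c' hc' => ?_⟩
  · unfold nb
    by_cases h : Bad D
    · simp only [h, true_and]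
      exact Measurable.ite hX measurable_const (h0.meas D)
    · simp only [h, false_and, if_false]
      exact h0.meas D
  · obtain ⟨B, hB⟩ := h0.bdd D
    exact ⟨B, fun u => (hle D u).trans (hB u)⟩
  · exact squeeze_zero (hnn D) (hle D) (h0.lim D hD0 hD2)
  · filter_upwards [h0.sub D D' hD0 hD2 hD0' hne hm c' hc'] with u hu
    by_cases h : Bad D ∧ u ∈ X
    · have h' : Bad D' ∧ u ∈ X := ⟨hBad D D' hm h.1, h.2⟩
      unfold nb
      rw [if_pos h, if_pos h', mul_zero]
    · have e : nb c Bad X D u = n0 c D u := by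
        unfold nb
        rw [if_neg h]
      rw [e]
      exact (hle D' u).trans hu

theorem logk_cont {x : ℝ} (hx : 2 ≤ x) (k : ℕ) : IntervalIntegrable (fun u : ℝ => 1 / (Real.log u) ^ k) volume 2 x := by
  refine ContinuousOn.intervalIntegrable ?_
  rw [uIcc_of_le hx]
  intro u hu
  have hu1 : 1 < u := by linarith [hu.1]
  have h1 : ContinuousAt (fun u : ℝ => (Real.log u) ^ k) u := (Real.continuousAt_log (by linarith)).pow k
  exact (continuousAt_const.div h1 (pow_pos (log_pos' hu1) k).ne').continuousWithinAt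

theorem n0_div {c : Finset ℕ → ℝ} {D : Finset ℕ} (hD : 2 ≤ D.card) {u : ℝ} (hu : 2 ≤ u) :
    n0 c D u / Real.log u = c D * (1 / (Real.log u) ^ D.card) := by
  unfold n0
  rw [if_pos hu, div_div, ← pow_succ, Nat.sub_add_cancel (by omega)]
  ring

theorem nb_int {c : Finset ℕ → ℝ} {Bad : Finset ℕ → Prop} {X : Set ℝ} {D : Finset ℕ} (hD : 2 ≤ D.card) (hB : ¬ Bad D)
    {x : ℝ} (hx : 2 ≤ x) : ∫ u in (2 : ℝ)..x, nb c Bad X D u / Real.log u = c D * ∫ u in (2 : ℝ)..x, 1 / (Real.log u) ^ D.card := by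
  rw [← intervalIntegral.integral_const_mul]
  refine intervalIntegral.integral_congr fun u hu => ?_
  rw [uIcc_of_le hx] at hu
  beta_reduce
  unfold nb
  rw [if_neg (fun h => hB h.1)]
  exact n0_div hD hu.1

theorem nb_bad {c : Finset ℕ → ℝ} (hc : ∀ D, 0 ≤ c D) {Bad : Finset ℕ → Prop} {X : Set ℝ} (hX : MeasurableSet X)
    {D : Finset ℕ} (hD : 2 ≤ D.card) {x : ℝ} (hx : 2 ≤ x) :
    |(∫ u in (2 : ℝ)..x, nb c Bad X D u / Real.log u) - c D * ∫ u in (2 : ℝ)..x, 1 / (Real.log u) ^ D.card| ≤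
      c D * 2 ^ D.card * ∫ u in (2 : ℝ)..x, X.indicator (fun _ => (1 : ℝ)) u := by
  classical
  by_cases hB : Bad D
  swap
  · rw [nb_int hD hB hx, sub_self, abs_zero]
    have h1 : 0 ≤ ∫ u in (2 : ℝ)..x, X.indicator (fun _ => (1 : ℝ)) u := by
      refine intervalIntegral.integral_nonneg hx fun u _ => ?_
      exact Set.indicator_nonneg (fun _ _ => zero_le_one) u
    have := hc D
    positivity
  have hlk := logk_cont hx D.card
  have hpt : ∀ u, 2 ≤ u → nb c Bad X D u / Real.log u =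
      c D * (1 / (Real.log u) ^ D.card) - c D * (1 / (Real.log u) ^ D.card) * X.indicator (fun _ => (1 : ℝ)) u := by
    intro u hu
    unfold nb
    by_cases h : u ∈ X
    · rw [if_pos ⟨hB, h⟩, Set.indicator_of_mem h]
      ring
    · rw [if_neg (fun h' => h h'.2), Set.indicator_of_notMem h, n0_div hD hu]
      ring
  have hind : Measurable (X.indicator (fun _ => (1 : ℝ))) := measurable_const.indicator hX
  have hindI : IntervalIntegrable (X.indicator (fun _ => (1 : ℝ))) volume 2 x :=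
    bint hind (B := 1) (fun u => by
      rw [abs_of_nonneg (Set.indicator_nonneg (fun _ _ => zero_le_one) u)]
      exact Set.indicator_le_self' (fun _ _ => zero_le_one) u) 2 x
  have hprod : IntervalIntegrable (fun u => c D * (1 / (Real.log u) ^ D.card) * X.indicator (fun _ => (1 : ℝ)) u)
      volume 2 x := by
    refine (hlk.const_mul (c D)).mono_fun ?_ ?_
    · exact (((measurable_const.div (Real.measurable_log.pow_const _)).const_mul (c D)).mul hind).aestronglyMeasurable
    · refine Eventually.of_forall fun u => ?_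
      beta_reduce
      rw [norm_mul (c D * (1 / (Real.log u) ^ D.card))]
      refine mul_le_of_le_one_right (norm_nonneg _) ?_
      rw [Real.norm_of_nonneg (Set.indicator_nonneg (fun _ _ => zero_le_one) u)]
      exact Set.indicator_le_self' (fun _ _ => zero_le_one) u
  have e1 : ∫ u in (2 : ℝ)..x, nb c Bad X D u / Real.log u =
      (∫ u in (2 : ℝ)..x, c D * (1 / (Real.log u) ^ D.card)) -
        ∫ u in (2 : ℝ)..x, c D * (1 / (Real.log u) ^ D.card) * X.indicator (fun _ => (1 : ℝ)) u := by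
    rw [← intervalIntegral.integral_sub (hlk.const_mul (c D)) hprod]
    refine intervalIntegral.integral_congr fun u hu => ?_
    rw [uIcc_of_le hx] at hu
    exact hpt u hu.1
  rw [e1, intervalIntegral.integral_const_mul, sub_sub_cancel_left, abs_neg]
  have hnn : 0 ≤ ∫ u in (2 : ℝ)..x, c D * (1 / (Real.log u) ^ D.card) * X.indicator (fun _ => (1 : ℝ)) u := by
    refine intervalIntegral.integral_nonneg hx fun u hu => ?_
    have hl : 0 < Real.log u := log_pos' (by linarith [hu.1])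
    have := hc D
    have h2 : 0 ≤ X.indicator (fun _ => (1 : ℝ)) u := Set.indicator_nonneg (fun _ _ => zero_le_one) u
    positivity
  rw [abs_of_nonneg hnn, ← intervalIntegral.integral_const_mul]
  refine intervalIntegral.integral_mono_on hx hprod (hindI.const_mul _) fun u hu => ?_
  have hl : 1 / 2 ≤ Real.log u := log_half' hu.1
  have h2 : 0 ≤ X.indicator (fun _ => (1 : ℝ)) u := Set.indicator_nonneg (fun _ _ => zero_le_one) u
  refine mul_le_mul_of_nonneg_right ?_ h2
  refine mul_le_mul_of_nonneg_left ?_ (hc D)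
  rw [div_le_iff₀ (pow_pos (by linarith) _), ← mul_pow]
  exact one_le_pow₀ (by linarith)

end Pool.Agent.H73.KT
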