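import Pool.Agent.H73.KT.A3

/-!
# P2: the gaps of the block system
-/

set_option autoImplicit false

open MeasureTheory Filter Topology Set

namespace Pool.Agent.H73.KT

open Pool.Agent.H49.BP Pool.Agent.H73.TR

/-- the length of a block from above -/
theorem ln_up {a : ℕ → ℕ} {b : ℕ} (hb : 1 ≤ b) : ln a b ≤ 6 * ((a b : ℝ) + 1) * Real.log (tb a (b + 1)) := by
  have hM : 1 ≤ Mb a b := hb.trans (le_Mb b)
  have key : ∀ i : ℕ, i ≤ a b + 1 → tt (Mb a b + i) - tt (Mb a b) ≤ 6 * (i : ℝ) * Real.log (tb a (b + 1)) := by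
    intro i
    induction i with
    | zero => intro _; simp
    | succ i ih =>
      intro hi
      have h1 := ih (by omega)
      have h2 := slot_le (j := Mb a b + i) (by omega)
      have h3 : Real.log (tt (Mb a b + i)) ≤ Real.log (tb a (b + 1)) := by
        refine Real.log_le_log (by linarith [tt_one_le (Mb a b + i)]) ?_
        unfold tb
        exact tt_mono.monotone (by rw [Mb_succ]; omega)
      have e : Mb a b + i + 1 = Mb a b + (i + 1) := by ring
      rw [e] at h2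
      push_cast
      linarith
  have h1 := key (a b + 1) le_rfl
  have e : tb a (b + 1) = tt (Mb a b + (a b + 1)) := by
    unfold tb
    rw [Mb_succ]
  unfold ln
  rw [e] at h1 ⊢
  push_cast at h1
  unfold tb
  exact h1

/-- The gaps of the block system are at most `ε h y` for all `y ≥ q n / 2`. -/
theorem base_gaps {h : ℝ → ℝ} (hlim : Tendsto (fun x => h x / Real.log x) atTop atTop) : ∃ V : ℕ → ℕ,
    ∀ (a : ℕ → ℕ) (S : ℕ → Finset ℝ) (q : ℕ → ℝ),
    (Slow a ∧ (∀ b, a b ≠ 0 → V (a b) ≤ b) ∧ Blocks a S ∧ Enum a S q ∧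
      (∀ b, ∀ x ∈ S b, ∀ y ∈ S (b + 1), ∀ k : ℕ, y ≠ x + (k : ℝ)) ∧
      ∀ b, ∀ x ∈ S b, ∀ y ∈ S b, ∀ d : ℕ, a b < d → (d : ℝ) + a b < ln a b / ((a b : ℝ) + 2) → y ≠ x + (d : ℝ)) →
    ∀ ε : ℝ, 0 < ε → ∀ᶠ n in atTop, ∀ y : ℝ, q n / 2 ≤ y → q (n + 1) - q n ≤ ε * h y := by
  have h1 : ∀ k : ℕ, ∃ V : ℕ, 4 ≤ V ∧ ∀ y : ℝ, (V : ℝ) / 4 ≤ y → ((k : ℝ) + 1) ^ 2 ≤ h y / Real.log y ∧ 4 ≤ y := by
    intro k
    obtain ⟨B, hB⟩ := eventually_atTop.1 ((hlim.eventually (eventually_ge_atTop (((k : ℝ) + 1) ^ 2))).and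
      (eventually_ge_atTop 4))
    obtain ⟨V, hV⟩ := exists_nat_ge (max (4 * B) 4)
    have hV1 : 4 * B ≤ V := (le_max_left _ _).trans hV
    have hV2 : (4 : ℝ) ≤ V := (le_max_right _ _).trans hV
    exact ⟨V, by exact_mod_cast hV2, fun y hy => hB y (by linarith)⟩
  choose V hV1 hV2 using h1
  refine ⟨V, fun a S q ⟨ha, haV, hS, hq, hX, hA⟩ ε hε => ?_⟩
  obtain ⟨b2, hb2⟩ := ln_short ha
  obtain ⟨K, hK⟩ := exists_nat_gt (48 / ε)
  obtain ⟨b3, hb3⟩ := eventually_atTop.1 (ha.2.1.eventually (eventually_ge_atTop (K + 1)))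
  filter_upwards [eventually_ge_atTop (Mb a (max (max b2 b3) 1))] with n hn y hy
  obtain ⟨b, hbn1, hbn2⟩ := exists_index (a := a) n
  have hb : max (max b2 b3) 1 ≤ b := by
    have h3 : Mb a (max (max b2 b3) 1) < Mb a (b + 1) := lt_of_le_of_lt hn hbn2
    have := Mb_mono.lt_iff_lt.1 h3
    omega
  have hbb2 : b2 ≤ b := le_trans (le_trans (le_max_left _ _) (le_max_left _ _)) hb
  have hbb3 : b3 ≤ b := le_trans (le_trans (le_max_right _ _) (le_max_left _ _)) hb
  have hbb1 : 1 ≤ b := le_trans (le_max_right _ _) hb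
  obtain ⟨t1, t2⟩ := hS.2.1 b _ (hq.2.2.2.1 b n hbn1 hbn2)
  -- the next point is in the block `b` or in the next one
  have hnext : q (n + 1) ≤ tb a (b + 2) := by
    rcases Nat.lt_or_ge (n + 1) (Mb a (b + 1)) with h3 | h3
    · have h4 := (hS.2.1 b _ (hq.2.2.2.1 b (n + 1) (by omega) h3)).2
      exact h4.trans (tb_mono.monotone (by omega))
    · have h4 : n + 1 < Mb a (b + 1 + 1) := by
        rw [Mb_succ (a := a) (b + 1)]
        omega
      exact (hS.2.1 (b + 1) _ (hq.2.2.2.1 (b + 1) (n + 1) h3 h4)).2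
  have hgap : q (n + 1) - q n ≤ ln a b + ln a (b + 1) := by
    unfold ln
    have e : b + 1 + 1 = b + 2 := rfl
    rw [e]
    linarith
  have htb1 := tb_one_le (a := a) b
  have hsq : ∀ {z : ℝ}, 1 ≤ z → √z ≤ z := by
    intro z hz
    rw [Real.sqrt_le_left (by linarith)]
    nlinarith
  have hd1 : tb a (b + 1) ≤ 2 * tb a b := by
    have h3 := hb2 b hbb2
    have h4 := hsq htb1
    unfold ln at h3
    linarith
  have hd2 : tb a (b + 2) ≤ 4 * tb a b := by
    have h3 := hb2 (b + 1) (by omega)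
    have h4 := hsq (tb_one_le (a := a) (b + 1))
    unfold ln at h3
    have e : b + 1 + 1 = b + 2 := rfl
    rw [e] at h3
    linarith
  have hm : a b ≤ a (b + 1) := ha.1 (Nat.le_succ b)
  set A : ℝ := (a (b + 1) : ℝ) + 1 with hAd
  have hA0 : 0 < A := by positivity
  have habA : (a b : ℝ) + 1 ≤ A := by
    have : (a b : ℝ) ≤ a (b + 1) := by exact_mod_cast hm
    linarith
  have hKA : (K : ℝ) + 1 ≤ A := by
    have : K + 1 ≤ a (b + 1) := hb3 (b + 1) (by omega)
    have : ((K + 1 : ℕ) : ℝ) ≤ a (b + 1) := by exact_mod_cast this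
    push_cast at this
    linarith
  have hlog2 : Real.log (tb a (b + 1)) ≤ Real.log (tb a (b + 2)) :=
    Real.log_le_log (by linarith [tb_one_le (a := a) (b + 1)]) (tb_mono.monotone (by omega))
  have hl0 : 0 ≤ Real.log (tb a (b + 1)) := Real.log_nonneg (tb_one_le _)
  have hup : q (n + 1) - q n ≤ 12 * A * Real.log (tb a (b + 2)) := by
    have h3 := ln_up (a := a) hbb1
    have h4 := ln_up (a := a) (b := b + 1) (by omega)
    have e : b + 1 + 1 = b + 2 := rfl
    rw [e] at h4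
    have h5 : 6 * ((a b : ℝ) + 1) * Real.log (tb a (b + 1)) ≤ 6 * A * Real.log (tb a (b + 2)) := by
      refine mul_le_mul (by linarith) hlog2 hl0 (by positivity)
    linarith
  -- comparison with `y`
  have haV' : V (a (b + 1)) ≤ b + 1 := haV (b + 1) (by
    have : K + 1 ≤ a (b + 1) := hb3 (b + 1) (by omega)
    omega)
  have hyb : ((b : ℝ) + 1) / 2 ≤ y := by
    have h3 := tb_ge (a := a) b
    linarith
  have hVb : (V (a (b + 1)) : ℝ) ≤ (b : ℝ) + 1 := by exact_mod_cast haV'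
  obtain ⟨h3, h4⟩ := hV2 (a (b + 1)) y (by
    have : (0 : ℝ) ≤ (b : ℝ) + 1 := by positivity
    linarith)
  have hly : 0 < Real.log y := Real.log_pos (by linarith)
  rw [le_div_iff₀ hly] at h3
  have h5 : Real.log (tb a (b + 2)) ≤ 4 * Real.log y := by
    have h6 : tb a (b + 2) ≤ y ^ 4 := by
      have h7 : tb a b / 2 ≤ y := by linarith
      have h8 : (64 : ℝ) ≤ y ^ 3 := by nlinarith [mul_self_nonneg (y - 4)]
      have h9 : y ^ 4 = y ^ 3 * y := by ring
      nlinarith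
    have h7 := Real.log_le_log (by linarith [tb_one_le (a := a) (b + 2)]) h6
    rw [Real.log_pow] at h7
    exact_mod_cast h7
  have h6 : q (n + 1) - q n ≤ 48 * A * Real.log y := by
    have := mul_le_mul_of_nonneg_left h5 (show 0 ≤ 12 * A by positivity)
    linarith
  -- `48 A ≤ ε A ^ 2`
  have h7 : 48 ≤ ε * A := by
    rw [div_lt_iff₀ hε] at hK
    nlinarith
  have h8 : 48 * A * Real.log y ≤ ε * (A ^ 2 * Real.log y) := by
    have h9 : 0 ≤ A * Real.log y := by positivity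
    nlinarith
  have h9 := mul_le_mul_of_nonneg_left h3 hε.le
  linarith

end Pool.Agent.H73.KT
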