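import Pool.Agent.H73.KT.Mov
import Pool.Agent.H49.BP.Gaps

/-!
# P3: holes
-/

set_option autoImplicit false

open MeasureTheory Filter Topology Set

namespace Pool.Agent.H73.KT

open Pool.Agent.H49.BP Pool.Agent.H73.TR

theorem li_inc {α β : ℝ} (hα : 2 ≤ α) (hab : α ≤ β) :
    (∫ u in (2 : ℝ)..β, (Real.log u)⁻¹) - ∫ u in (2 : ℝ)..α, (Real.log u)⁻¹ ≤ (β - α) / Real.log α := by
  have hint : ∀ a b : ℝ, 2 ≤ a → 2 ≤ b → IntervalIntegrable (fun u : ℝ => (Real.log u)⁻¹) volume a b := by
    intro a b ha hb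
    refine ContinuousOn.intervalIntegrable fun u hu => ?_
    have hu1 : 2 ≤ u := le_trans (le_min ha hb) hu.1
    exact ((Real.continuousAt_log (by linarith)).inv₀ (log_pos' (by linarith)).ne').continuousWithinAt
  rw [intervalIntegral.integral_interval_sub_left (hint _ _ le_rfl (hα.trans hab)) (hint _ _ le_rfl hα)]
  have h1 := intervalIntegral.integral_mono_on hab (hint _ _ hα (hα.trans hab))
    (intervalIntegrable_const (c := (Real.log α)⁻¹)) (fun u hu =>
      inv_anti₀ (log_pos' (by linarith)) (Real.log_le_log (by linarith) hu.1))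
  rw [intervalIntegral.integral_const, smul_eq_mul] at h1
  rw [div_eq_mul_inv]
  exact h1

/-- the end of the hole that starts at the index `n` -/
noncomputable def en (q : ℕ → ℝ) (h : ℝ → ℝ) (n : ℕ) : ℕ := sInf {r | n < r ∧ q n + h (q n) < q r}

/-- the starts of the holes -/
noncomputable def st (q : ℕ → ℝ) (h : ℝ → ℝ) (n0 : ℕ) : ℕ → ℕ
  | 0 => n0
  | k + 1 => (en q h (st q h n0 k)) ^ 2 + en q h (st q h n0 k) + 1

/-- the values at the moved places -/
noncomputable def fv (q : ℕ → ℝ) (h : ℝ → ℝ) (n j : ℕ) : ℝ :=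
  (q n + h (q n)) + (q (en q h n) - (q n + h (q n))) * (((j : ℝ) - n) / ((en q h n : ℝ) - n))

/-- the moved places -/
def InH (q : ℕ → ℝ) (h : ℝ → ℝ) (n0 k j : ℕ) : Prop := st q h n0 k < j ∧ j < en q h (st q h n0 k)

open Classical in
/-- the sequence with the holes -/
noncomputable def qh (q : ℕ → ℝ) (h : ℝ → ℝ) (n0 j : ℕ) : ℝ :=
  if hj : ∃ k, InH q h n0 k j then fv q h (st q h n0 hj.choose) j else q j

theorem en_min {q : ℕ → ℝ} {h : ℝ → ℝ} {n j : ℕ} (h1 : n < j) (h2 : j < en q h n) : q j ≤ q n + h (q n) := by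
  by_contra h3
  push Not at h3
  exact Nat.notMem_of_lt_sInf h2 ⟨h1, h3⟩

section
variable {q : ℕ → ℝ} (hg : ∀ n : ℕ, (n : ℝ) + 1 ≤ q n) (h : ℝ → ℝ)
include hg

theorem en_ne (n : ℕ) : {r | n < r ∧ q n + h (q n) < q r}.Nonempty := by
  obtain ⟨r, hr⟩ := exists_nat_gt (max (n : ℝ) (q n + h (q n)))
  refine ⟨r, ?_, ?_⟩
  · exact_mod_cast lt_of_le_of_lt (le_max_left _ _) hr
  · have h1 := hg r
    have h2 := lt_of_le_of_lt (le_max_right _ _) hr
    linarith

theorem en_gt (n : ℕ) : n < en q h n := (Nat.sInf_mem (en_ne hg h n)).1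

theorem en_ge (n : ℕ) : q n + h (q n) < q (en q h n) := (Nat.sInf_mem (en_ne hg h n)).2

theorem en_pred {n : ℕ} (h0 : 0 ≤ h (q n)) : q (en q h n - 1) ≤ q n + h (q n) := by
  have h1 := en_gt hg h n
  rcases Nat.lt_or_ge n (en q h n - 1) with h2 | h2
  · exact en_min h2 (by omega)
  · have h3 : en q h n - 1 = n := by omega
    rw [h3]
    linarith

theorem st_lt (n0 k : ℕ) : en q h (st q h n0 k) < st q h n0 (k + 1) := by
  change _ < (en q h (st q h n0 k)) ^ 2 + en q h (st q h n0 k) + 1
  nlinarith [Nat.zero_le (en q h (st q h n0 k))]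

omit hg in
theorem st_sq (n0 k : ℕ) : (en q h (st q h n0 k)) ^ 2 ≤ st q h n0 (k + 1) := by
  change _ ≤ (en q h (st q h n0 k)) ^ 2 + en q h (st q h n0 k) + 1
  omega

theorem st_mono (n0 : ℕ) : StrictMono (st q h n0) :=
  strictMono_nat_of_lt_succ fun k => (en_gt hg h _).trans (st_lt hg h n0 k)

theorem st_ge (n0 k : ℕ) : n0 ≤ st q h n0 k := (st_mono hg h n0).monotone (Nat.zero_le k)

theorem st_en (n0 : ℕ) {k k' : ℕ} (hk : k < k') : en q h (st q h n0 k) < st q h n0 k' :=
  (st_lt hg h n0 k).trans_le ((st_mono hg h n0).monotone hk)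

theorem InH_unique {n0 j k k' : ℕ} (h1 : InH q h n0 k j) (h2 : InH q h n0 k' j) : k = k' := by
  obtain ⟨a1, a2⟩ := h1
  obtain ⟨b1, b2⟩ := h2
  rcases lt_trichotomy k k' with h3 | h3 | h3
  · have := st_en hg h n0 h3
    omega
  · exact h3
  · have := st_en hg h n0 h3
    omega

theorem qh_in {n0 j k : ℕ} (h1 : InH q h n0 k j) : qh q h n0 j = fv q h (st q h n0 k) j := by
  have he : ∃ k, InH q h n0 k j := ⟨k, h1⟩
  unfold qh
  rw [dif_pos he, InH_unique hg h he.choose_spec h1]

omit hg in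
theorem qh_out {n0 j : ℕ} (h1 : ¬ ∃ k, InH q h n0 k j) : qh q h n0 j = q j := by
  unfold qh
  rw [dif_neg h1]

theorem qh_st (n0 k : ℕ) : qh q h n0 (st q h n0 k) = q (st q h n0 k) := by
  refine qh_out h ?_
  rintro ⟨k', h1, h2⟩
  have h3 : k' < k := (st_mono hg h n0).lt_iff_lt.1 h1
  have := st_en hg h n0 h3
  omega

theorem fv_end (n : ℕ) : fv q h n (en q h n) = q (en q h n) := by
  have h1 : (n : ℝ) < en q h n := by exact_mod_cast en_gt hg h n
  unfold fv
  rw [div_self (by linarith)]
  ring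

theorem fv_step (n j : ℕ) : fv q h n (j + 1) - fv q h n j =
    (q (en q h n) - (q n + h (q n))) / ((en q h n : ℝ) - n) := by
  have h1 : (n : ℝ) < en q h n := by exact_mod_cast en_gt hg h n
  have h2 : (en q h n : ℝ) - n ≠ 0 := by linarith
  unfold fv
  push_cast
  field_simp
  ring

theorem step_bd (n : ℕ) : 0 < (q (en q h n) - (q n + h (q n))) / ((en q h n : ℝ) - n) ∧
    (q (en q h n) - (q n + h (q n))) / ((en q h n : ℝ) - n) ≤ q (en q h n) - (q n + h (q n)) := by
  have h1 : (n : ℝ) + 1 ≤ en q h n := by exact_mod_cast en_gt hg h n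
  have h2 := en_ge hg h n
  exact ⟨div_pos (by linarith) (by linarith), div_le_self (by linarith) (by linarith)⟩

omit hg in
theorem fv_start (n : ℕ) : fv q h n n = q n + h (q n) := by
  unfold fv
  simp

theorem fv_gt {n j : ℕ} (hj : n < j) : q n + h (q n) < fv q h n j := by
  have h1 : (n : ℝ) < en q h n := by exact_mod_cast en_gt hg h n
  have h2 := en_ge hg h n
  have h3 : (n : ℝ) < j := by exact_mod_cast hj
  unfold fv
  have : 0 < (q (en q h n) - (q n + h (q n))) * (((j : ℝ) - n) / ((en q h n : ℝ) - n)) :=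
    mul_pos (by linarith) (div_pos (by linarith) (by linarith))
  linarith

theorem qh_next {n0 j k : ℕ} (h1 : st q h n0 k ≤ j) (h2 : j < en q h (st q h n0 k)) :
    qh q h n0 (j + 1) = fv q h (st q h n0 k) (j + 1) := by
  rcases Nat.lt_or_ge (j + 1) (en q h (st q h n0 k)) with h3 | h3
  · exact qh_in hg h ⟨by omega, h3⟩
  · have h4 : j + 1 = en q h (st q h n0 k) := by omega
    rw [h4, fv_end hg h]
    refine qh_out h ?_
    rintro ⟨k', a1, a2⟩
    rcases lt_trichotomy k k' with h5 | h5 | h5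
    · have := st_en hg h n0 h5
      omega
    · subst h5
      omega
    · have := st_en hg h n0 h5
      omega

/-- the three kinds of places -/
theorem qh_cases (n0 j : ℕ) :
    (∃ k, InH q h n0 k j) ∨ (∃ k, st q h n0 k = j) ∨
      (qh q h n0 j = q j ∧ qh q h n0 (j + 1) = q (j + 1)) := by
  by_cases hA : ∃ k, InH q h n0 k j
  · exact Or.inl hA
  · by_cases hB : ∃ k, st q h n0 k = j
    · exact Or.inr (Or.inl hB)
    · refine Or.inr (Or.inr ⟨qh_out h hA, qh_out h ?_⟩)
      rintro ⟨k, a1, a2⟩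
      have h3 : st q h n0 k ≠ j := fun h4 => hB ⟨k, h4⟩
      exact hA ⟨k, by omega, by omega⟩

end

/-- Proof. Choose `n_0` large and for every `j` let `α = q n_j`, `β = α + h α`, `r_j` the first index with `q r_j > β`, `n_{j+1} ≥ r_j ^ 2 + 2`. Move the points of
index `n_j < i < r_j` to `β + (q r_j - β) (i - n_j) / (r_j - n_j)`; all others stay (`q' = q`). Then `q' (n_j + 1) - q' n_j ≥ h α` and
`≤ h α + (q r_j - q (r_j - 1)) ≤ (1 + ε) h α` by `hgap` (`q (r_j - 1) / 2 ≤ β / 2 ≤ α`, since `h α ≤ A √α log α ≤ α`); the gaps between the moved points are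
at most `q r_j - q (r_j - 1) ≤ ε h y` for all `y ≥ α`; the other gaps are old ones. Few: `r_j - n_j ≤ 1 + pc q β - pc q α ≤
1 + h α / log α + 2 C √β ≤ K √α` (`hp`), and the indices before the hole `j` are at most `√n_j ≤ √α`, so the moved points with `q n ≤ x` are at
most `r_{J-1} + (r_J - n_J) ≤ (K + 1) √x`, where `n_J` is the last one with `q n_J ≤ x`. -/
theorem holes {q : ℕ → ℝ} {h : ℝ → ℝ} (hq : StrictMono q) (hg : ∀ n : ℕ, (n : ℝ) + 1 ≤ q n)
    (hp : ∃ C : ℝ, ∀ x : ℝ, 2 ≤ x → |(pc q x : ℝ) - ∫ u in (2 : ℝ)..x, (Real.log u)⁻¹| ≤ C * √x)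
    (hlim : Tendsto (fun x => h x / Real.log x) atTop atTop)
    (hup : ∃ A : ℝ, ∀ᶠ x in atTop, h x ≤ A * √x * Real.log x)
    (hgap : ∀ ε : ℝ, 0 < ε → ∀ᶠ n in atTop, ∀ y : ℝ, q n / 2 ≤ y → q (n + 1) - q n ≤ ε * h y) :
    ∃ q' : ℕ → ℝ, Moved q q' ∧ GapLim q' h := by
  obtain ⟨C0, hC0⟩ := hp
  obtain ⟨A0, hA0⟩ := hup
  set C := max C0 0 with hCdef
  set A := max A0 0 with hAdef
  have hC : 0 ≤ C := le_max_right _ _
  have hA : 0 ≤ A := le_max_right _ _
  have hinf : Tendsto h atTop atTop := by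
    refine tendsto_atTop_mono' (f₁ := fun x => Real.log x) (f₂ := h) _ ?_ Real.tendsto_log_atTop
    filter_upwards [hlim.eventually (eventually_ge_atTop 1), eventually_gt_atTop 1] with x h1 h2
    rw [le_div_iff₀ (log_pos' h2)] at h1
    linarith
  have hev : ∀ᶠ x in atTop, h x ≤ A * √x * Real.log x ∧ 1 ≤ h x ∧ h x ≤ x := by
    have hss : Tendsto (fun x : ℝ => √(√x)) atTop atTop := Real.tendsto_sqrt_atTop.comp Real.tendsto_sqrt_atTop
    filter_upwards [hA0, hinf.eventually (eventually_ge_atTop 1), eventually_gt_atTop 1,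
      hss.eventually (eventually_ge_atTop (4 * A))] with x h1 h2 h3 h4
    have hl := log_pos' h3
    have hx0 : 0 < x := by linarith
    have h5 : h x ≤ A * √x * Real.log x := by
      refine h1.trans ?_
      have : A0 ≤ A := le_max_left _ _
      gcongr
    refine ⟨h5, h2, h5.trans ?_⟩
    have h6 : Real.log x ≤ 4 * √(√x) := by
      have h7 : Real.log x = 4 * Real.log (√(√x)) := by
        rw [Real.log_sqrt (Real.sqrt_nonneg x), Real.log_sqrt hx0.le]
        ring
      have h8 := Real.log_le_sub_one_of_pos (x := √(√x)) (by positivity)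
      linarith
    have e1 : √(√x) * √(√x) = √x := Real.mul_self_sqrt (Real.sqrt_nonneg x)
    have e2 : √x * √x = x := Real.mul_self_sqrt hx0.le
    calc A * √x * Real.log x ≤ A * √x * (4 * √(√x)) := mul_le_mul_of_nonneg_left h6 (by positivity)
      _ = √x * √(√x) * (4 * A) := by ring
      _ ≤ √x * √(√x) * √(√x) := mul_le_mul_of_nonneg_left h4 (by positivity)
      _ = √x * (√(√x) * √(√x)) := by ring
      _ = x := by rw [e1, e2]
  obtain ⟨X, hX⟩ := hev.exists_forall_of_atTop
  obtain ⟨n1, hn1⟩ := exists_nat_ge X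
  set n0 := n1 + 1 with hn0
  have hX' : ∀ n, n0 ≤ n → h (q n) ≤ A * √(q n) * Real.log (q n) ∧ 1 ≤ h (q n) ∧ h (q n) ≤ q n := by
    intro n hn
    refine hX _ ?_
    have h1 := hg n
    have h2 : (n1 : ℝ) ≤ n := by exact_mod_cast (by omega : n1 ≤ n)
    linarith
  have hst : ∀ k, n0 ≤ st q h n0 k := st_ge hg h n0
  have hmv : ∀ n, q n ≤ qh q h n0 n := by
    intro n
    by_cases hn : ∃ k, InH q h n0 k n
    · obtain ⟨k, hk⟩ := hn
      rw [qh_in hg h hk]
      exact (en_min hk.1 hk.2).trans (fv_gt hg h hk.1).le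
    · rw [qh_out h hn]
  refine ⟨qh q h n0, ⟨?_, hmv, 2 + A + 3 * C, by positivity, ?_⟩, ?_, ?_⟩
  · -- strictly increasing
    refine strictMono_nat_of_lt_succ fun j => ?_
    rcases qh_cases hg h n0 j with ⟨k, hk⟩ | ⟨k, hk⟩ | ⟨h1, h2⟩
    · rw [qh_in hg h hk, qh_next hg h hk.1.le hk.2]
      have h3 := fv_step hg h (st q h n0 k) j
      have h4 := (step_bd hg h (st q h n0 k)).1
      linarith
    · rw [← hk, qh_st hg h, qh_next hg h le_rfl (en_gt hg h _)]
      have h3 := fv_gt hg h (Nat.lt_succ_self (st q h n0 k))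
      have h4 := (hX' _ (hst k)).2.1
      linarith
    · rw [h1, h2]
      exact hq (Nat.lt_succ_self j)
  · -- few
    intro x hx
    have hsx : 1 ≤ √x := Real.one_le_sqrt.2 hx
    set S : Set ℕ := {n : ℕ | q n ≤ x ∧ qh q h n0 n ≠ q n} with hS
    have hSin : ∀ n ∈ S, ∃ k, InH q h n0 k n := by
      intro n hn
      by_contra h1
      exact hn.2 (qh_out h h1)
    rcases le_or_gt (q (st q h n0 0)) x with h0 | h0
    · classical
      set J := Nat.findGreatest (fun k => q (st q h n0 k) ≤ x) ⌈x⌉₊ with hJ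
      have hJ1 : q (st q h n0 J) ≤ x := Nat.findGreatest_spec (P := fun k => q (st q h n0 k) ≤ x) (Nat.zero_le _) h0
      have hJ2 : ∀ k, q (st q h n0 k) ≤ x → k ≤ J := by
        intro k hk
        refine Nat.le_findGreatest ?_ hk
        have h1 := (st_mono hg h n0).le_apply (x := k)
        have h2 := hg (st q h n0 k)
        have h3 : (k : ℝ) ≤ st q h n0 k := by exact_mod_cast h1
        have h4 : x ≤ ⌈x⌉₊ := Nat.le_ceil x
        have h5 : (k : ℝ) ≤ ⌈x⌉₊ := by linarith
        exact_mod_cast h5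
      set n := st q h n0 J with hn
      set r := en q h n with hr
      have hnr : n < r := en_gt hg h n
      have hsub : S ⊆ ((Finset.range (⌊√x⌋₊ + 1) ∪ Finset.Ioo n r : Finset ℕ) : Set ℕ) := by
        intro j hj
        obtain ⟨k, hk⟩ := hSin j hj
        have h1 : q (st q h n0 k) ≤ x := (hq hk.1).le.trans hj.1
        rw [Finset.mem_coe, Finset.mem_union, Finset.mem_range, Finset.mem_Ioo]
        rcases (hJ2 k h1).lt_or_eq with h2 | h2
        · left
          have h3 := st_sq (q := q) h n0 k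
          have h4 : st q h n0 (k + 1) ≤ n := (st_mono hg h n0).monotone h2
          have h5 : (((en q h (st q h n0 k)) ^ 2 : ℕ) : ℝ) ≤ (n : ℝ) := by exact_mod_cast h3.trans h4
          push_cast at h5
          have h6 := hg n
          have h7 : ((en q h (st q h n0 k) : ℕ) : ℝ) ≤ √x := Real.le_sqrt_of_sq_le (by linarith)
          have h8 : en q h (st q h n0 k) ≤ ⌊√x⌋₊ := Nat.le_floor h7
          have := hk.2
          omega
        · right
          subst h2
          exact hk
      have h1 := Set.ncard_le_ncard hsub (Finset.finite_toSet _)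
      rw [Set.ncard_coe_finset] at h1
      have h2 := h1.trans (Finset.card_union_le _ _)
      rw [Finset.card_range, Nat.card_Ioo] at h2
      have h3 : (S.ncard : ℝ) ≤ (⌊√x⌋₊ : ℝ) + 1 + ((r : ℝ) - n - 1) := by
        have h4 : S.ncard + n + 1 ≤ ⌊√x⌋₊ + 1 + r := by omega
        have h5 : ((S.ncard + n + 1 : ℕ) : ℝ) ≤ ((⌊√x⌋₊ + 1 + r : ℕ) : ℝ) := by exact_mod_cast h4
        push_cast at h5
        linarith
      have h4 : (⌊√x⌋₊ : ℝ) ≤ √x := Nat.floor_le (Real.sqrt_nonneg x)
      obtain ⟨a1, a2, a3⟩ := hX' n (hst J)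
      have hn1' : 1 ≤ n := by
        have := hst J
        omega
      have hα : 2 ≤ q n := by
        have h5 := hg n
        have h6 : (1 : ℝ) ≤ n := by exact_mod_cast hn1'
        linarith
      set α := q n with hαdef
      set β := α + h α with hβ
      have hαβ : α ≤ β := by linarith
      have hpα : pc q α ≤ n + 1 := by
        by_contra h5
        push Not at h5
        have h6 := (lt_pc hq hg α (n + 1)).1 h5
        have h7 : q n < q (n + 1) := hq (Nat.lt_succ_self n)
        linarith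
      have hpβ : r ≤ pc q β := by
        have h5 : r - 1 < pc q β := (lt_pc hq hg β (r - 1)).2 (en_pred hg h (by linarith))
        omega
      have hpα' : (pc q α : ℝ) ≤ n + 1 := by exact_mod_cast hpα
      have hpβ' : (r : ℝ) ≤ pc q β := by exact_mod_cast hpβ
      have c1 := hC0 α hα
      have c2 := hC0 β (hα.trans hαβ)
      have hCC : C0 ≤ C := le_max_left _ _
      have c1' : C0 * √α ≤ C * √α := mul_le_mul_of_nonneg_right hCC (Real.sqrt_nonneg _)
      have hs2 : √β ≤ 2 * √α := by
        rw [Real.sqrt_le_left (by positivity)]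
        have : √α * √α = α := Real.mul_self_sqrt (by linarith)
        nlinarith
      have c2' : C0 * √β ≤ C * (2 * √α) :=
        (mul_le_mul_of_nonneg_right hCC (Real.sqrt_nonneg _)).trans (mul_le_mul_of_nonneg_left hs2 hC)
      have c3 := li_inc hα hαβ
      have c4 : (β - α) / Real.log α ≤ A * √α := by
        rw [div_le_iff₀ (log_pos' (by linarith))]
        have : β - α = h α := by rw [hβ]; ring
        rw [this]
        exact a1
      rw [abs_le] at c1 c2
      have h5 : (r : ℝ) - n - 1 ≤ (A + 3 * C) * √α := by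
        have e : (A + 3 * C) * √α = A * √α + (C * √α + C * (2 * √α)) := by ring
        rw [e]
        linarith [c1.1, c2.2]
      have h6 : (A + 3 * C) * √α ≤ (A + 3 * C) * √x :=
        mul_le_mul_of_nonneg_left (Real.sqrt_le_sqrt hJ1) (by positivity)
      have e : (2 + A + 3 * C) * √x = 2 * √x + (A + 3 * C) * √x := by ring
      rw [e]
      linarith
    · have hemp : S = ∅ := by
        rw [Set.eq_empty_iff_forall_notMem]
        intro n hn
        obtain ⟨k, hk⟩ := hSin n hn
        have h1 : q (st q h n0 0) ≤ q (st q h n0 k) := hq.monotone ((st_mono hg h n0).monotone (Nat.zero_le k))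
        have h2 := hq hk.1
        have h3 := hn.1
        linarith
      rw [hemp, Set.ncard_empty]
      push_cast
      positivity
  · -- the upper bound of the gaps
    intro ε hε
    have h1 := hgap ε hε
    rw [eventually_atTop] at h1
    obtain ⟨n2, hn2⟩ := h1
    filter_upwards [eventually_ge_atTop n2, eventually_ge_atTop n0] with j hj1 hj2
    have hpos : 1 ≤ h (qh q h n0 j) := by
      refine (hX _ ?_).2.1
      have h2 := hmv j
      have h3 := hg j
      have h4 : (n1 : ℝ) ≤ j := by exact_mod_cast (by omega : n1 ≤ j)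
      linarith
    rcases qh_cases hg h n0 j with ⟨k, hk⟩ | ⟨k, hk⟩ | ⟨h2, h3⟩
    · have e1 := qh_in hg h hk
      have e2 := qh_next hg h hk.1.le hk.2
      have h3 := fv_step hg h (st q h n0 k) j
      have h4 := (step_bd hg h (st q h n0 k)).2
      have h5 := en_pred hg h (n := st q h n0 k) (by linarith [(hX' _ (hst k)).2.1])
      have h6 := fv_gt hg h hk.1
      have h7 : q (en q h (st q h n0 k) - 1) / 2 ≤ qh q h n0 j := by
        have := hg (en q h (st q h n0 k) - 1)
        have : (0 : ℝ) ≤ ((en q h (st q h n0 k) - 1 : ℕ) : ℝ) := Nat.cast_nonneg _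
        rw [e1]
        linarith
      have h8 := hn2 (en q h (st q h n0 k) - 1) (by have := hk.2; omega) _ h7
      have e3 : en q h (st q h n0 k) - 1 + 1 = en q h (st q h n0 k) := by have := hk.2; omega
      rw [e3] at h8
      rw [e2]
      nth_rewrite 1 [e1]
      linarith
    · have e1 := qh_st hg h n0 k
      have e2 := qh_next hg h (n0 := n0) (k := k) le_rfl (en_gt hg h _)
      rw [hk] at e1 e2
      have h3 := fv_step hg h j j
      rw [fv_start] at h3
      have h4 := (step_bd hg h j).2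
      obtain ⟨a1, a2, a3⟩ := hX' j hj2
      have h5 := en_pred hg h (n := j) (by linarith)
      have hen := en_gt hg h j
      have h7 : q (en q h j - 1) / 2 ≤ q j := by linarith
      have h8 := hn2 (en q h j - 1) (by omega) _ h7
      have e3 : en q h j - 1 + 1 = en q h j := by omega
      rw [e3] at h8
      rw [e2, e1]
      linarith
    · have h4 := hn2 j hj1 (q j) (by
        have := hg j
        have : (0 : ℝ) ≤ j := Nat.cast_nonneg j
        linarith)
      rw [h3]
      nth_rewrite 1 [h2]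
      rw [h2] at hpos ⊢
      linarith
  · -- the holes
    intro ε hε
    rw [frequently_atTop]
    intro a
    refine ⟨st q h n0 a, (st_mono hg h n0).le_apply, ?_⟩
    rw [qh_st hg h, qh_next hg h le_rfl (en_gt hg h _)]
    have h3 := fv_gt hg h (Nat.lt_succ_self (st q h n0 a))
    obtain ⟨a1, a2, a3⟩ := hX' _ (hst a)
    have : 0 ≤ ε * h (q (st q h n0 a)) := by positivity
    linarith

end Pool.Agent.H73.KT
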