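import Pool.Agent.H73.KT.Defs

/-!
# P1: moving few points to the right
-/

set_option autoImplicit false

open MeasureTheory Filter Topology Set

namespace Pool.Agent.H73.KT

open Pool.Agent.H49.BP Pool.Agent.H73.TR

/-- `q'` arises from `q` by moving few points to the right (the indices are kept) -/
def Moved (q q' : ℕ → ℝ) : Prop := StrictMono q' ∧ (∀ n, q n ≤ q' n) ∧ ∃ B : ℝ, 0 ≤ B ∧ ∀ x : ℝ, 1 ≤ x →
  ({n : ℕ | q n ≤ x ∧ q' n ≠ q n}.ncard : ℝ) ≤ B * √x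

theorem ncard_union_image {f : ℕ → ℝ} (hf : Function.Injective f) {K : Set ℕ} (hK : K.Finite) (E : Finset ℕ) :
    (⋃ e ∈ E, {n : ℕ | ∃ k ∈ K, f k = f n + (e : ℝ)}).ncard ≤ E.card * K.ncard := by
  refine (E.set_ncard_biUnion_le _).trans ?_
  rw [← smul_eq_mul, ← Finset.sum_const]
  refine Finset.sum_le_sum fun e _ => ?_
  classical
  choose! g hg1 hg2 using fun (n : ℕ) (h : n ∈ {n : ℕ | ∃ k ∈ K, f k = f n + (e : ℝ)}) => h
  refine ncard_le_ncard_of_injOn g (fun n hn => hg1 n hn) ?_ hK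
  intro n hn m hm h
  have h1 := hg2 n hn
  have h2 := hg2 m hm
  rw [h] at h1
  exact hf (by linarith)

section
variable {q q' : ℕ → ℝ} (hq : StrictMono q) (hg : ∀ n : ℕ, (n : ℝ) + 1 ≤ q n) (hm : Moved q q')

include hq hg

theorem le_fin (x : ℝ) : {n : ℕ | q n ≤ x}.Finite := by
  obtain ⟨N, hN⟩ := pc_set hq hg x
  rw [hN]
  exact finite_Iio N

include hm

theorem moved_hg : ∀ n : ℕ, (n : ℝ) + 1 ≤ q' n := fun n => (hg n).trans (hm.2.1 n)

theorem moved_pc (x : ℝ) : pc q' x ≤ pc q x ∧ (pc q x : ℝ) - pc q' x ≤ ({n : ℕ | q n ≤ x ∧ q' n ≠ q n}.ncard : ℝ) := by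
  have hg' := moved_hg hq hg hm
  have h1 : pc q' x ≤ pc q x := by
    by_contra h
    push Not at h
    have h2 := (lt_pc hm.1 hg' x (pc q x)).1 h
    have h3 := (lt_pc hq hg x (pc q x)).2 ((hm.2.1 _).trans h2)
    exact lt_irrefl _ h3
  refine ⟨h1, ?_⟩
  have h2 : (↑(Finset.Ico (pc q' x) (pc q x)) : Set ℕ) ⊆ {n : ℕ | q n ≤ x ∧ q' n ≠ q n} := by
    intro j hj
    rw [Finset.mem_coe, Finset.mem_Ico] at hj
    have h3 : q j ≤ x := (lt_pc hq hg x j).1 hj.2
    have h4 : ¬ q' j ≤ x := fun h => absurd ((lt_pc hm.1 hg' x j).2 h) (not_lt.2 hj.1)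
    exact ⟨h3, fun h => h4 (by rw [h]; exact h3)⟩
  have h3 := ncard_le_ncard h2 ((le_fin hq hg x).subset fun n hn => hn.1)
  rw [ncard_coe_finset, Nat.card_Ico] at h3
  rw [← Nat.cast_sub h1]
  exact_mod_cast h3

/-- `pc q' x ≤ pc q x`, and the indices `pc q' x ≤ j < pc q x` are moved ones with `q j ≤ x`; so
`‖AA q m x - AA q' m x‖ ≤ 3 B √x ≤ 3 B x ^ (1 / 2 + δ)`. -/
theorem moved_disc (hD : Disc q) : Disc q' := by
  have hg' := moved_hg hq hg hm
  obtain ⟨B, hB, hBx⟩ := hm.2.2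
  intro δ hδ
  obtain ⟨C, hC0, hC⟩ := hD δ hδ
  refine ⟨C + 3 * B, by positivity, fun m x hx => ?_⟩
  have hsL : 1 ≤ √(Real.log (|(m : ℝ)| + 3)) := Real.one_le_sqrt.2 (L_ge m)
  have hxs : √x ≤ x ^ (1 / 2 + δ) := by
    rw [Real.sqrt_eq_rpow]
    exact Real.rpow_le_rpow_of_exponent_le hx (by linarith)
  obtain ⟨hp1, hp2⟩ := moved_pc hq hg hm x
  have hU := hBx x hx
  classical
  have key : ‖AA q' m x - AA q m x‖ ≤ 3 * (B * √x) := by
    unfold AA
    have e : ∑ j ∈ Finset.range (pc q' x), em m (q' j) - ∑ j ∈ Finset.range (pc q x), em m (q j) =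
        ∑ j ∈ Finset.range (pc q' x), (em m (q' j) - em m (q j)) -
          (∑ j ∈ Finset.range (pc q x), em m (q j) - ∑ j ∈ Finset.range (pc q' x), em m (q j)) := by
      rw [Finset.sum_sub_distrib]
      ring
    rw [e]
    refine (norm_sub_le _ _).trans ?_
    have a1 : ‖∑ j ∈ Finset.range (pc q x), em m (q j) - ∑ j ∈ Finset.range (pc q' x), em m (q j)‖ ≤ B * √x := by
      refine (sum_range_diff (fun j => (em_norm m _).le) _ _).trans ?_
      rw [abs_of_nonneg (sub_nonneg.2 (by exact_mod_cast hp1))]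
      exact hp2.trans hU
    have a2 : ‖∑ j ∈ Finset.range (pc q' x), (em m (q' j) - em m (q j))‖ ≤ 2 * (B * √x) := by
      refine (norm_sum_le _ _).trans ?_
      have h1 : ∑ j ∈ Finset.range (pc q' x), ‖em m (q' j) - em m (q j)‖ ≤
          ∑ j ∈ Finset.range (pc q' x), (if q' j ≠ q j then (2 : ℝ) else 0) := by
        refine Finset.sum_le_sum fun j _ => ?_
        split_ifs with h2
        · refine (norm_sub_le _ _).trans ?_
          rw [em_norm, em_norm]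
          norm_num
        · rw [not_not] at h2
          rw [h2, sub_self, norm_zero]
      refine h1.trans ?_
      rw [← Finset.sum_filter, Finset.sum_const, nsmul_eq_mul]
      have h3 : (↑((Finset.range (pc q' x)).filter (fun j => q' j ≠ q j)) : Set ℕ) ⊆
          {n : ℕ | q n ≤ x ∧ q' n ≠ q n} := by
        intro j hj
        rw [Finset.mem_coe, Finset.mem_filter, Finset.mem_range] at hj
        exact ⟨(hm.2.1 j).trans ((lt_pc hm.1 hg' x j).1 hj.1), hj.2⟩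
      have h4 := ncard_le_ncard h3 ((le_fin hq hg x).subset fun n hn => hn.1)
      rw [ncard_coe_finset] at h4
      have h5 : (((Finset.range (pc q' x)).filter (fun j => q' j ≠ q j)).card : ℝ) ≤
          ({n : ℕ | q n ≤ x ∧ q' n ≠ q n}.ncard : ℝ) := by exact_mod_cast h4
      linarith
    linarith
  have h0 := hC m x hx
  have hx0 : 0 ≤ x ^ (1 / 2 + δ) := Real.rpow_nonneg (by linarith) _
  calc ‖AA q' m x - BB m x‖ = ‖(AA q' m x - AA q m x) + (AA q m x - BB m x)‖ := by rw [sub_add_sub_cancel]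
    _ ≤ ‖AA q' m x - AA q m x‖ + ‖AA q m x - BB m x‖ := norm_add_le _ _
    _ ≤ 3 * (B * √x) + C * x ^ (1 / 2 + δ) * √(Real.log (|(m : ℝ)| + 3)) := add_le_add key h0
    _ ≤ 3 * B * x ^ (1 / 2 + δ) * √(Real.log (|(m : ℝ)| + 3)) +
        C * x ^ (1 / 2 + δ) * √(Real.log (|(m : ℝ)| + 3)) := by
        refine add_le_add ?_ le_rfl
        have h1 : B * √x ≤ B * x ^ (1 / 2 + δ) := mul_le_mul_of_nonneg_left hxs hB
        have h2 : 3 * B * x ^ (1 / 2 + δ) ≤ 3 * B * x ^ (1 / 2 + δ) * √(Real.log (|(m : ℝ)| + 3)) :=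
          le_mul_of_one_le_right (by positivity) hsL
        linarith
    _ = (C + 3 * B) * x ^ (1 / 2 + δ) * √(Real.log (|(m : ℝ)| + 3)) := by ring

theorem moved_primes (hp : ∃ C : ℝ, ∀ x : ℝ, 2 ≤ x → |(pc q x : ℝ) - ∫ u in (2 : ℝ)..x, (Real.log u)⁻¹| ≤ C * √x) :
    ∃ C : ℝ, ∀ x : ℝ, 2 ≤ x → |(pc q' x : ℝ) - ∫ u in (2 : ℝ)..x, (Real.log u)⁻¹| ≤ C * √x := by
  obtain ⟨C, hC⟩ := hp
  obtain ⟨B, hB, hBx⟩ := hm.2.2
  refine ⟨C + B, fun x hx => ?_⟩
  obtain ⟨hp1, hp2⟩ := moved_pc hq hg hm x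
  have hU := hBx x (by linarith)
  have h1 := hC x hx
  have h2 : (pc q' x : ℝ) ≤ pc q x := by exact_mod_cast hp1
  rw [abs_le] at h1 ⊢
  constructor <;> nlinarith [h1.1, h1.2]

/-- Let `P`, `P'` be the sets counted by `tc q E x`, `tc q' E x`. If `n` is in `P` and not in `P'` (or conversely) then `n` or one of the
indices `k` with `q k = q n + e` (`q' k = q' n + e`), `e ∈ E`, is moved; `q k ≤ x + mx E` in both cases; for given `k` and `e` there is
at most one such `n`. So `|tc q' E x - tc q E x| ≤ 2 (|E| + 1) B √(x + mx E)`. -/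
theorem moved_tuples {E : Finset ℕ} {I : ℝ → ℝ}
    (h : ∀ ε : ℝ, 0 < ε → ∃ C : ℝ, ∀ x : ℝ, 2 ≤ x → |(tc q E x : ℝ) - I x| ≤ C * x ^ (1 / 2 + ε)) :
    ∀ ε : ℝ, 0 < ε → ∃ C : ℝ, ∀ x : ℝ, 2 ≤ x → |(tc q' E x : ℝ) - I x| ≤ C * x ^ (1 / 2 + ε) := by
  have hg' := moved_hg hq hg hm
  obtain ⟨B, hB, hBx⟩ := hm.2.2
  intro ε hε
  obtain ⟨C, hC⟩ := h ε hε
  refine ⟨C + (E.card + 1) * B * (1 + √(mx E)), fun x hx => ?_⟩
  set U : Set ℕ := {n : ℕ | q n ≤ x + mx E ∧ q' n ≠ q n} with hU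
  have hUf : U.Finite := (le_fin hq hg (x + mx E)).subset fun n hn => hn.1
  have hmx0 : (0 : ℝ) ≤ mx E := Nat.cast_nonneg _
  have hUc : (U.ncard : ℝ) ≤ B * √(x + mx E) := hBx (x + mx E) (by linarith)
  have hE : ∀ e ∈ E, (e : ℝ) ≤ mx E := fun e he => by
    exact_mod_cast Finset.le_sup (f := id) he
  set P : Set ℕ := {n : ℕ | q n ≤ x ∧ ∀ e ∈ E, ∃ k, q k = q n + e} with hP
  set P' : Set ℕ := {n : ℕ | q' n ≤ x ∧ ∀ e ∈ E, ∃ k, q' k = q' n + e} with hP'
  have hPf : P.Finite := (le_fin hq hg x).subset fun n hn => hn.1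
  have hPf' : P'.Finite := (le_fin hm.1 hg' x).subset fun n hn => hn.1
  have s1 : P ⊆ P' ∪ (U ∪ ⋃ e ∈ E, {n : ℕ | ∃ k ∈ U, q k = q n + (e : ℝ)}) := by
    intro n hn
    by_cases hnm : q' n = q n
    · by_cases hex : ∃ e ∈ E, ∃ k ∈ U, q k = q n + (e : ℝ)
      · obtain ⟨e, he, hk⟩ := hex
        exact Or.inr (Or.inr (mem_iUnion₂.2 ⟨e, he, hk⟩))
      · push Not at hex
        refine Or.inl ⟨by rw [hnm]; exact hn.1, fun e he => ?_⟩
        obtain ⟨k, hk⟩ := hn.2 e he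
        refine ⟨k, ?_⟩
        have h1 : k ∉ U := fun hkU => hex e he k hkU hk
        have h2 : q k ≤ x + mx E := by rw [hk]; linarith [hn.1, hE e he]
        have h3 : q' k = q k := by
          by_contra h4
          exact h1 ⟨h2, h4⟩
        rw [h3, hk, hnm]
    · exact Or.inr (Or.inl ⟨by linarith [hn.1], hnm⟩)
  have s2 : P' ⊆ P ∪ (U ∪ ⋃ e ∈ E, {n : ℕ | ∃ k ∈ U, q' k = q' n + (e : ℝ)}) := by
    intro n hn
    have hqn : q n ≤ x := (hm.2.1 n).trans hn.1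
    by_cases hnm : q' n = q n
    · by_cases hex : ∃ e ∈ E, ∃ k ∈ U, q' k = q' n + (e : ℝ)
      · obtain ⟨e, he, hk⟩ := hex
        exact Or.inr (Or.inr (mem_iUnion₂.2 ⟨e, he, hk⟩))
      · push Not at hex
        refine Or.inl ⟨hqn, fun e he => ?_⟩
        obtain ⟨k, hk⟩ := hn.2 e he
        refine ⟨k, ?_⟩
        have h1 : k ∉ U := fun hkU => hex e he k hkU hk
        have h2 : q k ≤ x + mx E := by
          have := hm.2.1 k
          rw [hk] at this
          linarith [hn.1, hE e he]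
        have h3 : q' k = q k := by
          by_contra h4
          exact h1 ⟨h2, h4⟩
        rw [← h3, hk, hnm]
    · exact Or.inr (Or.inl ⟨by linarith, hnm⟩)
  have c1 := ncard_union_image hq.injective hUf E
  have c2 := ncard_union_image hm.1.injective hUf E
  have f1 : (⋃ e ∈ E, {n : ℕ | ∃ k ∈ U, q k = q n + (e : ℝ)}).Finite := by
    refine (le_fin hq hg (x + mx E)).subset fun n hn => ?_
    obtain ⟨e, _, k, hk, hk2⟩ := mem_iUnion₂.1 hn
    have h1 : (0 : ℝ) ≤ e := Nat.cast_nonneg _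
    show q n ≤ x + mx E
    linarith [hk.1]
  have f2 : (⋃ e ∈ E, {n : ℕ | ∃ k ∈ U, q' k = q' n + (e : ℝ)}).Finite := by
    have hfin : (⋃ k ∈ U, {n : ℕ | q' n ≤ q' k}).Finite := hUf.biUnion fun k _ => le_fin hm.1 hg' (q' k)
    refine hfin.subset fun n hn => ?_
    obtain ⟨e, _, k, hk, hk2⟩ := mem_iUnion₂.1 hn
    have h1 : (0 : ℝ) ≤ e := Nat.cast_nonneg _
    refine mem_iUnion₂.2 ⟨k, hk, ?_⟩
    show q' n ≤ q' k
    linarith
  have n1 : P.ncard ≤ P'.ncard + (U.ncard + E.card * U.ncard) := by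
    refine (ncard_le_ncard s1 (hPf'.union (hUf.union f1))).trans ((ncard_union_le _ _).trans ?_)
    exact Nat.add_le_add_left ((ncard_union_le _ _).trans (Nat.add_le_add_left c1 _)) _
  have n2 : P'.ncard ≤ P.ncard + (U.ncard + E.card * U.ncard) := by
    refine (ncard_le_ncard s2 (hPf.union (hUf.union f2))).trans ((ncard_union_le _ _).trans ?_)
    exact Nat.add_le_add_left ((ncard_union_le _ _).trans (Nat.add_le_add_left c2 _)) _
  have n1' : (P.ncard : ℝ) ≤ P'.ncard + (U.ncard + E.card * U.ncard) := by exact_mod_cast n1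
  have n2' : (P'.ncard : ℝ) ≤ P.ncard + (U.ncard + E.card * U.ncard) := by exact_mod_cast n2
  have hs : √(x + mx E) ≤ (1 + √(mx E)) * x ^ (1 / 2 + ε) := by
    have h1 : √(x + mx E) ≤ √x + √(mx E) := by
      refine Real.sqrt_le_iff.2 ⟨by positivity, ?_⟩
      have a1 : √x ^ 2 = x := Real.sq_sqrt (by linarith)
      have a2 : √(mx E : ℝ) ^ 2 = mx E := Real.sq_sqrt hmx0
      have a3 : 0 ≤ √x * √(mx E : ℝ) := by positivity
      nlinarith
    have h2 : √x ≤ x ^ (1 / 2 + ε) := by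
      rw [Real.sqrt_eq_rpow]
      exact Real.rpow_le_rpow_of_exponent_le (by linarith) (by linarith)
    have h3 : 1 ≤ x ^ (1 / 2 + ε) := Real.one_le_rpow (by linarith) (by linarith)
    have h4 : √(mx E : ℝ) ≤ √(mx E) * x ^ (1 / 2 + ε) := le_mul_of_one_le_right (Real.sqrt_nonneg _) h3
    linarith
  have hd : |(P'.ncard : ℝ) - P.ncard| ≤ (E.card + 1) * B * (1 + √(mx E)) * x ^ (1 / 2 + ε) := by
    have h1 : (U.ncard : ℝ) + E.card * U.ncard ≤ (E.card + 1) * B * (1 + √(mx E)) * x ^ (1 / 2 + ε) := by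
      calc (U.ncard : ℝ) + E.card * U.ncard = (E.card + 1) * U.ncard := by ring
        _ ≤ (E.card + 1) * (B * ((1 + √(mx E)) * x ^ (1 / 2 + ε))) := by
            refine mul_le_mul_of_nonneg_left (hUc.trans (mul_le_mul_of_nonneg_left hs hB)) (by positivity)
        _ = _ := by ring
    rw [abs_le]
    constructor <;> linarith
  have h0 := hC x hx
  have e1 : tc q E x = P.ncard := rfl
  have e2 : tc q' E x = P'.ncard := rfl
  rw [e1] at h0
  rw [e2]
  calc |(P'.ncard : ℝ) - I x| = |((P'.ncard : ℝ) - P.ncard) + (P.ncard - I x)| := by rw [sub_add_sub_cancel]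
    _ ≤ |(P'.ncard : ℝ) - P.ncard| + |P.ncard - I x| := abs_add_le _ _
    _ ≤ (E.card + 1) * B * (1 + √(mx E)) * x ^ (1 / 2 + ε) + C * x ^ (1 / 2 + ε) := add_le_add hd h0
    _ = (C + (E.card + 1) * B * (1 + √(mx E))) * x ^ (1 / 2 + ε) := by ring

end

end Pool.Agent.H73.KT
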