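import Pool.Agent.H73.KT.Defs

/-!
# W3a: the offsets
-/

set_option autoImplicit false

open MeasureTheory Filter Topology Set

namespace Pool.Agent.H73.KT

open Pool.Agent.H49.BP Pool.Agent.H73.TR

theorem mem_off {a : ℕ} {L : ℝ} {D : Finset ℕ} {c : ℝ} :
    c ∈ off a L D ↔ (∃ t ∈ D, c = (t : ℝ)) ∨ ∃ i : ℕ, i < a + 1 - D.card ∧ c = ((i : ℝ) + 1) * (L / ((a : ℝ) + 2)) := by
  unfold off
  rw [Finset.mem_union, Finset.mem_image, Finset.mem_image]
  constructor
  · rintro (⟨t, ht, h⟩ | ⟨i, hi, h⟩)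
    · exact Or.inl ⟨t, ht, h.symm⟩
    · exact Or.inr ⟨i, Finset.mem_range.1 hi, h.symm⟩
  · rintro (⟨t, ht, h⟩ | ⟨i, hi, h⟩)
    · exact Or.inl ⟨t, ht, h.symm⟩
    · exact Or.inr ⟨i, Finset.mem_range.2 hi, h.symm⟩

section
variable {a : ℕ} {α β : ℝ} (hαβ : α < β) (hL : a ≠ 0 → 2 * ((a : ℝ) + 2) ^ 2 ≤ β - α) {D : Finset ℕ}
  (hD : D ∈ insert ∅ (pat a))

include hαβ hL hD

/-- the facts on the spacing and on `D` -/
theorem off_facts : 0 < (β - α) / ((a : ℝ) + 2) ∧ β - α = ((a : ℝ) + 2) * ((β - α) / ((a : ℝ) + 2)) ∧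
    (a ≠ 0 → 2 * ((a : ℝ) + 2) ≤ (β - α) / ((a : ℝ) + 2)) ∧ (∀ t ∈ D, a ≠ 0 ∧ (t : ℝ) ≤ a) ∧ D.card ≤ a + 1 := by
  have ha0 : (0 : ℝ) ≤ a := Nat.cast_nonneg a
  have hpos : (0 : ℝ) < (a : ℝ) + 2 := by linarith
  refine ⟨div_pos (by linarith) hpos, ?_, ?_, ?_, ?_⟩
  · field_simp
  · intro ha
    rw [le_div_iff₀ hpos]
    have := hL ha
    nlinarith
  · intro t ht
    rw [Finset.mem_insert] at hD
    rcases hD with rfl | hD
    · simp at ht
    · unfold pat at hD
      rw [Finset.mem_filter, Finset.mem_powerset] at hD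
      have h1 := Finset.mem_range.1 (hD.1 ht)
      refine ⟨?_, ?_⟩
      · rintro rfl
        have h2 := Finset.card_le_card hD.1
        rw [Finset.card_range] at h2
        omega
      · have h2 : t ≤ a := by omega
        exact_mod_cast h2
  · rw [Finset.mem_insert] at hD
    rcases hD with rfl | hD
    · simp
    · unfold pat at hD
      rw [Finset.mem_filter, Finset.mem_powerset] at hD
      have h2 := Finset.card_le_card hD.1
      rwa [Finset.card_range] at h2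

/-- Remarks. `pat 0 = ∅`, so for `a = 0` we have `D = ∅` and there is one offset `L / 2`. For `a ≥ 1` let `s = L / (a + 2) ≥ 2 (a + 2)`;
the elements of `D` are at most `a < s / 2` and the further offsets are `s, 2 s, ..., (a + 1 - |D|) s ≤ L - s`. -/
theorem off_card : (off a (β - α) D).card = a + 1 := by
  obtain ⟨hs, hLs, hs2, ht, hc⟩ := off_facts hαβ hL hD
  unfold off
  rw [Finset.card_union_of_disjoint, Finset.card_image_of_injective _ Nat.cast_injective,
    Finset.card_image_of_injective, Finset.card_range]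
  · omega
  · intro i j hij
    have h1 : (i : ℝ) + 1 = (j : ℝ) + 1 := mul_right_cancel₀ hs.ne' hij
    have h2 : (i : ℝ) = j := by linarith
    exact_mod_cast h2
  · rw [Finset.disjoint_left]
    intro x hx hx'
    rw [Finset.mem_image] at hx hx'
    obtain ⟨t, htD, rfl⟩ := hx
    obtain ⟨i, hi, h⟩ := hx'
    obtain ⟨ha, hta⟩ := ht t htD
    have h1 := hs2 ha
    have h2 : (0 : ℝ) ≤ i := Nat.cast_nonneg i
    have h3 : (0 : ℝ) ≤ a := Nat.cast_nonneg a
    have h4 := mul_nonneg h2 hs.le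
    nlinarith

theorem off_mem {c : ℝ} (hc : c ∈ off a (β - α) D) : 0 ≤ c ∧ c < β - α := by
  obtain ⟨hs, hLs, hs2, ht, hcard⟩ := off_facts hαβ hL hD
  have h3 : (0 : ℝ) ≤ a := Nat.cast_nonneg a
  rw [mem_off] at hc
  rcases hc with ⟨t, htD, rfl⟩ | ⟨i, hi, rfl⟩
  · obtain ⟨ha, hta⟩ := ht t htD
    have h1 := hL ha
    refine ⟨Nat.cast_nonneg t, ?_⟩
    nlinarith
  · have h2 : (0 : ℝ) ≤ i := Nat.cast_nonneg i
    refine ⟨by positivity, ?_⟩
    have h4 : (i : ℝ) + 1 ≤ (a : ℝ) + 1 := by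
      have : i ≤ a := by omega
      have : (i : ℝ) ≤ a := by exact_mod_cast this
      linarith
    have h5 : ((i : ℝ) + 1) * ((β - α) / ((a : ℝ) + 2)) ≤ ((a : ℝ) + 1) * ((β - α) / ((a : ℝ) + 2)) :=
      mul_le_mul_of_nonneg_right h4 hs.le
    calc ((i : ℝ) + 1) * ((β - α) / ((a : ℝ) + 2)) ≤ ((a : ℝ) + 1) * ((β - α) / ((a : ℝ) + 2)) := h5
      _ < ((a : ℝ) + 2) * ((β - α) / ((a : ℝ) + 2)) := by nlinarith
      _ = β - α := hLs.symm

/-- The offsets have mutual distances at least `1` and are at most `L - 1`, for `a ≥ 1` (for `a = 0` there is one offset). -/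
theorem off_sep {c c' : ℝ} (hc : c ∈ off a (β - α) D) (hc' : c' ∈ off a (β - α) D) (h : c < c') :
    c + 1 ≤ c' ∧ c' + 1 ≤ c + (β - α) := by
  obtain ⟨hs, hLs, hs2, ht, hcard⟩ := off_facts hαβ hL hD
  have h3 : (0 : ℝ) ≤ a := Nat.cast_nonneg a
  rw [mem_off] at hc hc'
  generalize hsd : (β - α) / ((a : ℝ) + 2) = s at *
  rcases hc with ⟨t, htD, rfl⟩ | ⟨i, hi, rfl⟩
  · obtain ⟨ha, hta⟩ := ht t htD
    have hs3 := hs2 ha
    have ht0 : (0 : ℝ) ≤ t := Nat.cast_nonneg t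
    rcases hc' with ⟨t', ht'D, rfl⟩ | ⟨i', hi', rfl⟩
    · have h4 : t < t' := by exact_mod_cast h
      have h5 : (t : ℝ) + 1 ≤ t' := by exact_mod_cast h4
      have h6 := (ht t' ht'D).2
      refine ⟨h5, ?_⟩
      rw [hLs]
      nlinarith
    · have h2 : (0 : ℝ) ≤ i' := Nat.cast_nonneg i'
      have h4 : (i' : ℝ) + 1 ≤ (a : ℝ) + 1 := by
        have : i' ≤ a := by omega
        have : (i' : ℝ) ≤ a := by exact_mod_cast this
        linarith
      have h5 := mul_le_mul_of_nonneg_right h4 hs.le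
      have h7 := mul_nonneg h2 hs.le
      refine ⟨by nlinarith, ?_⟩
      rw [hLs]
      nlinarith
  · have hi0 : (0 : ℝ) ≤ i := Nat.cast_nonneg i
    have hi1 := mul_nonneg hi0 hs.le
    rcases hc' with ⟨t', ht'D, rfl⟩ | ⟨i', hi', rfl⟩
    · obtain ⟨ha, hta⟩ := ht t' ht'D
      have hs3 := hs2 ha
      exfalso
      nlinarith
    · have h8 : (i : ℝ) + 1 < (i' : ℝ) + 1 := lt_of_mul_lt_mul_right h hs.le
      have h9 : i < i' := by
        have : (i : ℝ) < i' := by linarith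
        exact_mod_cast this
      have ha : a ≠ 0 := by omega
      have hs3 := hs2 ha
      have h10 : (i : ℝ) + 1 ≤ i' := by exact_mod_cast h9
      have h4 : (i' : ℝ) + 1 ≤ (a : ℝ) + 1 := by
        have : i' ≤ a := by omega
        have : (i' : ℝ) ≤ a := by exact_mod_cast this
        linarith
      have h5 := mul_le_mul_of_nonneg_right h4 hs.le
      have h11 := mul_le_mul_of_nonneg_right h10 hs.le
      refine ⟨by nlinarith, ?_⟩
      rw [hLs]
      nlinarith

/-- Two offsets `c`, `c'` such that `c' - c` is `e` or `e - L` or `e + L` for a natural number `1 ≤ e ≤ a` are both in `D`, and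
`c' - c = e`. -/
theorem off_diff {c c' : ℝ} (hc : c ∈ off a (β - α) D) (hc' : c' ∈ off a (β - α) D) {e : ℕ} (he1 : 1 ≤ e) (he : e ≤ a)
    (h : c' - c = e ∨ c' - c = e - (β - α) ∨ c' - c = e + (β - α)) :
    c' - c = e ∧ (∃ t ∈ D, c = (t : ℝ)) ∧ ∃ t ∈ D, c' = (t : ℝ) := by
  have hc0 := (off_mem hαβ hL hD hc).1
  have hc0' := (off_mem hαβ hL hD hc').1
  obtain ⟨hs, hLs, hs2, ht, hcard⟩ := off_facts hαβ hL hD
  have h3 : (0 : ℝ) ≤ a := Nat.cast_nonneg a
  have ha : a ≠ 0 := by omega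
  have he1' : (1 : ℝ) ≤ e := by exact_mod_cast he1
  have he' : (e : ℝ) ≤ a := by exact_mod_cast he
  have hs3 := hs2 ha
  -- the offsets are at most `(a + 1) s`
  have hup : ∀ {d : ℝ}, d ∈ off a (β - α) D → d ≤ ((a : ℝ) + 1) * ((β - α) / ((a : ℝ) + 2)) := by
    intro d hd
    rw [mem_off] at hd
    rcases hd with ⟨t, htD, rfl⟩ | ⟨i, hi, rfl⟩
    · have h4 := (ht t htD).2
      nlinarith
    · have h4 : (i : ℝ) + 1 ≤ (a : ℝ) + 1 := by
        have : i ≤ a := by omega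
        have : (i : ℝ) ≤ a := by exact_mod_cast this
        linarith
      exact mul_le_mul_of_nonneg_right h4 hs.le
  have hu := hup hc
  have hu' := hup hc'
  rw [mem_off] at hc hc'
  generalize hsd : (β - α) / ((a : ℝ) + 2) = s at *
  have hcc : c' - c = e := by
    rcases h with h | h | h
    · exact h
    · exfalso
      rw [hLs] at h
      nlinarith
    · exfalso
      rw [hLs] at h
      nlinarith
  refine ⟨hcc, ?_⟩
  rcases hc with ⟨t, htD, rfl⟩ | ⟨i, hi, rfl⟩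
  · rcases hc' with ⟨t', ht'D, rfl⟩ | ⟨i', hi', rfl⟩
    · exact ⟨⟨t, htD, rfl⟩, t', ht'D, rfl⟩
    · exfalso
      have h4 := (ht t htD).2
      have h2 : (0 : ℝ) ≤ i' := Nat.cast_nonneg i'
      have h7 := mul_nonneg h2 hs.le
      nlinarith
  · exfalso
    have hi0 : (0 : ℝ) ≤ i := Nat.cast_nonneg i
    have hi1 := mul_nonneg hi0 hs.le
    rcases hc' with ⟨t', ht'D, rfl⟩ | ⟨i', hi', rfl⟩
    · have h4 := (ht t' ht'D).2
      nlinarith
    · rcases Nat.lt_or_ge i i' with h8 | h8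
      · have h10 : (i : ℝ) + 1 ≤ i' := by exact_mod_cast h8
        have h11 := mul_le_mul_of_nonneg_right h10 hs.le
        nlinarith
      · have h10 : (i' : ℝ) ≤ i := by exact_mod_cast h8
        have h11 := mul_le_mul_of_nonneg_right h10 hs.le
        nlinarith

end

end Pool.Agent.H73.KT
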