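import Pool.Agent.H73.KT.Slo
import Pool.Agent.H73.KT.Enu

/-!
# W6: the patterns in the sequence are the patterns in the blocks
-/

set_option autoImplicit false

open MeasureTheory Filter Topology Set

namespace Pool.Agent.H73.KT

open Pool.Agent.H49.BP Pool.Agent.H73.TR

section
variable {a : ℕ → ℕ} {S : ℕ → Finset ℝ} {q : ℕ → ℝ} (hS : Blocks a S) (hq : Enum a S q)
  (hX : ∀ b, ∀ x ∈ S b, ∀ y ∈ S (b + 1), ∀ k : ℕ, y ≠ x + (k : ℝ))

include hS hq hX

/-- Late members `q n` that start a pattern have the whole pattern in their block: if `q k = q n + e` with `e ≤ mx E` and `q k` is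
in the block `b'` then `b ≤ b'`; `b' = b + 1` is excluded by `hX`, and `b' ≥ b + 2` gives `q k - q n > ln a (b + 1) > mx E` for
large `b` (`ln_ge`). -/
theorem local_pat (E : Finset ℕ) : ∃ b1 : ℕ, ∀ b, b1 ≤ b → ∀ n, q n ∈ S b → (∀ e ∈ E, ∃ k, q k = q n + (e : ℝ)) →
    ∀ e ∈ E, q n + (e : ℝ) ∈ S b := by
  obtain ⟨b0, hb0⟩ := ln_ge (a := a) (mx E : ℝ)
  refine ⟨b0, fun b hb n hn hP e he => ?_⟩
  obtain ⟨k, hk⟩ := hP e he
  obtain ⟨b', h1, h2⟩ := exists_index (a := a) k
  have hkS : q k ∈ S b' := hq.2.2.2.1 b' k h1 h2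
  obtain ⟨n1, n2⟩ := hS.2.1 b _ hn
  obtain ⟨k1, k2⟩ := hS.2.1 b' _ hkS
  have he0 : (0 : ℝ) ≤ e := Nat.cast_nonneg e
  have hemx : (e : ℝ) ≤ mx E := by
    have : e ≤ E.sup id := Finset.le_sup (f := id) he
    exact_mod_cast this
  have hbb : b ≤ b' := by
    by_contra hcon
    push Not at hcon
    have : tb a (b' + 1) ≤ tb a b := (tb_mono (a := a)).monotone hcon
    linarith
  rcases hbb.eq_or_lt with h | h
  · subst h
    rw [← hk]; exact hkS
  · rcases (Nat.succ_le_of_lt h).eq_or_lt with h' | h'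
    · subst h'
      exact absurd hk (hX b _ hn _ hkS e)
    · have h3 : tb a (b + 1 + 1) ≤ tb a b' := (tb_mono (a := a)).monotone h'
      have h4 := hb0 (b + 1) (by omega)
      unfold ln at h4
      linarith

open Classical in
/-- the count, for `x` in the block `J` -/
theorem count_blocks {E : Finset ℕ} (h0 : 0 ∈ E) : ∃ B : ℝ, 0 ≤ B ∧ ∀ (x : ℝ) (J : ℕ), tb a J ≤ x → x < tb a (J + 1) →
    |(tc q E x : ℝ) - ∑ b ∈ Finset.range J, (((S b).filter fun x => ∀ e ∈ E, x + (e : ℝ) ∈ S b).card : ℝ)| ≤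
      B + ((a J : ℝ) + 1) := by
  obtain ⟨b1, hb1⟩ := local_pat hS hq hX E
  refine ⟨∑ b ∈ Finset.range b1, ((a b : ℝ) + 1), Finset.sum_nonneg fun _ _ => by positivity, ?_⟩
  intro x J hJ1 hJ2
  set P : ℝ → Prop := fun y => ∀ e ∈ E, ∃ k, q k = y + (e : ℝ) with hP
  have hin : ∀ b, ∀ y ∈ S b, ∃ n, q n = y := by
    intro b y hy
    obtain ⟨n, -, -, h⟩ := hq.2.2.2.2 b y hy
    exact ⟨n, h⟩
  -- the sums over the blocks
  have hG : ∀ b, (((S b).filter fun x => ∀ e ∈ E, x + (e : ℝ) ∈ S b).card : ℝ) ≤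
      ((S b).filter P).card ∧ (((S b).filter P).card : ℝ) ≤
      (((S b).filter fun x => ∀ e ∈ E, x + (e : ℝ) ∈ S b).card : ℝ) +
        (if b < b1 then (a b : ℝ) + 1 else 0) := by
    intro b
    constructor
    · have : ((S b).filter fun x => ∀ e ∈ E, x + (e : ℝ) ∈ S b) ⊆ (S b).filter P := by
        intro y hy
        rw [Finset.mem_filter] at hy ⊢
        exact ⟨hy.1, fun e he => hin b _ (hy.2 e he)⟩
      exact_mod_cast Finset.card_le_card this
    · by_cases h : b < b1
      · rw [if_pos h]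
        have h1 : (((S b).filter P).card : ℝ) ≤ (a b : ℝ) + 1 := by
          have := Finset.card_filter_le (S b) P
          rw [hS.1 b] at this
          exact_mod_cast this
        have h2 : (0 : ℝ) ≤ (((S b).filter fun x => ∀ e ∈ E, x + (e : ℝ) ∈ S b).card : ℝ) :=
          Nat.cast_nonneg _
        linarith
      · rw [if_neg h, add_zero]
        have : (S b).filter P ⊆ ((S b).filter fun x => ∀ e ∈ E, x + (e : ℝ) ∈ S b) := by
          intro y hy
          rw [Finset.mem_filter] at hy ⊢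
          obtain ⟨n, rfl⟩ := hin b y hy.1
          exact ⟨hy.1, hb1 b (by omega) n hy.1 hy.2⟩
        exact_mod_cast Finset.card_le_card this
  -- the set of the indices
  have hset : {n : ℕ | q n ≤ x ∧ ∀ e ∈ E, ∃ k, q k = q n + (e : ℝ)} =
      ((Finset.range (Mb a (J + 1))).filter fun n => q n ≤ x ∧ P (q n) : Finset ℕ) := by
    ext n
    simp only [mem_ofPred_eq, Finset.coe_filter, Finset.mem_range]
    constructor
    · rintro ⟨h1, h2⟩
      refine ⟨?_, h1, h2⟩
      by_contra hcon
      push Not at hcon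
      obtain ⟨b, h3, h4⟩ := exists_index (a := a) n
      have h5 : J + 1 ≤ b := by
        by_contra hc
        push Not at hc
        have : Mb a (b + 1) ≤ Mb a (J + 1) := (Mb_mono (a := a)).monotone (by omega)
        omega
      have h6 := (hS.2.1 b _ (hq.2.2.2.1 b n h3 h4)).1
      have h7 : tb a (J + 1) ≤ tb a b := (tb_mono (a := a)).monotone h5
      linarith
    · rintro ⟨_, h1, h2⟩
      exact ⟨h1, h2⟩
  have htc : (tc q E x : ℝ) =
      (((Finset.range (Mb a (J + 1))).filter fun n => q n ≤ x ∧ P (q n)).card : ℝ) := by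
    unfold tc
    rw [hset, Set.ncard_coe_finset]
  have hMM : Mb a J ≤ Mb a (J + 1) := (Mb_mono (a := a)).monotone (by omega)
  have hsplit : (((Finset.range (Mb a (J + 1))).filter fun n => q n ≤ x ∧ P (q n)).card : ℝ) =
      (((Finset.range (Mb a J)).filter fun n => P (q n)).card : ℝ) +
      (((Finset.Ico (Mb a J) (Mb a (J + 1))).filter fun n => q n ≤ x ∧ P (q n)).card : ℝ) := by
    have h1 : (Finset.range (Mb a (J + 1))).filter (fun n => q n ≤ x ∧ P (q n)) =
        ((Finset.range (Mb a J)).filter fun n => P (q n)) ∪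
        ((Finset.Ico (Mb a J) (Mb a (J + 1))).filter fun n => q n ≤ x ∧ P (q n)) := by
      ext n
      simp only [Finset.mem_filter, Finset.mem_range, Finset.mem_union, Finset.mem_Ico]
      constructor
      · rintro ⟨h1, h2, h3⟩
        by_cases h : n < Mb a J
        · exact Or.inl ⟨h, h3⟩
        · exact Or.inr ⟨⟨by omega, h1⟩, h2, h3⟩
      · rintro (⟨h1, h2⟩ | ⟨⟨h1, h2⟩, h3⟩)
        · refine ⟨by omega, ?_, h2⟩
          obtain ⟨b, h3, h4⟩ := exists_index (a := a) n
          have h5 : b + 1 ≤ J := by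
            by_contra hc
            push Not at hc
            have : Mb a J ≤ Mb a b := (Mb_mono (a := a)).monotone (by omega)
            omega
          have h6 := (hS.2.1 b _ (hq.2.2.2.1 b n h3 h4)).2
          have h7 : tb a (b + 1) ≤ tb a J := (tb_mono (a := a)).monotone h5
          linarith
        · exact ⟨h2, h3⟩
    rw [h1, Finset.card_union_of_disjoint]
    · push_cast; rfl
    · rw [Finset.disjoint_left]
      intro n h1 h2
      simp only [Finset.mem_filter, Finset.mem_range, Finset.mem_Ico] at h1 h2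
      omega
  have hsum : (((Finset.range (Mb a J)).filter fun n => P (q n)).card : ℝ) =
      ∑ b ∈ Finset.range J, (((S b).filter P).card : ℝ) := by
    have h1 := enum_sum hS hq (fun y => if P y then (1 : ℝ) else 0) J
    have h2 : (((Finset.range (Mb a J)).filter fun n => P (q n)).card : ℝ) =
        ∑ n ∈ Finset.range (Mb a J), if P (q n) then (1 : ℝ) else 0 := by
      rw [Finset.sum_boole]
    rw [h2, h1]
    refine Finset.sum_congr rfl fun b _ => ?_
    rw [Finset.sum_boole]
  have hlast : (((Finset.Ico (Mb a J) (Mb a (J + 1))).filter fun n => q n ≤ x ∧ P (q n)).card : ℝ) ≤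
      (a J : ℝ) + 1 := by
    have h1 := Finset.card_filter_le (Finset.Ico (Mb a J) (Mb a (J + 1)))
      (fun n => q n ≤ x ∧ P (q n))
    have h2 := Mb_succ (a := a) J
    rw [Nat.card_Ico] at h1
    have h3 : ((Finset.Ico (Mb a J) (Mb a (J + 1))).filter fun n => q n ≤ x ∧ P (q n)).card ≤
        a J + 1 := by omega
    exact_mod_cast h3
  have hlow : ∑ b ∈ Finset.range J,
      (((S b).filter fun x => ∀ e ∈ E, x + (e : ℝ) ∈ S b).card : ℝ) ≤
      ∑ b ∈ Finset.range J, (((S b).filter P).card : ℝ) :=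
    Finset.sum_le_sum fun b _ => (hG b).1
  have hup : ∑ b ∈ Finset.range J, (((S b).filter P).card : ℝ) ≤ ∑ b ∈ Finset.range J,
      (((S b).filter fun x => ∀ e ∈ E, x + (e : ℝ) ∈ S b).card : ℝ) +
      ∑ b ∈ Finset.range b1, ((a b : ℝ) + 1) := by
    refine (Finset.sum_le_sum fun b _ => (hG b).2).trans ?_
    rw [Finset.sum_add_distrib]
    refine add_le_add le_rfl ?_
    rw [← Finset.sum_filter]
    refine Finset.sum_le_sum_of_subset_of_nonneg ?_ fun _ _ _ => by positivity
    intro b hb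
    simp only [Finset.mem_filter, Finset.mem_range] at hb ⊢
    exact hb.2
  have hl0 : (0 : ℝ) ≤ (((Finset.Ico (Mb a J) (Mb a (J + 1))).filter
      fun n => q n ≤ x ∧ P (q n)).card : ℝ) := Nat.cast_nonneg _
  have hB0 : (0 : ℝ) ≤ ∑ b ∈ Finset.range b1, ((a b : ℝ) + 1) :=
    Finset.sum_nonneg fun _ _ => by positivity
  rw [htc, hsplit, hsum, abs_le]
  constructor <;> linarith

end

end Pool.Agent.H73.KT
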