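import Pool.Agent.H73.KT.Slb
import Pool.Agent.H73.KT.Enu
import Pool.Agent.H73.TR.Co

/-!
# W5: the twisted discrepancies and the number of the primes
-/

set_option autoImplicit false

open MeasureTheory Filter Topology Set

namespace Pool.Agent.H73.KT

open Pool.Agent.H49.BP Pool.Agent.H73.TR

theorem tb_lt' (a : ℕ → ℕ) (b : ℕ) : tb a b < tb a (b + 1) := tb_mono (Nat.lt_succ_self b)

theorem int_md_block (a : ℕ → ℕ) (b : ℕ) : ∫ y in (tb a b)..(tb a (b + 1)), md y = (a b : ℝ) + 1 := by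
  rw [← MM_sub (tb_one_le b) (tb_one_le (b + 1)), MM_block]

theorem int_gmd_block (a : ℕ → ℕ) (b : ℕ) {g : ℝ → ℝ} (hb : ∀ u, |g u| ≤ 1) :
    |∫ y in (tb a b)..(tb a (b + 1)), g y * md y| ≤ (a b : ℝ) + 1 := by
  have h3 : ‖∫ y in (tb a b)..(tb a (b + 1)), g y * md y‖ ≤ ∫ y in (tb a b)..(tb a (b + 1)), md y := by
    refine intervalIntegral.norm_integral_le_of_norm_le (tb_lt' a b).le
      (Eventually.of_forall fun u hu => ?_) (md_int (tb_one_le _) (tb_one_le _))
    have hu1 : 1 ≤ u := (tb_one_le b).trans hu.1.le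
    rw [norm_mul, Real.norm_eq_abs, Real.norm_of_nonneg (md_nonneg hu1)]
    exact mul_le_of_le_one_left (md_nonneg hu1) (hb u)
  rw [int_md_block, Real.norm_eq_abs] at h3
  exact h3

theorem int_g_block (a : ℕ → ℕ) (b : ℕ) {g : ℝ → ℝ} (hb : ∀ u, |g u| ≤ 1) :
    |(ln a b)⁻¹ * ∫ y in (tb a b)..(tb a (b + 1)), g y| ≤ 1 := by
  have hl : 0 < ln a b := ln_pos b
  have h2 : ‖∫ y in (tb a b)..(tb a (b + 1)), g y‖ ≤ 1 * |tb a (b + 1) - tb a b| :=
    intervalIntegral.norm_integral_le_of_norm_le_const fun y _ => by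
      rw [Real.norm_eq_abs]
      exact hb y
  have e : tb a (b + 1) - tb a b = ln a b := rfl
  rw [e, Real.norm_eq_abs, abs_of_pos hl, one_mul] at h2
  rw [abs_mul, abs_of_pos (inv_pos.2 hl), ← div_eq_inv_mul, div_le_one hl]
  exact h2

/-- The means over a block are close to the integrals against the density: `avg_bd` (in `TR/Di.lean`) gives for `b ≥ 1` the bound
`5 (ln a b) ^ 2 / tb a b ≤ 5 C / √(tb a b) ≤ 5 C / √(b + 1)`; for `b = 0` both terms are at most `a 0 + 1`; and `sum_inv_sqrt`. -/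
theorem mean_block {a : ℕ → ℕ} (ha : Slow a) : ∃ C : ℝ, 0 ≤ C ∧ ∀ g : ℝ → ℝ, Measurable g → (∀ u, |g u| ≤ 1) → ∀ J : ℕ,
    |∑ b ∈ Finset.range J, (((a b : ℝ) + 1) * ((ln a b)⁻¹ * ∫ y in (tb a b)..(tb a (b + 1)), g y) -
      ∫ y in (tb a b)..(tb a (b + 1)), g y * md y)| ≤ C * √(J : ℝ) := by
  obtain ⟨C, hC0, hC⟩ := ln_sq ha
  set K : ℝ := 5 * C + 2 * ((a 0 : ℝ) + 1) with hK
  have ha0 : (0 : ℝ) ≤ a 0 := Nat.cast_nonneg _
  have hK0 : 0 ≤ K := by positivity
  refine ⟨K * 2, by positivity, fun g hg hb J => ?_⟩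
  have key : ∀ b : ℕ, |((a b : ℝ) + 1) * ((ln a b)⁻¹ * ∫ y in (tb a b)..(tb a (b + 1)), g y) -
      ∫ y in (tb a b)..(tb a (b + 1)), g y * md y| ≤ K * (1 / √((b : ℝ) + 1)) := by
    intro b
    rcases Nat.eq_zero_or_pos b with hb0 | hb0
    · subst hb0
      have h1 := int_g_block a 0 hb
      have h2 := int_gmd_block a 0 hb
      have h3 : |((a 0 : ℝ) + 1) * ((ln a 0)⁻¹ * ∫ y in (tb a 0)..(tb a (0 + 1)), g y)| ≤ (a 0 : ℝ) + 1 := by
        rw [abs_mul, abs_of_nonneg (by positivity : (0 : ℝ) ≤ (a 0 : ℝ) + 1)]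
        exact mul_le_of_le_one_right (by positivity) h1
      have h4 := abs_sub (((a 0 : ℝ) + 1) * ((ln a 0)⁻¹ * ∫ y in (tb a 0)..(tb a (0 + 1)), g y))
        (∫ y in (tb a 0)..(tb a (0 + 1)), g y * md y)
      have e : K * (1 / √(((0 : ℕ) : ℝ) + 1)) = K := by
        norm_num
      rw [e]
      linarith
    · have h2 : 2 ≤ tb a b := tb_two hb0
      have h5 := avg_bd hg hb h2 (tb_lt' a b)
      rw [MM_block] at h5
      have e : tb a (b + 1) - tb a b = ln a b := rfl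
      rw [e] at h5
      have h6 : ((a b : ℝ) + 1) * (ln a b)⁻¹ * (∫ y in (tb a b)..(tb a (b + 1)), g y) =
          ((a b : ℝ) + 1) * ((ln a b)⁻¹ * ∫ y in (tb a b)..(tb a (b + 1)), g y) := by ring
      rw [h6] at h5
      refine h5.trans ?_
      have hx0 : 0 < tb a b := by linarith
      have hsx : 0 < √(tb a b) := Real.sqrt_pos.2 hx0
      have hs : √(tb a b) * √(tb a b) = tb a b := Real.mul_self_sqrt hx0.le
      have hsj : 0 < √((b : ℝ) + 1) := Real.sqrt_pos.2 (by positivity)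
      have hjs : √((b : ℝ) + 1) ≤ √(tb a b) := Real.sqrt_le_sqrt (tb_ge b)
      have h7 : 5 * (ln a b) ^ 2 / tb a b ≤ 5 * C / √(tb a b) := by
        rw [div_le_div_iff₀ hx0 hsx]
        have h8 : (ln a b) ^ 2 * √(tb a b) ≤ C * √(tb a b) * √(tb a b) :=
          mul_le_mul_of_nonneg_right (hC b hb0) hsx.le
        rw [mul_assoc C, hs] at h8
        nlinarith
      refine h7.trans ?_
      have h9 : 5 * C / √(tb a b) ≤ 5 * C / √((b : ℝ) + 1) :=
        div_le_div_of_nonneg_left (by positivity) hsj hjs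
      refine h9.trans ?_
      rw [div_eq_mul_one_div]
      refine mul_le_mul_of_nonneg_right ?_ (by positivity)
      rw [hK]
      linarith
  refine (Finset.abs_sum_le_sum_abs _ _).trans ((Finset.sum_le_sum fun b _ => key b).trans ?_)
  rw [← Finset.mul_sum, mul_assoc]
  exact mul_le_mul_of_nonneg_left (sum_inv_sqrt J) hK0

/-- As `disc_qs` in `TR/Di.lean`, with blocks of variable masses: for `tb a J ≤ x < tb a (J + 1)` the sums over the primes up to `x`
and over the first `J` blocks differ by at most `a J + 1 ≤ C (J + 1) ^ δ ≤ C' x ^ δ` (`growth`, `tb_ge`), the integrals by at most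
`a J + 1`. (Use `NearB` with `δ`, and `mean_block`.) -/
theorem disc_blocks {a : ℕ → ℕ} {S : ℕ → Finset ℝ} {q : ℕ → ℝ} (ha : Slow a) (hS : Blocks a S) (hq : Enum a S q)
    (hN : NearB a S) : Disc q := by
  intro δ hδ
  obtain ⟨C, hC0, hC⟩ := hN δ hδ
  obtain ⟨D, hD0, hD⟩ := mean_block ha
  obtain ⟨G, hG0, hG⟩ := growth ha hδ
  refine ⟨2 * C + 2 * D + 2 * G, by positivity, fun m x hx => ?_⟩
  obtain ⟨J, hJ1, hJ2⟩ := exists_block (a := a) hx
  have hsL : 1 ≤ √(Real.log (|(m : ℝ)| + 3)) := Real.one_le_sqrt.2 (L_ge m)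
  set L := √(Real.log (|(m : ℝ)| + 3)) with hL
  have hx0 : 0 < x := by linarith
  have hxs : √x ≤ x ^ (1 / 2 + δ) := by
    rw [Real.sqrt_eq_rpow]
    exact Real.rpow_le_rpow_of_exponent_le hx (by linarith)
  have hx1 : 1 ≤ x ^ (1 / 2 + δ) := Real.one_le_rpow hx (by linarith)
  have hJ0 : (0 : ℝ) ≤ J := Nat.cast_nonneg J
  have hJx1 : (J : ℝ) + 1 ≤ x := (tb_ge J).trans hJ1
  have hJx : (J : ℝ) ≤ x := by linarith
  have haJ : (a J : ℝ) + 1 ≤ G * x ^ (1 / 2 + δ) := by
    refine (hG J).trans (mul_le_mul_of_nonneg_left ?_ hG0)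
    refine (Real.rpow_le_rpow (by positivity) hJx1 hδ.le).trans ?_
    exact Real.rpow_le_rpow_of_exponent_le hx (by linarith)
  obtain ⟨hp1, hp2⟩ := pc_block hS hq hJ1 hJ2
  have d1 : ‖AA q m x - ∑ j ∈ Finset.range (Mb a J), em m (q j)‖ ≤ G * x ^ (1 / 2 + δ) := by
    refine le_trans ?_ haJ
    unfold AA
    refine (sum_range_diff (fun j => (em_norm m _).le) _ _).trans ?_
    have h1 : ((Mb a J : ℕ) : ℝ) ≤ pc q x := by exact_mod_cast hp1
    have h2 : (pc q x : ℝ) ≤ ((Mb a J + (a J + 1) : ℕ) : ℝ) := by exact_mod_cast hp2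
    push_cast at h1 h2 ⊢
    rw [abs_le]
    constructor <;> linarith [(Nat.cast_nonneg (a J) : (0 : ℝ) ≤ a J)]
  have d4 : ‖BB m (tb a J) - BB m x‖ ≤ G * x ^ (1 / 2 + δ) := by
    refine le_trans ?_ haJ
    have hi1 := mdg_int (g := em m) (em_meas m) (fun u => (em_norm m u).le) le_rfl (tb_one_le (a := a) J)
    have hi2 := mdg_int (g := em m) (em_meas m) (fun u => (em_norm m u).le) le_rfl hx
    have h1 : BB m x - BB m (tb a J) = ∫ u in (tb a J)..x, em m u * (md u : ℂ) := by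
      unfold BB
      exact intervalIntegral.integral_interval_sub_left hi2 hi1
    rw [norm_sub_rev, h1]
    have h2 : ‖∫ u in (tb a J)..x, em m u * (md u : ℂ)‖ ≤ ∫ u in (tb a J)..x, md u := by
      refine intervalIntegral.norm_integral_le_of_norm_le hJ1 (Eventually.of_forall fun u hu => ?_)
        (md_int (tb_one_le _) hx)
      have hu1 : 1 ≤ u := (tb_one_le (a := a) J).trans hu.1.le
      rw [norm_mul, em_norm, one_mul, Complex.norm_real, Real.norm_of_nonneg (md_nonneg hu1)]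
    refine h2.trans ?_
    rw [← MM_sub (tb_one_le _) hx]
    have h3 := MM_le hx hJ2.le
    have h4 := MM_block (a := a) J
    linarith
  -- the main sums
  have key : ∀ s : Bool, |∑ b ∈ Finset.range J, (∑ y ∈ S b, ph m s y -
      ∫ y in (tb a b)..(tb a (b + 1)), ph m s y * md y)| ≤
      C * x ^ (1 / 2 + δ) * L + D * x ^ (1 / 2 + δ) := by
    intro s
    have h1 := hC m s J
    have h2 := hD (ph m s) (ph_meas m s) (ph_abs m s) J
    have h3 : ∑ b ∈ Finset.range J, (∑ y ∈ S b, ph m s y -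
        ∫ y in (tb a b)..(tb a (b + 1)), ph m s y * md y) =
        ∑ b ∈ Finset.range J, (∑ y ∈ S b, ph m s y -
          ((a b : ℝ) + 1) * ((ln a b)⁻¹ * ∫ y in (tb a b)..(tb a (b + 1)), ph m s y)) +
        ∑ b ∈ Finset.range J, (((a b : ℝ) + 1) * ((ln a b)⁻¹ * ∫ y in (tb a b)..(tb a (b + 1)), ph m s y) -
          ∫ y in (tb a b)..(tb a (b + 1)), ph m s y * md y) := by
      rw [← Finset.sum_add_distrib]
      exact Finset.sum_congr rfl fun j _ => by ring
    rw [h3]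
    refine (abs_add_le _ _).trans (add_le_add (h1.trans ?_) (h2.trans ?_))
    · have h4 : (J : ℝ) ^ (1 / 2 + δ) ≤ x ^ (1 / 2 + δ) := Real.rpow_le_rpow (Nat.cast_nonneg J) hJx (by linarith)
      gcongr
    · have h4 : √(J : ℝ) ≤ √x := Real.sqrt_le_sqrt hJx
      exact mul_le_mul_of_nonneg_left (h4.trans hxs) hD0
  have hsumI : ∑ j ∈ Finset.range J, ∫ u in (tb a j)..(tb a (j + 1)), em m u * (md u : ℂ) =
      BB m (tb a J) := by
    unfold BB
    have h1 := intervalIntegral.sum_integral_adjacent_intervals (a := fun j => tb a j) (n := J) (μ := volume)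
      (f := fun u => em m u * (md u : ℂ)) (fun k _ => mdg_int (em_meas m) (fun u => (em_norm m u).le)
        (tb_one_le _) (tb_one_le _))
    simp only [tb_zero] at h1
    rw [← h1]
  have hslot : ∀ j, ∫ u in (tb a j)..(tb a (j + 1)), em m u * (md u : ℂ) =
      ((∫ y in (tb a j)..(tb a (j + 1)), ph m true y * md y : ℝ) : ℂ) -
      ((∫ y in (tb a j)..(tb a (j + 1)), ph m false y * md y : ℝ) : ℂ) * Complex.I := by
    intro j
    rw [← intervalIntegral.integral_ofReal, ← intervalIntegral.integral_ofReal,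
      ← intervalIntegral.integral_mul_const, ← intervalIntegral.integral_sub]
    · refine intervalIntegral.integral_congr fun u _ => ?_
      rw [em_ph]
      push_cast
      ring
    · have h := bmd_int (ph_meas m true) (ph_abs m true) (tb_one_le (a := a) j) (tb_one_le (a := a) (j + 1))
      exact (⟨h.1.ofReal, h.2.ofReal⟩ : IntervalIntegrable (fun u => ((ph m true u * md u : ℝ) : ℂ)) volume _ _)
    · have h := bmd_int (ph_meas m false) (ph_abs m false) (tb_one_le (a := a) j) (tb_one_le (a := a) (j + 1))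
      have h' : IntervalIntegrable (fun u => ((ph m false u * md u : ℝ) : ℂ)) volume (tb a j) (tb a (j + 1)) :=
        ⟨h.1.ofReal, h.2.ofReal⟩
      exact IntervalIntegrable.mul_const h' _
  have d3 : ‖∑ j ∈ Finset.range (Mb a J), em m (q j) - BB m (tb a J)‖ ≤
      2 * (C * x ^ (1 / 2 + δ) * L + D * x ^ (1 / 2 + δ)) := by
    have e : ∑ j ∈ Finset.range (Mb a J), em m (q j) - BB m (tb a J) =
        ((∑ b ∈ Finset.range J, (∑ y ∈ S b, ph m true y -
          ∫ y in (tb a b)..(tb a (b + 1)), ph m true y * md y) : ℝ) : ℂ) -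
        ((∑ b ∈ Finset.range J, (∑ y ∈ S b, ph m false y -
          ∫ y in (tb a b)..(tb a (b + 1)), ph m false y * md y) : ℝ) : ℂ) * Complex.I := by
      rw [enum_sum hS hq, ← hsumI, ← Finset.sum_sub_distrib]
      push_cast
      rw [Finset.sum_mul, ← Finset.sum_sub_distrib]
      refine Finset.sum_congr rfl fun j _ => ?_
      rw [hslot, Finset.sum_congr rfl fun y _ => em_ph m y, Finset.sum_sub_distrib, ← Finset.sum_mul]
      ring
    rw [e]
    refine (norm_sub_le _ _).trans ?_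
    rw [norm_mul, Complex.norm_I, mul_one, Complex.norm_real, Complex.norm_real, Real.norm_eq_abs, Real.norm_eq_abs]
    have k1 := key true
    have k2 := key false
    linarith
  have hfin : AA q m x - BB m x = (AA q m x - ∑ j ∈ Finset.range (Mb a J), em m (q j)) +
      (∑ j ∈ Finset.range (Mb a J), em m (q j) - BB m (tb a J)) + (BB m (tb a J) - BB m x) := by ring
  rw [hfin]
  refine (norm_add_le _ _).trans ?_
  refine (add_le_add ((norm_add_le _ _).trans (add_le_add d1 d3)) d4).trans ?_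
  have e1 : x ^ (1 / 2 + δ) ≤ x ^ (1 / 2 + δ) * L := le_mul_of_one_le_right (by positivity) hsL
  have e3 : D * x ^ (1 / 2 + δ) ≤ D * (x ^ (1 / 2 + δ) * L) := mul_le_mul_of_nonneg_left e1 hD0
  have e4 : G * x ^ (1 / 2 + δ) ≤ G * (x ^ (1 / 2 + δ) * L) := mul_le_mul_of_nonneg_left e1 hG0
  calc G * x ^ (1 / 2 + δ) + 2 * (C * x ^ (1 / 2 + δ) * L + D * x ^ (1 / 2 + δ)) + G * x ^ (1 / 2 + δ)
      ≤ G * (x ^ (1 / 2 + δ) * L) + 2 * (C * (x ^ (1 / 2 + δ) * L) + D * (x ^ (1 / 2 + δ) * L)) +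
        G * (x ^ (1 / 2 + δ) * L) := by
        rw [mul_assoc C]
        linarith
    _ = _ := by ring

/-- As `primes_qs` in `TR/Co.lean`. -/
theorem primes_blocks {a : ℕ → ℕ} {S : ℕ → Finset ℝ} {q : ℕ → ℝ} (ha : Slow a) (hS : Blocks a S) (hq : Enum a S q) :
    ∃ C : ℝ, ∀ x : ℝ, 2 ≤ x → |(pc q x : ℝ) - ∫ u in (2 : ℝ)..x, (Real.log u)⁻¹| ≤ C * √x := by
  obtain ⟨G, hG0, hG⟩ := growth ha (by norm_num : (0 : ℝ) < 1 / 2)
  refine ⟨2 * G + MM 2 + 4, fun x hx => ?_⟩
  obtain ⟨J, hJ1, hJ2⟩ := exists_block (a := a) (x := x) (by linarith)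
  obtain ⟨h1, h2⟩ := pc_block hS hq hJ1 hJ2
  have h1' : ((Mb a J : ℕ) : ℝ) ≤ pc q x := by exact_mod_cast h1
  have h2' : (pc q x : ℝ) ≤ ((Mb a J + (a J + 1) : ℕ) : ℝ) := by exact_mod_cast h2
  push_cast at h2'
  have hx0 : 0 ≤ x := by linarith
  have haJ : (a J : ℝ) + 1 ≤ G * √x := by
    refine (hG J).trans (mul_le_mul_of_nonneg_left ?_ hG0)
    rw [← Real.sqrt_eq_rpow]
    exact Real.sqrt_le_sqrt ((tb_ge J).trans hJ1)
  have h4 := MM_le (tb_one_le (a := a) J) hJ1
  have h5 := MM_le (a := x) (by linarith) hJ2.le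
  have h5' := MM_block (a := a) J
  rw [MM_tb J] at h4 h5'
  have h6 := int_cmp (f := fun _ => (1 : ℝ)) measurable_const (fun u => by simp) hx
  simp only [one_mul, one_div] at h6
  have h7 : MM x = MM 2 + ∫ u in (2 : ℝ)..x, md u := by
    rw [← MM_sub (by norm_num) (by linarith)]
    ring
  have hsx : 1 ≤ √x := Real.one_le_sqrt.2 (by linarith)
  have h22 : 0 ≤ MM 2 := MM_nonneg (by norm_num)
  have h23 : MM 2 ≤ MM 2 * √x := le_mul_of_one_le_right h22 hsx
  rw [abs_le] at h6 ⊢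
  obtain ⟨h61, h62⟩ := h6
  have e : (2 * G + MM 2 + 4) * √x = 2 * (G * √x) + MM 2 * √x + 4 * √x := by ring
  rw [e]
  constructor <;> linarith

end Pool.Agent.H73.KT
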