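import Pool.Agent.H73.KT.Inv
import Pool.Agent.H73.TR.Co

/-!
# W9: the thresholds; laws with constants
-/

set_option autoImplicit false

open MeasureTheory Filter Topology Set

namespace Pool.Agent.H73.KT

open Pool.Agent.H49.BP Pool.Agent.H73.TR

/-- Finitely many eventual statements for every `a` (`pat a` is finite; `tt (k + 1) - tt k → ∞` as in `sub_len` of `TR/Co.lean`). -/
theorem thresholds {n : Finset ℕ → ℝ → ℝ} (hlim : ∀ D : Finset ℕ, 0 ∈ D → 2 ≤ D.card → Tendsto (n D) atTop (𝓝 0))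
    (hsub : ∀ D D' : Finset ℕ, 0 ∈ D → 2 ≤ D.card → 0 ∈ D' → D ≠ D' → mult D D' ≠ 0 →
      ∀ c : ℝ, 0 < c → ∀ᶠ u in atTop, n D' u ≤ c * n D u) :
    ∃ U : ℕ → ℕ, ∀ a, 2 ^ a ≤ U a ∧ (∀ k, U a ≤ k → 2 * ((a : ℝ) + 2) ^ 2 < tt (k + 1) - tt k) ∧
      ∀ u : ℝ, (U a : ℝ) ≤ u → (∀ D ∈ pat a, n D u ≤ cst a) ∧
        ∀ D ∈ pat a, ∀ D' ∈ pat a, D ≠ D' → mult D D' ≠ 0 → n D' u ≤ cst a * n D u := by
  have h : ∀ a : ℕ, ∃ U : ℕ, 2 ^ a ≤ U ∧ (∀ k, U ≤ k → 2 * ((a : ℝ) + 2) ^ 2 < tt (k + 1) - tt k) ∧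
      ∀ u : ℝ, (U : ℝ) ≤ u → (∀ D ∈ pat a, n D u ≤ cst a) ∧
        ∀ D ∈ pat a, ∀ D' ∈ pat a, D ≠ D' → mult D D' ≠ 0 → n D' u ≤ cst a * n D u := by
    intro a
    have hc : 0 < cst a := by
      unfold cst
      positivity
    have hmem : ∀ D ∈ pat a, 0 ∈ D ∧ 2 ≤ D.card := fun D hD => (Finset.mem_filter.1 hD).2
    obtain ⟨n0, hn0⟩ := sub_len (2 * ((a : ℝ) + 2) ^ 2)
    have h1 : ∀ᶠ u : ℝ in atTop, ∀ D ∈ pat a, n D u ≤ cst a := by
      rw [eventually_all_finset]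
      intro D hD
      exact (hlim D (hmem D hD).1 (hmem D hD).2).eventually_le_const hc
    have h2 : ∀ᶠ u : ℝ in atTop, ∀ D ∈ pat a, ∀ D' ∈ pat a, D ≠ D' → mult D D' ≠ 0 → n D' u ≤ cst a * n D u := by
      rw [eventually_all_finset]
      intro D hD
      rw [eventually_all_finset]
      intro D' hD'
      by_cases h3 : D ≠ D' ∧ mult D D' ≠ 0
      · filter_upwards [hsub D D' (hmem D hD).1 (hmem D hD).2 (hmem D' hD').1 h3.1 h3.2 (cst a) hc] with u hu _ _
        exact hu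
      · exact Eventually.of_forall fun u h4 h5 => absurd ⟨h4, h5⟩ h3
    obtain ⟨u1, hu1⟩ := eventually_atTop.1 (h1.and h2)
    obtain ⟨N, hN⟩ := exists_nat_ge u1
    refine ⟨max (2 ^ a) (max n0 N), le_max_left _ _, fun k hk => hn0 k ?_, fun u hu => hu1 u ?_⟩
    · exact ((le_max_left _ _).trans (le_max_right _ _)).trans hk
    · have h3 : ((N : ℕ) : ℝ) ≤ ((max (2 ^ a) (max n0 N) : ℕ) : ℝ) := by
        exact_mod_cast (le_max_right _ _).trans (le_max_right _ _)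
      exact (hN.trans h3).trans hu
  choose U hU using h
  exact ⟨U, hU⟩

/-- The laws `c D / (log u) ^ (|D| - 1)` satisfy the conditions of the theorem. -/
theorem log_laws {c : Finset ℕ → ℝ} (hc : ∀ D, 0 ≤ c D)
    (hc0 : ∀ D D' : Finset ℕ, 0 ∈ D → 2 ≤ D.card → 0 ∈ D' → mult D D' ≠ 0 → c D = 0 → c D' = 0)
    {n : Finset ℕ → ℝ → ℝ} (hn : n = fun D u => if 2 ≤ u then c D / (Real.log u) ^ (D.card - 1) else 0) :
    (∀ D, Measurable (n D)) ∧ (∀ D u, 0 ≤ n D u) ∧ (∀ D, ∃ B : ℝ, ∀ u, n D u ≤ B) ∧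
    (∀ D : Finset ℕ, 0 ∈ D → 2 ≤ D.card → Tendsto (n D) atTop (𝓝 0)) ∧
    ∀ D D' : Finset ℕ, 0 ∈ D → 2 ≤ D.card → 0 ∈ D' → D ≠ D' → mult D D' ≠ 0 →
      ∀ c' : ℝ, 0 < c' → ∀ᶠ u in atTop, n D' u ≤ c' * n D u := by
  subst hn
  have hlog2 : 0 < Real.log 2 := Real.log_pos one_lt_two
  refine ⟨fun D => ?_, fun D u => ?_, fun D => ?_, fun D _ h2 => ?_, fun D D' h0 h2 h0' hne hm c' hc' => ?_⟩
  · exact Measurable.ite (measurableSet_le measurable_const measurable_id)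
      (measurable_const.div (Real.measurable_log.pow_const _)) measurable_const
  · show 0 ≤ if 2 ≤ u then c D / (Real.log u) ^ (D.card - 1) else 0
    split_ifs with h
    · have h1 : Real.log 2 ≤ Real.log u := Real.log_le_log two_pos h
      exact div_nonneg (hc D) (pow_nonneg (hlog2.le.trans h1) _)
    · exact le_rfl
  · refine ⟨c D / (Real.log 2) ^ (D.card - 1), fun u => ?_⟩
    show (if 2 ≤ u then c D / (Real.log u) ^ (D.card - 1) else 0) ≤ _
    split_ifs with h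
    · have h1 : Real.log 2 ≤ Real.log u := Real.log_le_log two_pos h
      exact div_le_div_of_nonneg_left (hc D) (pow_pos hlog2 _) (pow_le_pow_left₀ hlog2.le h1 _)
    · exact div_nonneg (hc D) (pow_nonneg hlog2.le _)
  · have h3 : Tendsto (fun u : ℝ => c D / (Real.log u) ^ (D.card - 1)) atTop (𝓝 0) :=
      ((tendsto_pow_atTop (by omega)).comp Real.tendsto_log_atTop).const_div_atTop _
    refine h3.congr' ?_
    filter_upwards [eventually_ge_atTop (2 : ℝ)] with u hu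
    rw [if_pos hu]
  · have hcard := mult_card h0 h0' hm hne
    rcases (hc D).eq_or_lt with h | h
    · have h1 := hc0 D D' h0 h2 h0' hm h.symm
      refine Eventually.of_forall fun u => ?_
      show (if 2 ≤ u then c D' / (Real.log u) ^ (D'.card - 1) else 0) ≤
        c' * if 2 ≤ u then c D / (Real.log u) ^ (D.card - 1) else 0
      rw [h1, ← h]
      simp
    · filter_upwards [eventually_ge_atTop (2 : ℝ), Real.tendsto_log_atTop.eventually_ge_atTop (1 : ℝ),
        Real.tendsto_log_atTop.eventually_ge_atTop (c D' / (c' * c D))] with u hu h3 h4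
      show (if 2 ≤ u then c D' / (Real.log u) ^ (D'.card - 1) else 0) ≤
        c' * if 2 ≤ u then c D / (Real.log u) ^ (D.card - 1) else 0
      rw [if_pos hu, if_pos hu]
      rw [div_le_iff₀ (mul_pos hc' h)] at h4
      have h5 : 0 < Real.log u := by linarith
      have h6 : Real.log u ^ (D.card - 1 + 1) ≤ Real.log u ^ (D'.card - 1) :=
        pow_le_pow_right₀ h3 (by omega)
      rw [← mul_div_assoc, div_le_div_iff₀ (pow_pos h5 _) (pow_pos h5 _)]
      calc c D' * Real.log u ^ (D.card - 1) ≤ Real.log u * (c' * c D) * Real.log u ^ (D.card - 1) :=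
            mul_le_mul_of_nonneg_right h4 (pow_nonneg h5.le _)
        _ = c' * c D * Real.log u ^ (D.card - 1 + 1) := by ring
        _ ≤ c' * c D * Real.log u ^ (D'.card - 1) := mul_le_mul_of_nonneg_left h6 (mul_pos hc' h).le

end Pool.Agent.H73.KT
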