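import Pool.Agent.H73.KT.A1
import Pool.Agent.H73.KT.Dsc
import Pool.Agent.H73.KT.Cnt
import Pool.Agent.H73.KT.Thr

/-!
# The systems with prescribed laws of all patterns
-/

set_option autoImplicit false

open MeasureTheory Filter Topology Set

namespace Pool.Agent.H73.KT

open Pool.Agent.H49.BP Pool.Agent.H73.TR

/-- the conditions on the laws -/
structure Laws (n : Finset ℕ → ℝ → ℝ) : Prop where
  meas : ∀ D, Measurable (n D)
  nonneg : ∀ D u, 0 ≤ n D u
  bdd : ∀ D, ∃ B : ℝ, ∀ u, n D u ≤ B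
  lim : ∀ D : Finset ℕ, 0 ∈ D → 2 ≤ D.card → Tendsto (n D) atTop (𝓝 0)
  sub : ∀ D D' : Finset ℕ, 0 ∈ D → 2 ≤ D.card → 0 ∈ D' → D ≠ D' → mult D D' ≠ 0 →
      ∀ c : ℝ, 0 < c → ∀ᶠ u in atTop, n D' u ≤ c * n D u

theorem nmd_int {f : ℝ → ℝ} (hf : Measurable f) (hf0 : ∀ u, 0 ≤ f u) {B : ℝ} (hB : ∀ u, f u ≤ B) {x y : ℝ}
    (hx : 1 ≤ x) (hy : 1 ≤ y) : IntervalIntegrable (fun u => f u * md u) volume x y := by
  have h1 := (md_int hx hy).const_mul B
  refine h1.mono_fun (hf.mul md_meas).aestronglyMeasurable ?_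
  refine Eventually.of_forall fun u => ?_
  beta_reduce
  rw [norm_mul, norm_mul]
  refine mul_le_mul_of_nonneg_right ?_ (norm_nonneg _)
  rw [Real.norm_of_nonneg (hf0 u)]
  exact (hB u).trans (le_abs_self B)

theorem sum_early {r : ℕ → ℝ} {b0 : ℕ} (h : ∀ b, b0 ≤ b → r b = 0) (J : ℕ) :
    |∑ b ∈ Finset.range J, r b| ≤ ∑ b ∈ Finset.range b0, |r b| := by
  refine (Finset.abs_sum_le_sum_abs _ _).trans ?_
  have h1 : ∑ b ∈ Finset.range J, |r b| ≤ ∑ b ∈ Finset.range J ∪ Finset.range b0, |r b| :=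
    Finset.sum_le_sum_of_subset_of_nonneg Finset.subset_union_left (fun b _ _ => abs_nonneg _)
  have h2 : ∑ b ∈ Finset.range b0, |r b| = ∑ b ∈ Finset.range J ∪ Finset.range b0, |r b| := by
    refine Finset.sum_subset Finset.subset_union_right fun b _ hb => ?_
    rw [Finset.mem_range, not_lt] at hb
    rw [h b hb, abs_zero]
  rw [h2]
  exact h1

/-- no distance `d` with `a < d < s - a` between the points of a block (`s` is the spacing of the further offsets) -/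
theorem cfg_avoid {a : ℕ} {α β : ℝ} (hαβ : α < β) (hL : a ≠ 0 → 2 * ((a : ℝ) + 2) ^ 2 ≤ β - α) {D : Finset ℕ}
    (hD : D ∈ insert ∅ (pat a)) {v : ℝ} {x y : ℝ} (hx : x ∈ cfg a α β D v) (hy : y ∈ cfg a α β D v) {d : ℕ}
    (hd : a < d) (hd2 : (d : ℝ) + a < (β - α) / ((a : ℝ) + 2)) : y ≠ x + (d : ℝ) := by
  intro h
  unfold cfg at hx hy
  rw [Finset.mem_image] at hx hy
  obtain ⟨c, hc, rfl⟩ := hx
  obtain ⟨c', hc', rfl⟩ := hy
  have hc0 := (off_mem hαβ hL hD hc).1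
  have hc0' := (off_mem hαβ hL hD hc').1
  obtain ⟨hs, hLs, hs2, ht, hcard⟩ := off_facts hαβ hL hD
  have h3 : (0 : ℝ) ≤ a := Nat.cast_nonneg a
  have hd' : (a : ℝ) + 1 ≤ d := by exact_mod_cast hd
  have hup : ∀ {e : ℝ}, e ∈ off a (β - α) D → e ≤ ((a : ℝ) + 1) * ((β - α) / ((a : ℝ) + 2)) := by
    intro e he
    rw [mem_off] at he
    rcases he with ⟨t, htD, rfl⟩ | ⟨i, hi, rfl⟩
    · obtain ⟨ha, h4⟩ := ht t htD
      have h5 := hs2 ha
      nlinarith
    · have h4 : (i : ℝ) + 1 ≤ (a : ℝ) + 1 := by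
        have : i ≤ a := by omega
        have : (i : ℝ) ≤ a := by exact_mod_cast this
        linarith
      exact mul_le_mul_of_nonneg_right h4 hs.le
  have hu := hup hc
  have hu' := hup hc'
  have hr := rot_diff (α := α) (β := β) (v := v) (c := c) (c' := c')
  rw [mem_off] at hc hc'
  generalize hsd : (β - α) / ((a : ℝ) + 2) = s at *
  have hcc : c' - c = d := by
    rcases hr with h4 | h4 | h4
    · linarith
    · exfalso
      rw [hLs] at h4
      nlinarith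
    · exfalso
      rw [hLs] at h4
      nlinarith
  rcases hc with ⟨t, htD, rfl⟩ | ⟨i, hi, rfl⟩
  · have h4 := (ht t htD).2
    rcases hc' with ⟨t', ht'D, rfl⟩ | ⟨i', hi', rfl⟩
    · have h5 := (ht t' ht'D).2
      have h6 : (0 : ℝ) ≤ t := Nat.cast_nonneg t
      linarith
    · have h2 : (0 : ℝ) ≤ i' := Nat.cast_nonneg i'
      have h7 := mul_nonneg h2 hs.le
      nlinarith
  · have hi0 : (0 : ℝ) ≤ i := Nat.cast_nonneg i
    have hi1 := mul_nonneg hi0 hs.le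
    rcases hc' with ⟨t', ht'D, rfl⟩ | ⟨i', hi', rfl⟩
    · have h4 := (ht t' ht'D).2
      nlinarith
    · rcases Nat.lt_or_ge i i' with h8 | h8
      · have h10 : (i : ℝ) + 1 ≤ i' := by exact_mod_cast h8
        have h11 := mul_le_mul_of_nonneg_right h10 hs.le
        nlinarith
      · have h10 : (i' : ℝ) ≤ i := by exact_mod_cast h8
        have h11 := mul_le_mul_of_nonneg_right h10 hs.le
        nlinarith

/-- **The systems with prescribed laws.** -/
theorem realise0 {n : Finset ℕ → ℝ → ℝ} (hn : Laws n) (V : ℕ → ℕ) :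
    ∃ (a : ℕ → ℕ) (S : ℕ → Finset ℝ) (q : ℕ → ℝ), (Slow a ∧ (∀ b, a b ≠ 0 → V (a b) ≤ b) ∧ Blocks a S ∧ Enum a S q ∧
      (∀ b, ∀ x ∈ S b, ∀ y ∈ S (b + 1), ∀ k : ℕ, y ≠ x + (k : ℝ)) ∧
      ∀ b, ∀ x ∈ S b, ∀ y ∈ S b, ∀ d : ℕ, a b < d → (d : ℝ) + a b < ln a b / ((a b : ℝ) + 2) → y ≠ x + (d : ℝ)) ∧
      Disc q ∧
      (∃ C : ℝ, ∀ x : ℝ, 2 ≤ x → |(pc q x : ℝ) - ∫ u in (2 : ℝ)..x, (Real.log u)⁻¹| ≤ C * √x) ∧
      (∀ E : Finset ℕ, 0 ∈ E → 2 ≤ E.card → ∀ ε : ℝ, 0 < ε → ∃ C : ℝ, ∀ x : ℝ, 2 ≤ x →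
        |(tc q E x : ℝ) - ∫ u in (2 : ℝ)..x, n E u / Real.log u| ≤ C * x ^ (1 / 2 + ε)) ∧
      ∀ E : Finset ℕ, 0 ∈ E → 2 ≤ E.card → ∃ K : ℕ, ∀ k, K ≤ k → (∀ e ∈ E, ∃ i, q i = q k + (e : ℝ)) →
        ∃ u : ℝ, |u - q k| ≤ √(q k) ∧ n E u ≠ 0 := by
  classical
  obtain ⟨U, hU⟩ := thresholds hn.lim hn.sub
  obtain ⟨a, ha1, ha2, ha3'⟩ := activation fun k => max (U k) (V k)
  have ha3 : ∀ b, a b ≠ 0 → U (a b) ≤ b := fun b hb => (le_max_left _ _).trans (ha3' b hb)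
  have haV : ∀ b, a b ≠ 0 → V (a b) ≤ b := fun b hb => (le_max_right _ _).trans (ha3' b hb)
  have ha : Slow a := ⟨ha1, ha2, fun b hb => ((hU (a b)).1).trans (ha3 b hb)⟩
  have hab : ∀ b, tb a b < tb a (b + 1) := fun b => tb_mono (Nat.lt_succ_self b)
  have hlow : ∀ b, a b ≠ 0 → ∀ u, tb a b ≤ u → (U (a b) : ℝ) ≤ u := by
    intro b hb u hu
    have h1 : (U (a b) : ℝ) ≤ b := by exact_mod_cast ha3 b hb
    have h2 := tb_ge (a := a) b
    linarith
  have hL : ∀ b, a b ≠ 0 → 2 * ((a b : ℝ) + 2) ^ 2 ≤ tb a (b + 1) - tb a b := by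
    intro b hb
    have h1 := (hU (a b)).2.1 (Mb a b) ((ha3 b hb).trans (le_Mb b))
    have h2 : tt (Mb a b + 1) ≤ tb a (b + 1) := by
      unfold tb
      exact tt_mono.monotone (by rw [Mb_succ]; omega)
    unfold tb at h2 ⊢
    linarith
  have hint : ∀ (D : Finset ℕ) (x y : ℝ), 1 ≤ x → 1 ≤ y → IntervalIntegrable (fun u => n D u * md u) volume x y := by
    intro D x y hx hy
    obtain ⟨B, hB⟩ := hn.bdd D
    exact nmd_int (hn.meas D) (hn.nonneg D) hB hx hy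
  -- the weights
  set W : ℕ → Finset ℕ → ℝ := fun b D => ∫ u in (tb a b)..(tb a (b + 1)), n D u * md u with hW
  have hW0 : ∀ b D, 0 ≤ W b D := by
    intro b D
    refine intervalIntegral.integral_nonneg (hab b).le fun u hu => ?_
    exact mul_nonneg (hn.nonneg D u) (md_nonneg ((tb_one_le _).trans hu.1))
  have hW1 : ∀ b, ∀ D ∈ pat (a b), W b D ≤ cst (a b) * ((a b : ℝ) + 1) := by
    intro b D hD
    have h3 := intervalIntegral.integral_mono_on (hab b).le (hint D _ _ (tb_one_le b) (tb_one_le (b + 1)))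
      ((md_int (tb_one_le (a := a) b) (tb_one_le (b + 1))).const_mul (cst (a b))) (fun u hu => by
        exact mul_le_mul_of_nonneg_right (((hU (a b)).2.2 u (hlow b (pat_ne hD) u hu.1)).1 D hD)
          (md_nonneg ((tb_one_le _).trans hu.1)))
    rw [intervalIntegral.integral_const_mul, ← MM_sub (tb_one_le _) (tb_one_le _), MM_block] at h3
    exact h3
  have hW2 : ∀ b, ∀ D ∈ pat (a b), ∀ D' ∈ pat (a b), D ≠ D' → mult D D' ≠ 0 → W b D' ≤ cst (a b) * W b D := by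
    intro b D hD D' hD' hne hm
    have h3 := intervalIntegral.integral_mono_on (hab b).le (hint D' _ _ (tb_one_le b) (tb_one_le (b + 1)))
      ((hint D _ _ (tb_one_le b) (tb_one_le (b + 1))).const_mul (cst (a b))) (fun u hu => by
        have h4 := mul_le_mul_of_nonneg_right
          (((hU (a b)).2.2 u (hlow b (pat_ne hD) u hu.1)).2 D hD D' hD' hne hm)
          (md_nonneg ((tb_one_le (a := a) b).trans hu.1))
        rw [mul_assoc] at h4
        exact h4)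
    rw [intervalIntegral.integral_const_mul] at h3
    exact h3
  choose p hp0 hp1 hpE using fun b => block_pi (hL b) (W := W b) (fun D _ => hW0 b D) (hW1 b) (hW2 b)
  -- the choice
  let μ : ℕ → Measure (Finset ℕ × ℝ) := fun b => mix (insert ∅ (pat (a b))) (p b)
  haveI : ∀ b, IsProbabilityMeasure (μ b) := fun b => mix_prob (hp0 b) (hp1 b)
  obtain ⟨ω, hωA, hωN, hωD⟩ := derandG μ
    (fun b => {x | x.1 ∈ insert ∅ (pat (a b)) ∧ 0 < p b x.1 ∧ x.2 ∈ Ioc (0 : ℝ) 1})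
    (fun b => TT (a b) (tb a b) (tb a (b + 1))) wk (fun b => mix_supp (hp0 b) (hp1 b)) wk_nonneg wk_sum
    (fun b k => TT_meas _ _ _ k) (fun b k x => TT_abs _ _ _ k x) (fun b y => av a b y)
    (fun b y => mix_null (hp0 b) (hp1 b) (av_count a b y))
  set S : ℕ → Finset ℝ := fun b => SS a b (ω b) with hSdef
  have hins : ∀ b, (ω b).1 ∈ insert ∅ (pat (a b)) := fun b => (hωA b).1
  have hv : ∀ b, (ω b).2 ∈ Ioc (0 : ℝ) 1 := fun b => (hωA b).2.2
  have hS : Blocks a S := ⟨fun b => cfg_card (hab b) (hL b) (hins b) (hv b),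
    fun b x hx => cfg_mem (hab b) (hL b) (hins b) (hv b) hx,
    fun b x hx y hy h => cfg_sep (hab b) (hL b) (hins b) (hv b) hx hy h⟩
  obtain ⟨q, hq⟩ := enum hS
  have hX : ∀ b, ∀ x ∈ S b, ∀ y ∈ S (b + 1), ∀ k : ℕ, y ≠ x + (k : ℝ) := by
    intro b x hx y hy k h
    exact hωN b ⟨x, hx, y, hy, k, h⟩
  -- the means
  have hmean : ∀ b k, ∫ y, TT (a b) (tb a b) (tb a (b + 1)) k y ∂(μ b) =
      ∑ D ∈ insert ∅ (pat (a b)), p b D * ∫ v, TT (a b) (tb a b) (tb a (b + 1)) k (D, v) ∂un := by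
    intro b k
    exact mix_int (hp0 b) (hp1 b) (TT_meas _ _ _ k) (TT_abs _ _ _ k)
  have hap : ∀ b, (0 : ℝ) < (a b : ℝ) + 1 := fun b => by positivity
  have hm1 : ∀ b m s, ((a b : ℝ) + 1) * ∫ y, TT (a b) (tb a b) (tb a (b + 1)) (Sum.inl (m, s)) y ∂(μ b) =
      ((a b : ℝ) + 1) * ((ln a b)⁻¹ * ∫ y in (tb a b)..(tb a (b + 1)), ph m s y) := by
    intro b m s
    have h1 : ∀ D ∈ insert ∅ (pat (a b)), ∫ v, TT (a b) (tb a b) (tb a (b + 1)) (Sum.inl (m, s)) (D, v) ∂un =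
        (ln a b)⁻¹ * ∫ y in (tb a b)..(tb a (b + 1)), ph m s y := by
      intro D hD
      have h2 : (fun v => TT (a b) (tb a b) (tb a (b + 1)) (Sum.inl (m, s)) (D, v)) =
          fun v => gs (a b) (tb a b) (tb a (b + 1)) (ph m s) D v / ((a b : ℝ) + 1) := by
        funext v
        unfold TT
        rw [if_pos hD]
      have h3 : (fun v => TT (a b) (tb a b) (tb a (b + 1)) (Sum.inl (m, s)) (D, v)) =
          fun v => gs (a b) (tb a b) (tb a (b + 1)) (ph m s) D v / ((a b : ℝ) + 1) := h2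
      rw [h3, integral_div, gs_mean (hab b) (ph_meas m s) (ph_abs m s) (off_card (hab b) (hL b) hD)
        (fun c hc => off_mem (hab b) (hL b) hD hc)]
      rw [mul_div_assoc, mul_comm, div_mul_cancel₀ _ (hap b).ne']
      rfl
    rw [hmean, Finset.sum_congr rfl fun D hD => by rw [h1 D hD], ← Finset.sum_mul, hp1 b, one_mul]
  have hm2 : ∀ b, ∀ E ∈ pat (a b), ((a b : ℝ) + 1) * ∫ y, TT (a b) (tb a b) (tb a (b + 1)) (Sum.inr E) y ∂(μ b) =
      W b E := by
    intro b E hE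
    have ha0 : (0 : ℝ) ≤ a b := Nat.cast_nonneg _
    have hLb := hL b (pat_ne hE)
    have hmxE : (mx E : ℝ) ≤ a b := by exact_mod_cast mx_le hE
    have h1 : ∀ D ∈ insert ∅ (pat (a b)), ∫ v, TT (a b) (tb a b) (tb a (b + 1)) (Sum.inr E) (D, v) ∂un =
        ((mult E D : ℝ) * (1 - mx E / (tb a (b + 1) - tb a b))) / ((a b : ℝ) + 1) := by
      intro D hD
      have h2 : (fun v => TT (a b) (tb a b) (tb a (b + 1)) (Sum.inr E) (D, v)) =
          fun v => cnt (tb a b) (tb a (b + 1)) E D v / ((a b : ℝ) + 1) := by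
        funext v
        unfold TT
        rw [if_pos hD]
      have h3 : ∀ t ∈ D, (t : ℝ) ≤ tb a (b + 1) - tb a b := by
        intro t ht
        rw [Finset.mem_insert] at hD
        rcases hD with rfl | hD
        · simp at ht
        · have h4 : (t : ℝ) ≤ a b := by exact_mod_cast (mem_pat.1 hD).1 t ht
          nlinarith
      rw [h2, integral_div, cnt_mean (hab b) (by nlinarith) h3]
    rw [hmean, Finset.sum_congr rfl fun D hD => by rw [h1 D hD], Finset.mul_sum, ← hpE b E hE]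
    refine Finset.sum_congr rfl fun D _ => ?_
    have := (hap b).ne'
    field_simp
  have hD' := abel_near ha (κ := (ℤ × Bool) ⊕ Finset ℕ)
    (y := fun k b => TT (a b) (tb a b) (tb a (b + 1)) k (ω b) - ∫ y, TT (a b) (tb a b) (tb a (b + 1)) k y ∂(μ b))
    (g := fun k => √(Real.log (wk k + 3))) (fun k => Real.sqrt_nonneg _) hωD
  have hN : NearB a S := by
    intro δ hδ
    obtain ⟨C, hC0, hC⟩ := hD' δ hδ
    refine ⟨C, hC0, fun m s J => ?_⟩
    have h1 := hC (Sum.inl (m, s)) J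
    refine le_trans (le_of_eq ?_) h1
    congr 1
    refine Finset.sum_congr rfl fun b _ => ?_
    rw [mul_sub, hm1 b m s]
    congr 1
    have h2 : ∑ x ∈ S b, ph m s x = gs (a b) (tb a b) (tb a (b + 1)) (ph m s) (ω b).1 (ω b).2 :=
      cfg_sum (hab b) (hL b) (hins b) (hv b) (ph m s)
    rw [h2]
    unfold TT
    rw [if_pos (hins b)]
    show _ = ((a b : ℝ) + 1) * (gs (a b) (tb a b) (tb a (b + 1)) (ph m s) (ω b).1 (ω b).2 / ((a b : ℝ) + 1))
    rw [mul_div_cancel₀ _ (hap b).ne']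
  -- the patterns that are present in the blocks
  have hE0 : ∀ E : Finset ℕ, 0 ∈ E → 2 ≤ E.card → ∃ b0 : ℕ, ∀ b, b0 ≤ b → E ∈ pat (a b) := by
    intro E h0 h2
    obtain ⟨b0, hb0⟩ := eventually_atTop.1 (ha2.eventually (eventually_ge_atTop (mx E)))
    refine ⟨b0, fun b hb => mem_pat.2 ⟨fun t ht => (le_mx ht).trans (hb0 b hb), h0, h2⟩⟩
  refine ⟨a, S, q, ⟨ha, haV, hS, hq, hX, fun b x hx y hy d hd hd2 =>
    cfg_avoid (hab b) (hL b) (hins b) hx hy hd hd2⟩, disc_blocks ha hS hq hN, primes_blocks ha hS hq, ?_, ?_⟩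
  · intro E h0 h2 ε hε
    obtain ⟨B1, hB10, hcount⟩ := count_blocks hS hq hX (E := E) h0
    obtain ⟨b0, hb0⟩ := hE0 E h0 h2
    obtain ⟨C1, hC10, hC1⟩ := growth ha (show (0 : ℝ) < 1 / 2 by norm_num)
    obtain ⟨C2, hC20, hC2⟩ := hD' ε hε
    obtain ⟨B, hB⟩ := hn.bdd E
    have hB' : ∀ u, n E u ≤ max B 1 := fun u => (hB u).trans (le_max_left _ _)
    have hBp : (0 : ℝ) < max B 1 := lt_of_lt_of_le one_pos (le_max_right _ _)
    set X : ℕ → ℝ := fun b => (((S b).filter fun x => ∀ e ∈ E, x + (e : ℝ) ∈ S b).card : ℝ) with hXdef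
    set Y : ℕ → ℝ := fun b => ((a b : ℝ) + 1) * (TT (a b) (tb a b) (tb a (b + 1)) (Sum.inr E) (ω b) -
      ∫ y, TT (a b) (tb a b) (tb a (b + 1)) (Sum.inr E) y ∂(μ b)) with hYdef
    have hr : ∀ b, b0 ≤ b → X b - W b E - Y b = 0 := by
      intro b hb
      have hEb := hb0 b hb
      have h3 : X b = cnt (tb a b) (tb a (b + 1)) E (ω b).1 (ω b).2 :=
        cfg_cnt (hab b) (hL b) (hins b) (hv b) hEb
      have h4 : Y b = cnt (tb a b) (tb a (b + 1)) E (ω b).1 (ω b).2 - W b E := by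
        rw [hYdef]
        beta_reduce
        rw [mul_sub, hm2 b E hEb]
        congr 1
        unfold TT
        rw [if_pos (hins b)]
        show ((a b : ℝ) + 1) * (cnt (tb a b) (tb a (b + 1)) E (ω b).1 (ω b).2 / ((a b : ℝ) + 1)) = _
        rw [mul_div_cancel₀ _ (hap b).ne']
      rw [h3, h4]
      ring
    set B2 : ℝ := ∑ b ∈ Finset.range b0, |X b - W b E - Y b| with hB2
    set Lg : ℝ := √(Real.log (wk (Sum.inr E) + 3)) with hLg
    refine ⟨B1 + C1 + (C2 * Lg + B2) + max B 1 * (C1 + 1 + 4), fun x hx => ?_⟩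
    obtain ⟨J, hJ1, hJ2⟩ := exists_block (a := a) (x := x) (by linarith)
    have hx1' : 1 ≤ x := by linarith
    have hxs : √x ≤ x ^ (1 / 2 + ε) := by
      rw [Real.sqrt_eq_rpow]
      exact Real.rpow_le_rpow_of_exponent_le hx1' (by linarith)
    have hx1 : 1 ≤ x ^ (1 / 2 + ε) := Real.one_le_rpow hx1' (by linarith)
    have hJ1x : (J : ℝ) + 1 ≤ x := (tb_ge J).trans hJ1
    have hJx : (J : ℝ) ≤ x := by linarith
    have hJp : (J : ℝ) ^ (1 / 2 + ε) ≤ x ^ (1 / 2 + ε) := Real.rpow_le_rpow (Nat.cast_nonneg J) hJx (by linarith)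
    have hga : (a J : ℝ) + 1 ≤ C1 * √x := by
      refine (hC1 J).trans (mul_le_mul_of_nonneg_left ?_ hC10)
      rw [Real.sqrt_eq_rpow]
      exact Real.rpow_le_rpow (by positivity) hJ1x (by norm_num)
    have c1 := hcount x J hJ1 hJ2
    have c2 : |∑ b ∈ Finset.range J, Y b| ≤ C2 * (J : ℝ) ^ (1 / 2 + ε) * Lg := hC2 (Sum.inr E) J
    have c3 := sum_early hr J
    have c4 := law_int (a := a) (hn.meas E) (hn.nonneg E) hBp hB' hx hJ1 hJ2
    have e1 : ∑ b ∈ Finset.range J, X b - ∑ b ∈ Finset.range J, W b E =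
        ∑ b ∈ Finset.range J, (X b - W b E - Y b) + ∑ b ∈ Finset.range J, Y b := by
      rw [Finset.sum_sub_distrib, Finset.sum_sub_distrib]
      ring
    have hc2' : C2 * (J : ℝ) ^ (1 / 2 + ε) * Lg ≤ C2 * Lg * x ^ (1 / 2 + ε) := by
      have h5 : 0 ≤ Lg := Real.sqrt_nonneg _
      have h6 := mul_le_mul_of_nonneg_left hJp (mul_nonneg hC20 h5)
      linarith
    have hB20 : 0 ≤ B2 := Finset.sum_nonneg fun b _ => abs_nonneg _
    have k1 : |(tc q E x : ℝ) - ∫ u in (2 : ℝ)..x, n E u / Real.log u| ≤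
        (B1 + ((a J : ℝ) + 1)) + (B2 + C2 * (J : ℝ) ^ (1 / 2 + ε) * Lg) +
          max B 1 * (((a J : ℝ) + 1) + 1 + 4 * √x) := by
      have h5 : |∑ b ∈ Finset.range J, X b - ∑ b ∈ Finset.range J, W b E| ≤
          B2 + C2 * (J : ℝ) ^ (1 / 2 + ε) * Lg := by
        rw [e1]
        exact (abs_add_le _ _).trans (add_le_add c3 c2)
      have h6 : (tc q E x : ℝ) - ∫ u in (2 : ℝ)..x, n E u / Real.log u =
          ((tc q E x : ℝ) - ∑ b ∈ Finset.range J, X b) +
          (∑ b ∈ Finset.range J, X b - ∑ b ∈ Finset.range J, W b E) +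
          (∑ b ∈ Finset.range J, W b E - ∫ u in (2 : ℝ)..x, n E u / Real.log u) := by ring
      rw [h6]
      refine (abs_add_le _ _).trans (add_le_add ((abs_add_le _ _).trans (add_le_add c1 h5)) c4)
    refine k1.trans ?_
    have k2 : max B 1 * (((a J : ℝ) + 1) + 1 + 4 * √x) ≤ max B 1 * ((C1 + 1 + 4) * x ^ (1 / 2 + ε)) := by
      refine mul_le_mul_of_nonneg_left ?_ hBp.le
      have h7 := mul_le_mul_of_nonneg_left hxs hC10
      nlinarith
    have k3 : B1 ≤ B1 * x ^ (1 / 2 + ε) := le_mul_of_one_le_right hB10 hx1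
    have k4 : B2 ≤ B2 * x ^ (1 / 2 + ε) := le_mul_of_one_le_right hB20 hx1
    have h7 := mul_le_mul_of_nonneg_left hxs hC10
    nlinarith
  · intro E h0 h2
    obtain ⟨b0, hb0⟩ := hE0 E h0 h2
    obtain ⟨b1, hb1⟩ := local_pat hS hq hX E
    obtain ⟨C, hC0, hC⟩ := ln_sq ha
    obtain ⟨b2, hb2⟩ := exists_nat_gt (C ^ 2)
    refine ⟨Mb a (max (max b0 b1) (max b2 1)), fun k hk hpat => ?_⟩
    obtain ⟨b, hbk1, hbk2⟩ := exists_index (a := a) k
    have hb : max (max b0 b1) (max b2 1) ≤ b := by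
      have h3 : Mb a (max (max b0 b1) (max b2 1)) < Mb a (b + 1) := lt_of_le_of_lt hk hbk2
      have := Mb_mono.lt_iff_lt.1 h3
      omega
    have hbb0 : b0 ≤ b := le_trans (le_trans (le_max_left _ _) (le_max_left _ _)) hb
    have hbb1 : b1 ≤ b := le_trans (le_trans (le_max_right _ _) (le_max_left _ _)) hb
    have hbb2 : b2 ≤ b := le_trans (le_trans (le_max_left _ _) (le_max_right _ _)) hb
    have hbb3 : 1 ≤ b := le_trans (le_trans (le_max_right _ _) (le_max_right _ _)) hb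
    have hqS : q k ∈ S b := hq.2.2.2.1 b k hbk1 hbk2
    have hEb := hb0 b hbb0
    have hloc := hb1 b hbb1 k hqS hpat
    obtain ⟨t, ht, htE, _, _⟩ := (cfg_pat (hab b) (hL b) (hins b) (hv b) hEb (q k)).1 ⟨hqS, hloc⟩
    have hmult : mult E (ω b).1 ≠ 0 := by
      unfold mult
      rw [Finset.card_ne_zero]
      exact ⟨t, Finset.mem_filter.2 ⟨ht, htE⟩⟩
    have hLb := hL b (pat_ne hEb)
    have ha0 : (0 : ℝ) ≤ a b := Nat.cast_nonneg _
    have hmxE : (mx E : ℝ) ≤ a b := by exact_mod_cast mx_le hEb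
    have hLpos : 0 < tb a (b + 1) - tb a b := by linarith [hab b]
    have hone : 0 < 1 - (mx E : ℝ) / (tb a (b + 1) - tb a b) := by
      rw [sub_pos, div_lt_one hLpos]
      nlinarith
    have hWne : W b E ≠ 0 := by
      intro h
      have h3 := hpE b E hEb
      rw [h] at h3
      have h4 := (Finset.sum_eq_zero_iff_of_nonneg (fun D hD => mul_nonneg (hp0 b D hD)
        (mul_nonneg (Nat.cast_nonneg _) hone.le))).1 h3 (ω b).1 (hins b)
      have h5 : 0 < p b (ω b).1 := (hωA b).2.1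
      have h6 : (0 : ℝ) < mult E (ω b).1 := by
        exact_mod_cast Nat.pos_of_ne_zero hmult
      have h7 : 0 < p b (ω b).1 * ((mult E (ω b).1 : ℝ) * (1 - mx E / (tb a (b + 1) - tb a b))) :=
        mul_pos h5 (mul_pos h6 hone)
      linarith
    obtain ⟨u, hu1, hu2⟩ : ∃ u, u ∈ Ioc (tb a b) (tb a (b + 1)) ∧ n E u ≠ 0 := by
      by_contra hcon
      push Not at hcon
      refine hWne ?_
      rw [hW]
      beta_reduce
      rw [intervalIntegral.integral_of_le (hab b).le]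
      refine setIntegral_eq_zero_of_forall_eq_zero fun u hu => ?_
      rw [hcon u hu, zero_mul]
    refine ⟨u, ?_, hu2⟩
    obtain ⟨hq1, hq2⟩ := hS.2.1 b (q k) hqS
    have h3 : |u - q k| ≤ ln a b := by
      unfold ln
      rw [abs_le]
      constructor <;> linarith [hu1.1, hu1.2]
    have htb0 : 0 ≤ tb a b := by linarith [tb_one_le (a := a) b]
    have h4 : ln a b ≤ √(tb a b) := by
      refine Real.le_sqrt_of_sq_le ?_
      refine (hC b hbb3).trans ?_
      have h5 : C ≤ √(tb a b) := by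
        refine Real.le_sqrt_of_sq_le ?_
        have h6 := tb_ge (a := a) b
        have h7 : (b2 : ℝ) ≤ b := by exact_mod_cast hbb2
        linarith
      calc C * √(tb a b) ≤ √(tb a b) * √(tb a b) := mul_le_mul_of_nonneg_right h5 (Real.sqrt_nonneg _)
        _ = tb a b := Real.mul_self_sqrt htb0
    exact h3.trans (h4.trans (Real.sqrt_le_sqrt hq1.le))

end Pool.Agent.H73.KT
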