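import Pool.Agent.H73.KT.Defs

/-!
# Derandomisation in general probability spaces
-/

set_option autoImplicit false

open MeasureTheory Filter Topology Set
open scoped ENNReal

namespace Pool.Agent.H73.KT

open Pool.Agent.H49.BP Pool.Agent.H73.TR

theorem mean_expG {Ω : Type} [MeasurableSpace Ω] {μ : Measure Ω} [IsProbabilityMeasure μ] {Y : Ω → ℝ} (hm : Measurable Y)
    (hb : ∀ x, |Y x| ≤ 1) (h0 : ∫ x, Y x ∂μ = 0) {a : ℝ} (ha : 0 ≤ a) (ha1 : a ≤ 1) (S c J : ℝ) :
    ∫⁻ x, ENNReal.ofReal (c * Real.exp (a * (S + Y x) - a ^ 2 * (J + 1))) ∂μ ≤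
      ENNReal.ofReal (c * Real.exp (a * S - a ^ 2 * J)) := by
  by_cases hc : 0 ≤ c
  swap
  · push Not at hc
    have h1 : ∀ x, ENNReal.ofReal (c * Real.exp (a * (S + Y x) - a ^ 2 * (J + 1))) = 0 := by
      intro x
      rw [ENNReal.ofReal_eq_zero]
      have := Real.exp_pos (a * (S + Y x) - a ^ 2 * (J + 1))
      nlinarith
    simp only [h1]
    simp
  have hYint : Integrable Y μ := Integrable.of_bound hm.aestronglyMeasurable 1
    (Eventually.of_forall fun x => by rw [Real.norm_eq_abs]; exact hb x)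
  have hpt : ∀ x, c * Real.exp (a * (S + Y x) - a ^ 2 * (J + 1)) ≤
      c * Real.exp (a * S - a ^ 2 * (J + 1)) * (1 + a * Y x + a ^ 2) := by
    intro x
    have h1 : |a * Y x| ≤ 1 := by
      rw [abs_mul, abs_of_nonneg ha]
      have := hb x
      nlinarith [abs_nonneg (Y x)]
    have h2 := exp_le_quad h1
    have h3 : (a * Y x) ^ 2 ≤ a ^ 2 := by
      have h4 : (Y x) ^ 2 ≤ 1 := by
        have := (sq_le_one_iff_abs_le_one (Y x)).2 (hb x)
        exact this
      calc (a * Y x) ^ 2 = a ^ 2 * (Y x) ^ 2 := by ring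
        _ ≤ a ^ 2 * 1 := mul_le_mul_of_nonneg_left h4 (sq_nonneg a)
        _ = a ^ 2 := mul_one _
    have e : a * (S + Y x) - a ^ 2 * (J + 1) = (a * S - a ^ 2 * (J + 1)) + a * Y x := by ring
    rw [e, Real.exp_add, ← mul_assoc]
    exact mul_le_mul_of_nonneg_left (by linarith) (mul_nonneg hc (Real.exp_pos _).le)
  have hint : Integrable (fun x => c * Real.exp (a * S - a ^ 2 * (J + 1)) * (1 + a * Y x + a ^ 2)) μ := by
    refine Integrable.const_mul ?_ _
    exact ((integrable_const _).add (hYint.const_mul a)).add (integrable_const _)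
  calc ∫⁻ x, ENNReal.ofReal (c * Real.exp (a * (S + Y x) - a ^ 2 * (J + 1))) ∂μ
      ≤ ∫⁻ x, ENNReal.ofReal (c * Real.exp (a * S - a ^ 2 * (J + 1)) * (1 + a * Y x + a ^ 2)) ∂μ :=
        lintegral_mono fun x => ENNReal.ofReal_le_ofReal (hpt x)
    _ = ENNReal.ofReal (∫ x, c * Real.exp (a * S - a ^ 2 * (J + 1)) * (1 + a * Y x + a ^ 2) ∂μ) := by
        refine (ofReal_integral_eq_lintegral_ofReal hint (Eventually.of_forall fun x => ?_)).symm
        show (0 : ℝ) ≤ _
        refine le_trans ?_ (hpt x)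
        exact mul_nonneg hc (Real.exp_pos _).le
    _ ≤ ENNReal.ofReal (c * Real.exp (a * S - a ^ 2 * J)) := by
        apply ENNReal.ofReal_le_ofReal
        rw [integral_const_mul]
        have h5 : ∫ x, (1 + a * Y x + a ^ 2) ∂μ = 1 + a ^ 2 := by
          have hI1 : Integrable (fun x => 1 + a * Y x) μ := (integrable_const _).add (hYint.const_mul a)
          rw [integral_add hI1 (integrable_const _),
            integral_add (integrable_const _) (hYint.const_mul a), integral_const_mul, h0]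
          simp
        rw [h5]
        have h6 : 1 + a ^ 2 ≤ Real.exp (a ^ 2) := by
          have := Real.add_one_le_exp (a ^ 2)
          linarith
        have h7 : a * S - a ^ 2 * J = (a * S - a ^ 2 * (J + 1)) + a ^ 2 := by ring
        rw [h7, Real.exp_add, ← mul_assoc]
        exact mul_le_mul_of_nonneg_left h6 (mul_nonneg hc (Real.exp_pos _).le)

section
variable {Ω : Type} [MeasurableSpace Ω] {P : Type} [Countable P] (μ : ℕ → Measure Ω) (A : ℕ → Set Ω)
  (Y : ℕ → P → Ω → ℝ) (a v : P → ℝ)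

theorem stepG [∀ j, IsProbabilityMeasure (μ j)] (hA : ∀ j, (μ j) (A j)ᶜ = 0)
    (hYm : ∀ j p, Measurable (Y j p)) (hYb : ∀ j p x, |Y j p x| ≤ 1)
    (hY0 : ∀ j p, ∫ x, Y j p x ∂(μ j) = 0) (ha : ∀ p, 0 ≤ a p) (ha1 : ∀ p, a p ≤ 1) (J : ℕ) (S : P → ℝ) :
    ∃ x ∈ A J, pot a v (J + 1) (fun p => S p + Y J p x) ≤ pot a v J S := by
  have hmeas : ∀ p, Measurable fun x =>
      ENNReal.ofReal (v p * Real.exp (a p * (S p + Y J p x) - (a p) ^ 2 * ((J + 1 : ℕ) : ℝ))) := by
    intro p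
    have := hYm J p
    fun_prop
  obtain ⟨x, hx, hle⟩ := exists_notMem_null_le_lintegral (μ := μ J)
    (f := fun x => pot a v (J + 1) (fun p => S p + Y J p x))
    (Measurable.tsum hmeas).aemeasurable (hA J)
  refine ⟨x, by simpa using hx, hle.trans ?_⟩
  unfold pot
  rw [lintegral_tsum fun p => (hmeas p).aemeasurable]
  refine ENNReal.tsum_le_tsum fun p => ?_
  have := mean_expG (μ := μ J) (hYm J p) (hYb J p) (hY0 J p) (ha p) (ha1 p) (S p) (v p) J
  push_cast
  exact this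

theorem stepG' [∀ j, IsProbabilityMeasure (μ j)] (hA : ∀ j, (μ j) (A j)ᶜ = 0) (N : ℕ → Ω → Set Ω)
    (hN : ∀ j y, μ j (N j y) = 0)
    (hYm : ∀ j p, Measurable (Y j p)) (hYb : ∀ j p x, |Y j p x| ≤ 1)
    (hY0 : ∀ j p, ∫ x, Y j p x ∂(μ j) = 0) (ha : ∀ p, 0 ≤ a p) (ha1 : ∀ p, a p ≤ 1) (J : ℕ) (S : P → ℝ) (y : Ω) :
    ∃ x ∈ A J \ N J y, pot a v (J + 1) (fun p => S p + Y J p x) ≤ pot a v J S := by
  refine stepG μ (fun j => A j \ N j y) Y a v (fun j => ?_) hYm hYb hY0 ha ha1 J S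
  rw [sdiff_eq, compl_inter, compl_compl]
  exact measure_union_null (hA j) (hN j y)

/-- the greedy choice that avoids null sets depending on the previous choice -/
theorem greedyG [Nonempty Ω] [∀ j, IsProbabilityMeasure (μ j)] (hA : ∀ j, (μ j) (A j)ᶜ = 0) (N : ℕ → Ω → Set Ω)
    (hN : ∀ j y, μ j (N j y) = 0)
    (hYm : ∀ j p, Measurable (Y j p)) (hYb : ∀ j p x, |Y j p x| ≤ 1)
    (hY0 : ∀ j p, ∫ x, Y j p x ∂(μ j) = 0) (ha : ∀ p, 0 ≤ a p) (ha1 : ∀ p, a p ≤ 1)
    (hv : ∀ p, 0 < v p) (hvs : Summable v) :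
    ∃ q : ℕ → Ω, (∀ j, q j ∈ A j) ∧ (∀ j, q (j + 1) ∉ N (j + 1) (q j)) ∧ ∀ (J : ℕ) (p : P),
      a p * ∑ j ∈ Finset.range J, Y j p (q j) ≤ (a p) ^ 2 * J + Real.log ((∑' p, v p) / v p) := by
  choose ch hch1 hch2 using stepG' μ A Y a v hA N hN hYm hYb hY0 ha ha1
  let st : ℕ → (P → ℝ) × Ω := fun J => Nat.rec (fun _ => 0, Classical.arbitrary Ω)
    (fun J s => (fun p => s.1 p + Y J p (ch J s.1 s.2), ch J s.1 s.2)) J
  let q : ℕ → Ω := fun J => ch J (st J).1 (st J).2
  have hS0 : (st 0).1 = fun _ => 0 := rfl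
  have hS1 : ∀ J, (st (J + 1)).1 = fun p => (st J).1 p + Y J p (q J) := fun J => rfl
  have hS2 : ∀ J, (st (J + 1)).2 = q J := fun J => rfl
  have hpot : ∀ J, pot a v J (st J).1 ≤ ENNReal.ofReal (∑' p, v p) := by
    intro J
    induction J with
    | zero =>
      rw [hS0]
      unfold pot
      simp only [mul_zero, Nat.cast_zero, sub_zero, Real.exp_zero, mul_one]
      rw [ENNReal.ofReal_tsum_of_nonneg (fun p => (hv p).le) hvs]
    | succ J ih =>
      rw [hS1]
      exact (hch2 J (st J).1 (st J).2).trans ih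
  refine ⟨q, fun j => (hch1 j _ _).1, fun j => ?_, fun J p => ?_⟩
  · have := (hch1 (j + 1) (st (j + 1)).1 (st (j + 1)).2).2
    rw [hS2 j] at this
    exact this
  have hsum : ∀ J p, (st J).1 p = ∑ j ∈ Finset.range J, Y j p (q j) := by
    intro J p
    induction J with
    | zero => simp [hS0]
    | succ J ih => rw [hS1, Finset.sum_range_succ, ← ih]
  rw [← hsum]
  have h1 : ENNReal.ofReal (v p * Real.exp (a p * (st J).1 p - (a p) ^ 2 * J)) ≤ ENNReal.ofReal (∑' p, v p) :=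
    (ENNReal.le_tsum p).trans (hpot J)
  have hW : 0 < ∑' p, v p := hvs.tsum_pos (fun p => (hv p).le) p (hv p)
  rw [ENNReal.ofReal_le_ofReal_iff hW.le] at h1
  have h2 : Real.exp (a p * (st J).1 p - (a p) ^ 2 * J) ≤ (∑' p, v p) / v p := by
    rw [le_div_iff₀ (hv p)]
    linarith
  have h3 := Real.log_le_log (Real.exp_pos _) h2
  rw [Real.log_exp] at h3
  linarith

end

section
variable {Ω : Type} [MeasurableSpace Ω] [Nonempty Ω] {κ : Type} [Countable κ] (μ : ℕ → Measure Ω) (A : ℕ → Set Ω)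
  (T : ℕ → κ → Ω → ℝ) (w : κ → ℝ)

/-- the centred tests -/
noncomputable def YtG (j : ℕ) (p : κ × Bool × ℕ) (x : Ω) : ℝ :=
  sgn p.2.1 * ((T j p.1 x - ∫ y, T j p.1 y ∂(μ j)) / 2)

/-- **Derandomisation.** -/
theorem derandG [∀ j, IsProbabilityMeasure (μ j)] (hA : ∀ j, (μ j) (A j)ᶜ = 0)
    (hw : ∀ k, 0 ≤ w k) (hws : Summable fun k => 1 / (w k + 3) ^ 2)
    (hTm : ∀ j k, Measurable (T j k)) (hTb : ∀ j k x, |T j k x| ≤ 1)
    (N : ℕ → Ω → Set Ω) (hN : ∀ j y, μ j (N j y) = 0) :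
    ∃ q : ℕ → Ω, (∀ j, q j ∈ A j) ∧ (∀ j, q (j + 1) ∉ N (j + 1) (q j)) ∧ ∀ δ : ℝ, 0 < δ →
      ∃ C : ℝ, 0 ≤ C ∧ ∀ (k : κ) (J : ℕ), |∑ j ∈ Finset.range J, (T j k (q j) - ∫ y, T j k y ∂(μ j))| ≤
        C * (J : ℝ) ^ (1 / 2 + δ) * √(Real.log (w k + 3)) := by
  have hmean : ∀ j k, |∫ y, T j k y ∂(μ j)| ≤ 1 := by
    intro j k
    have h1 := norm_integral_le_of_norm_le_const (μ := μ j) (f := T j k) (C := 1)
      (Eventually.of_forall fun x => by rw [Real.norm_eq_abs]; exact hTb j k x)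
    simpa using h1
  have hYb : ∀ j p x, |YtG μ T j p x| ≤ 1 := by
    intro j p x
    unfold YtG
    rw [abs_mul, sgn_abs, one_mul, abs_div, abs_of_pos (by norm_num : (0 : ℝ) < 2), div_le_one (by norm_num)]
    have h1 := hTb j p.1 x
    have h2 := hmean j p.1
    have h3 := abs_sub (T j p.1 x) (∫ y, T j p.1 y ∂(μ j))
    linarith
  have hYm : ∀ j p, Measurable (YtG μ T j p) := by
    intro j p
    unfold YtG
    exact (((hTm j p.1).sub measurable_const).div_const 2).const_mul _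
  have hY0 : ∀ j p, ∫ x, YtG μ T j p x ∂(μ j) = 0 := by
    intro j p
    unfold YtG
    have hi : Integrable (T j p.1) (μ j) := Integrable.of_bound (hTm _ _).aestronglyMeasurable 1
      (Eventually.of_forall fun x => by rw [Real.norm_eq_abs]; exact hTb _ _ x)
    rw [integral_const_mul, integral_div, integral_sub hi (integrable_const _)]
    simp
  have hwp : ∀ p : κ × Bool × ℕ, 0 < wgt w p := by
    intro p
    unfold wgt
    have := hw p.1
    positivity
  have hwsum : Summable (wgt w) := by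
    have h6 : Summable fun k : ℕ => (1 / 2 : ℝ) ^ k := summable_geometric_two
    have h7 : Summable fun x : Bool × ℕ => (1 : ℝ) * (1 / 2) ^ x.2 :=
      Summable.mul_of_nonneg (f := fun _ : Bool => (1 : ℝ)) (Summable.of_finite) h6 (fun _ => zero_le_one)
        (fun k => by positivity)
    have h9 : Summable fun x : κ × Bool × ℕ => (1 / (w x.1 + 3) ^ 2) * (1 * (1 / 2 : ℝ) ^ x.2.2) :=
      Summable.mul_of_nonneg hws h7 (fun _ => by positivity) (fun k => by positivity)
    refine h9.congr fun x => ?_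
    unfold wgt
    ring
  obtain ⟨q, hq1, hqN, hq2⟩ := greedyG μ A (YtG μ T) (fun p => (1 / 2) ^ p.2.2) (wgt w) hA N hN hYm hYb hY0
    (fun p => by positivity) (fun p => pow_le_one₀ (by norm_num) (by norm_num)) hwp hwsum
  refine ⟨q, hq1, hqN, fun δ hδ => ?_⟩
  rcases isEmpty_or_nonempty κ with hκ | hκ
  · exact ⟨0, le_rfl, fun k => (hκ.false k).elim⟩
  obtain ⟨k0⟩ := hκ
  set W := ∑' p, wgt w p with hW
  have hW0 : 0 < W := hwsum.tsum_pos (fun p => (hwp p).le) (k0, true, 0) (hwp _)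
  set C₀ := |Real.log W| + 2 with hC₀
  have hC₀0 : 0 ≤ C₀ := by positivity
  have hD0 : 0 ≤ 3 + C₀ + 1 / δ := by positivity
  refine ⟨2 * (3 + C₀ + 1 / δ), by positivity, fun k J => ?_⟩
  have hwk := hw k
  set L := Real.log (w k + 3) with hLdef
  have hL : 1 ≤ L := by
    rw [hLdef, Real.le_log_iff_exp_le (by positivity)]
    have := Real.exp_one_lt_d9
    linarith
  -- one test
  have hone : ∀ c : Bool, ∑ j ∈ Finset.range J, YtG μ T j (k, c, 0) (q j) ≤
      (3 + C₀ + 1 / δ) * (J : ℝ) ^ (1 / 2 + δ) * √L := by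
    intro c
    refine opt (Nat.cast_nonneg J) hL hC₀0 hδ ?_ ?_ ?_
    · rcases Nat.eq_zero_or_pos J with h | h
      · left; exact_mod_cast h
      · right; exact_mod_cast h
    · calc ∑ j ∈ Finset.range J, YtG μ T j (k, c, 0) (q j) ≤ ∑ j ∈ Finset.range J, (1 : ℝ) :=
            Finset.sum_le_sum fun j _ => (le_abs_self _).trans (hYb _ _ _)
        _ = J := by simp
    · intro r
      have h1 := hq2 J (k, c, r)
      have h2 : ∑ j ∈ Finset.range J, YtG μ T j (k, c, r) (q j) = ∑ j ∈ Finset.range J, YtG μ T j (k, c, 0) (q j) := rfl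
      rw [h2] at h1
      set S := ∑ j ∈ Finset.range J, YtG μ T j (k, c, 0) (q j) with hS
      have h3 : Real.log (W / wgt w (k, c, r)) ≤ C₀ * L + r := by
        unfold wgt
        rw [Real.log_div hW0.ne' (by positivity), Real.log_mul (by positivity) (by positivity),
          Real.log_div one_ne_zero (by positivity), Real.log_one, Real.log_pow, Real.log_pow]
        have h4 : Real.log (1 / 2) = -Real.log 2 := by rw [one_div, Real.log_inv]
        rw [h4]
        have h5 : Real.log 2 ≤ 1 := by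
          have := Real.log_two_lt_d9
          linarith
        have h6 : (r : ℝ) * Real.log 2 ≤ r := mul_le_of_le_one_right (Nat.cast_nonneg r) h5
        have h7 := le_abs_self (Real.log W)
        have h8 : |Real.log W| ≤ |Real.log W| * L := le_mul_of_one_le_right (abs_nonneg _) hL
        have h9 : C₀ * L = |Real.log W| * L + 2 * L := by rw [hC₀]; ring
        push_cast
        linarith
      have h10 : (2 : ℝ) ^ r * ((1 / 2) ^ r * S) = S := by
        rw [← mul_assoc, ← mul_pow]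
        norm_num
      have h11 : (2 : ℝ) ^ r * (((1 / 2) ^ r) ^ 2 * J) = (1 / 2) ^ r * J := by
        rw [pow_two, mul_assoc ((1 / 2 : ℝ) ^ r), ← mul_assoc, ← mul_pow]
        norm_num
      have h12 : (1 / 2 : ℝ) ^ r * S ≤ ((1 / 2) ^ r) ^ 2 * J + (C₀ * L + r) := h1.trans (by linarith)
      calc S = (2 : ℝ) ^ r * ((1 / 2) ^ r * S) := h10.symm
        _ ≤ (2 : ℝ) ^ r * (((1 / 2) ^ r) ^ 2 * J + (C₀ * L + r)) :=
            mul_le_mul_of_nonneg_left h12 (by positivity)
        _ = (1 / 2) ^ r * J + 2 ^ r * (C₀ * L + r) := by rw [mul_add, h11]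
  have h1 := hone true
  have h2 := hone false
  have e1 : ∑ j ∈ Finset.range J, YtG μ T j (k, true, 0) (q j) =
      (∑ j ∈ Finset.range J, (T j k (q j) - ∫ y, T j k y ∂(μ j))) / 2 := by
    rw [Finset.sum_div]
    refine Finset.sum_congr rfl fun j _ => ?_
    simp [YtG, sgn]
  have e2 : ∑ j ∈ Finset.range J, YtG μ T j (k, false, 0) (q j) =
      -((∑ j ∈ Finset.range J, (T j k (q j) - ∫ y, T j k y ∂(μ j))) / 2) := by
    rw [Finset.sum_div, ← Finset.sum_neg_distrib]
    refine Finset.sum_congr rfl fun j _ => ?_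
    simp [YtG, sgn]
  rw [e1] at h1
  rw [e2] at h2
  rw [abs_le]
  constructor <;> linarith

end

end Pool.Agent.H73.KT
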