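import Pool.Agent.H73.KT.Off

/-!
# W3: the points of a block
-/

set_option autoImplicit false

open MeasureTheory Filter Topology Set

namespace Pool.Agent.H73.KT

open Pool.Agent.H49.BP Pool.Agent.H73.TR

theorem pos_mem {α β v : ℝ} (hαβ : α < β) (hv : v ∈ Ioc (0 : ℝ) 1) : α < pos α β v ∧ pos α β v ≤ β := by
  unfold pos
  have h := sub_pos.2 hαβ
  have h1 := mul_pos hv.1 h
  have h2 := mul_le_of_le_one_left h.le hv.2
  constructor <;> linarith

theorem cast_mem_off {a : ℕ} {L : ℝ} {D : Finset ℕ} {t : ℕ} (ht : t ∈ D) : (t : ℝ) ∈ off a L D := by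
  unfold off
  exact Finset.mem_union_left _ (Finset.mem_image_of_mem _ ht)

section
variable {a : ℕ} {α β : ℝ} (hαβ : α < β) (hL : a ≠ 0 → 2 * ((a : ℝ) + 2) ^ 2 ≤ β - α) {D : Finset ℕ}
  (hD : D ∈ insert ∅ (pat a)) {v : ℝ} (hv : v ∈ Ioc (0 : ℝ) 1)

include hαβ hv in
theorem rot_mem {c : ℝ} (hc0 : 0 ≤ c) (hc : c < β - α) : α < rot α β c (pos α β v) ∧ rot α β c (pos α β v) ≤ β := by
  obtain ⟨h1, h2⟩ := pos_mem hαβ hv
  unfold rot
  split_ifs with h
  · exact ⟨by linarith, h⟩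
  · push Not at h
    exact ⟨by linarith, by linarith⟩

/-- `c ↦ rot α β c p` is injective on `[0, L)`: the difference of two values is `c' - c` or `c' - c ± L`. -/
theorem rot_diff {c c' : ℝ} :
    rot α β c' (pos α β v) - rot α β c (pos α β v) = c' - c ∨
    rot α β c' (pos α β v) - rot α β c (pos α β v) = c' - c + (β - α) ∨
    rot α β c' (pos α β v) - rot α β c (pos α β v) = c' - c - (β - α) := by
  unfold rot
  split_ifs
  · left; ring
  · right; left; ring
  · right; right; ring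
  · left; ring

theorem rot_inj {c c' : ℝ} (hc0 : 0 ≤ c) (hc : c < β - α) (hc0' : 0 ≤ c') (hc' : c' < β - α)
    (h : rot α β c (pos α β v) = rot α β c' (pos α β v)) : c = c' := by
  rcases rot_diff (α := α) (β := β) (v := v) (c := c) (c' := c') with h1 | h1 | h1 <;> linarith

include hαβ hL hD hv

theorem cfg_injOn : Set.InjOn (fun c => rot α β c (pos α β v)) (off a (β - α) D : Set ℝ) := by
  intro c hc c' hc' h
  obtain ⟨h1, h2⟩ := off_mem hαβ hL hD hc
  obtain ⟨h3, h4⟩ := off_mem hαβ hL hD hc'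
  exact rot_inj h1 h2 h3 h4 h

theorem cfg_card : (cfg a α β D v).card = a + 1 := by
  unfold cfg
  rw [Finset.card_image_of_injOn (cfg_injOn hαβ hL hD hv), off_card hαβ hL hD]

theorem cfg_mem {x : ℝ} (hx : x ∈ cfg a α β D v) : α < x ∧ x ≤ β := by
  unfold cfg at hx
  rw [Finset.mem_image] at hx
  obtain ⟨c, hc, rfl⟩ := hx
  obtain ⟨h1, h2⟩ := off_mem hαβ hL hD hc
  exact rot_mem hαβ hv h1 h2

theorem cfg_sep {x y : ℝ} (hx : x ∈ cfg a α β D v) (hy : y ∈ cfg a α β D v) (h : x < y) : x + 1 ≤ y := by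
  unfold cfg at hx hy
  rw [Finset.mem_image] at hx hy
  obtain ⟨c, hc, rfl⟩ := hx
  obtain ⟨c', hc', rfl⟩ := hy
  obtain ⟨h1, h2⟩ := off_mem hαβ hL hD hc
  obtain ⟨h3, h4⟩ := off_mem hαβ hL hD hc'
  beta_reduce at h ⊢
  rcases lt_trichotomy c c' with h5 | h5 | h5
  · obtain ⟨h6, h7⟩ := off_sep hαβ hL hD hc hc' h5
    rcases rot_diff (α := α) (β := β) (v := v) (c := c) (c' := c') with h8 | h8 | h8 <;> linarith
  · subst h5
    exact absurd h (lt_irrefl _)
  · obtain ⟨h6, h7⟩ := off_sep hαβ hL hD hc' hc h5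
    rcases rot_diff (α := α) (β := β) (v := v) (c := c) (c' := c') with h8 | h8 | h8 <;> linarith

/-- the sum over the points -/
theorem cfg_sum (g : ℝ → ℝ) : ∑ x ∈ cfg a α β D v, g x = gs a α β g D v := by
  unfold cfg gs
  exact Finset.sum_image (cfg_injOn hαβ hL hD hv)

/-- the differences that are natural numbers `e`, `1 ≤ e ≤ a`, come from `D` -/
theorem cfg_diff {c c' : ℝ} (hc : c ∈ off a (β - α) D) (hc' : c' ∈ off a (β - α) D) {e : ℕ} (he1 : 1 ≤ e) (he : e ≤ a)
    (h : rot α β c (pos α β v) + (e : ℝ) = rot α β c' (pos α β v)) :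
    c' - c = e ∧ (∃ t ∈ D, c = (t : ℝ)) ∧ ∃ t ∈ D, c' = (t : ℝ) := by
  refine off_diff hαβ hL hD hc hc' he1 he ?_
  rcases rot_diff (α := α) (β := β) (v := v) (c := c) (c' := c') with h8 | h8 | h8
  · left; linarith
  · right; left; linarith
  · right; right; linarith

/-- `x` and all `x + e`, `e ∈ E`, are points of the block if and only if `x` comes from an element `t` of `D` with `t + E ⊆ D`, and
the translate is not wrapped. (`→`: `x = rot c p`, `x + mx E = rot c' p` with `1 ≤ mx E ≤ a`, so `c, c' ∈ D` by `rot_diff` and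
`off_diff`; in the same way every `x + e` comes from `c + e`, so `c + e ∈ D`. `←`: if `rot t p + mx E ≤ β` then
`rot (t + e) p = rot t p + e` for `e ≤ mx E`.) -/
theorem cfg_pat {E : Finset ℕ} (hE : E ∈ pat a) (x : ℝ) :
    (x ∈ cfg a α β D v ∧ ∀ e ∈ E, x + (e : ℝ) ∈ cfg a α β D v) ↔
      ∃ t ∈ D, (∀ e ∈ E, t + e ∈ D) ∧ rot α β (t : ℝ) (pos α β v) + (mx E : ℝ) ≤ β ∧
        x = rot α β (t : ℝ) (pos α β v) := by
  -- the facts on `E`
  unfold pat at hE
  rw [Finset.mem_filter, Finset.mem_powerset] at hE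
  obtain ⟨hEs, h0E, h2E⟩ := hE
  have hEa : ∀ e ∈ E, e ≤ a := fun e he => by
    have := Finset.mem_range.1 (hEs he)
    omega
  have hmxE : mx E ∈ E := by
    have hne : E.Nonempty := ⟨0, h0E⟩
    obtain ⟨e, he, he'⟩ := Finset.exists_mem_eq_sup E hne id
    unfold mx
    rw [he']
    exact he
  have hlemx : ∀ e ∈ E, e ≤ mx E := fun e he => Finset.le_sup (f := id) he
  have hmx1 : 1 ≤ mx E := by
    by_contra h
    have h1 : E ⊆ {0} := by
      intro e he
      have := hlemx e he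
      rw [Finset.mem_singleton]
      omega
    have := Finset.card_le_card h1
    rw [Finset.card_singleton] at this
    omega
  constructor
  · rintro ⟨hx, hxe⟩
    have hxm := hxe _ hmxE
    have hxmb := (cfg_mem hαβ hL hD hv hxm).2
    unfold cfg at hx hxe hxm
    rw [Finset.mem_image] at hx hxm
    obtain ⟨c, hc, rfl⟩ := hx
    obtain ⟨c', hc', hcc'⟩ := hxm
    beta_reduce at hcc' hxe hxmb
    obtain ⟨_, ⟨t, ht, rfl⟩, _⟩ := cfg_diff hαβ hL hD hv hc hc' hmx1 (hEa _ hmxE) hcc'.symm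
    refine ⟨t, ht, fun e he => ?_, hxmb, rfl⟩
    rcases Nat.eq_zero_or_pos e with h | h
    · rw [h, add_zero]
      exact ht
    · have h1 := hxe e he
      rw [Finset.mem_image] at h1
      obtain ⟨c'', hc'', h2⟩ := h1
      obtain ⟨h3, _, ⟨t', ht', rfl⟩⟩ := cfg_diff hαβ hL hD hv hc hc'' h (hEa _ he) h2.symm
      have h4 : t' = t + e := by
        have : (t' : ℝ) = ((t + e : ℕ) : ℝ) := by
          push_cast
          linarith
        exact_mod_cast this
      rw [← h4]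
      exact ht'
  · rintro ⟨t, ht, htE, hmx, rfl⟩
    have h1 : ∀ e ∈ E, rot α β (t : ℝ) (pos α β v) + (e : ℝ) = rot α β ((t + e : ℕ) : ℝ) (pos α β v) := by
      intro e he
      have h2 : (e : ℝ) ≤ mx E := by exact_mod_cast hlemx e he
      have h3 : (0 : ℝ) ≤ e := Nat.cast_nonneg e
      unfold rot at hmx ⊢
      push_cast
      by_cases h4 : pos α β v + (t : ℝ) ≤ β
      · rw [if_pos h4] at hmx
        rw [if_pos h4, if_pos (by linarith)]
        ring
      · rw [if_neg h4, if_neg (by linarith)]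
        ring
    refine ⟨Finset.mem_image_of_mem _ (cast_mem_off ht), fun e he => ?_⟩
    rw [h1 e he]
    exact Finset.mem_image_of_mem (fun c => rot α β c (pos α β v)) (cast_mem_off (htE e he))

open Classical in
theorem cfg_cnt {E : Finset ℕ} (hE : E ∈ pat a) :
    (((cfg a α β D v).filter fun x => ∀ e ∈ E, x + (e : ℝ) ∈ cfg a α β D v).card : ℝ) = cnt α β E D v := by
  unfold cnt
  rw [Finset.sum_boole, Finset.filter_filter]
  congr 1
  have h1 : (cfg a α β D v).filter (fun x => ∀ e ∈ E, x + (e : ℝ) ∈ cfg a α β D v) =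
      (D.filter (fun t => (∀ e ∈ E, t + e ∈ D) ∧ rot α β (t : ℝ) (pos α β v) + (mx E : ℝ) ≤ β)).image
        fun t : ℕ => rot α β (t : ℝ) (pos α β v) := by
    ext x
    rw [Finset.mem_filter, cfg_pat hαβ hL hD hv hE x, Finset.mem_image]
    constructor
    · rintro ⟨t, ht, h2, h3, h4⟩
      exact ⟨t, Finset.mem_filter.2 ⟨ht, h2, h3⟩, h4.symm⟩
    · rintro ⟨t, ht, h4⟩
      obtain ⟨h5, h2, h3⟩ := Finset.mem_filter.1 ht
      exact ⟨t, h5, h2, h3, h4.symm⟩
  rw [h1, Finset.card_image_of_injOn]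
  intro t ht t' ht' h
  have h5 := (Finset.mem_filter.1 (Finset.mem_coe.1 ht)).1
  have h6 := (Finset.mem_filter.1 (Finset.mem_coe.1 ht')).1
  have h7 := cfg_injOn hαβ hL hD hv (Finset.mem_coe.2 (cast_mem_off h5)) (Finset.mem_coe.2 (cast_mem_off h6)) h
  exact_mod_cast h7

end

end Pool.Agent.H73.KT
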