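import Pool.Agent.H73.KT.Defs

/-!
# W8: the means of the tests
-/

set_option autoImplicit false

open MeasureTheory Filter Topology Set

namespace Pool.Agent.H73.KT

open Pool.Agent.H49.BP Pool.Agent.H73.TR

theorem pos_meas (α β : ℝ) : Measurable (pos α β) := by
  unfold pos
  fun_prop

theorem gs_meas (a : ℕ) (α β : ℝ) {g : ℝ → ℝ} (hg : Measurable g) (D : Finset ℕ) : Measurable (gs a α β g D) := by
  unfold gs
  exact Finset.measurable_sum _ fun c _ => hg.comp ((rot_meas α β c).comp (pos_meas α β))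

theorem gs_abs {a : ℕ} (α β : ℝ) {g : ℝ → ℝ} (hg : ∀ u, |g u| ≤ 1) {D : Finset ℕ} (hD : D.card ≤ a + 1) (v : ℝ) :
    |gs a α β g D v| ≤ (a : ℝ) + 1 := by
  unfold gs
  refine (Finset.abs_sum_le_sum_abs _ _).trans ((Finset.sum_le_sum fun c _ => hg _).trans ?_)
  rw [Finset.sum_const, nsmul_eq_mul, mul_one]
  have h1 : (off a (β - α) D).card ≤ a + 1 := by
    unfold off
    refine (Finset.card_union_le _ _).trans ?_
    have h2 : (D.image (fun t : ℕ => (t : ℝ))).card ≤ D.card := Finset.card_image_le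
    have h3 : ((Finset.range (a + 1 - D.card)).image fun i : ℕ => ((i : ℝ) + 1) * ((β - α) / ((a : ℝ) + 2))).card ≤
        (Finset.range (a + 1 - D.card)).card := Finset.card_image_le
    rw [Finset.card_range] at h3
    omega
  exact_mod_cast h1

/-- `rot_int` and `lin_int` in `TR/Pt.lean` (each of the `a + 1` points is uniformly distributed) -/
theorem gs_mean {a : ℕ} {α β : ℝ} (hαβ : α < β) {g : ℝ → ℝ} (hg : Measurable g) (hb : ∀ u, |g u| ≤ 1) {D : Finset ℕ}
    (hc : (off a (β - α) D).card = a + 1) (hm : ∀ c ∈ off a (β - α) D, 0 ≤ c ∧ c < β - α) :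
    ∫ v, gs a α β g D v ∂un = ((a : ℝ) + 1) * ((β - α)⁻¹ * ∫ y in α..β, g y) := by
  rw [un_int]
  unfold gs
  have hii : ∀ c ∈ off a (β - α) D, IntervalIntegrable (fun v => g (rot α β c (pos α β v))) volume 0 1 := fun c _ =>
    bint (hg.comp ((rot_meas α β c).comp (pos_meas α β))) (B := 1) (fun u => hb _) 0 1
  rw [intervalIntegral.integral_finsetSum hii]
  have h1 : ∀ c ∈ off a (β - α) D, ∫ v in (0 : ℝ)..1, g (rot α β c (pos α β v)) = (β - α)⁻¹ * ∫ y in α..β, g y := by
    intro c hcm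
    have h2 := lin_int (fun y => g (rot α β c y)) hαβ
    rw [rot_int hg hb (hm c hcm).1 (hm c hcm).2.le] at h2
    exact h2
  rw [Finset.sum_congr rfl h1, Finset.sum_const, hc, nsmul_eq_mul]
  push_cast
  ring

theorem ind_meas (β m : ℝ) : Measurable fun y : ℝ => if y + m ≤ β then (1 : ℝ) else 0 :=
  Measurable.ite (measurableSet_le (by fun_prop) measurable_const) measurable_const measurable_const

theorem cnt_meas (α β : ℝ) (E D : Finset ℕ) : Measurable (cnt α β E D) := by
  unfold cnt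
  refine Finset.measurable_sum _ fun t _ => ?_
  exact (ind_meas β (mx E)).comp ((rot_meas α β (t : ℝ)).comp (pos_meas α β))

theorem cnt_abs (α β : ℝ) (E D : Finset ℕ) (v : ℝ) : 0 ≤ cnt α β E D v ∧ cnt α β E D v ≤ D.card := by
  unfold cnt
  constructor
  · refine Finset.sum_nonneg fun t _ => ?_
    split_ifs <;> norm_num
  · refine (Finset.sum_le_sum fun t _ => (show _ ≤ (1 : ℝ) by split_ifs <;> norm_num)).trans ?_
    rw [Finset.sum_const, nsmul_eq_mul, mul_one]
    exact_mod_cast Finset.card_filter_le _ _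

/-- each of the `mult E D` indicators has the mean `1 - mx E / L` (`rot_int` for the indicator of `y + mx E ≤ β`) -/
theorem cnt_mean {α β : ℝ} (hαβ : α < β) {E D : Finset ℕ} (hE : (mx E : ℝ) ≤ β - α)
    (hm : ∀ t ∈ D, (t : ℝ) ≤ β - α) :
    ∫ v, cnt α β E D v ∂un = (mult E D : ℝ) * (1 - mx E / (β - α)) := by
  have hL : 0 < β - α := by linarith
  have hg := ind_meas β (mx E : ℝ)
  have hgb : ∀ y : ℝ, |(if y + (mx E : ℝ) ≤ β then (1 : ℝ) else 0)| ≤ 1 := by
    intro y
    split_ifs <;> norm_num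
  have hE0 : (0 : ℝ) ≤ mx E := Nat.cast_nonneg _
  have hI : ∫ y in α..β, (if y + (mx E : ℝ) ≤ β then (1 : ℝ) else 0) = β - α - mx E := by
    rw [← intervalIntegral.integral_add_adjacent_intervals (bint hg hgb α (β - mx E)) (bint hg hgb (β - mx E) β)]
    have h1 : ∫ y in α..(β - mx E), (if y + (mx E : ℝ) ≤ β then (1 : ℝ) else 0) = ∫ _ in α..(β - mx E), (1 : ℝ) := by
      rw [intervalIntegral.integral_of_le (by linarith), intervalIntegral.integral_of_le (by linarith)]
      refine setIntegral_congr_fun measurableSet_Ioc fun y hy => ?_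
      beta_reduce
      rw [if_pos (by linarith [hy.2])]
    have h2 : ∫ y in (β - mx E)..β, (if y + (mx E : ℝ) ≤ β then (1 : ℝ) else 0) = ∫ _ in (β - mx E)..β, (0 : ℝ) := by
      rw [intervalIntegral.integral_of_le (by linarith), intervalIntegral.integral_of_le (by linarith)]
      refine setIntegral_congr_fun measurableSet_Ioc fun y hy => ?_
      beta_reduce
      rw [if_neg (by linarith [hy.1])]
    rw [h1, h2, intervalIntegral.integral_const, intervalIntegral.integral_const, smul_eq_mul, smul_eq_mul]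
    ring
  rw [un_int]
  unfold cnt
  have hii : ∀ t ∈ D.filter (fun t => ∀ e ∈ E, t + e ∈ D), IntervalIntegrable
      (fun v => (if rot α β (t : ℝ) (pos α β v) + (mx E : ℝ) ≤ β then (1 : ℝ) else 0)) volume 0 1 := fun t _ =>
    bint (hg.comp ((rot_meas α β (t : ℝ)).comp (pos_meas α β))) (B := 1) (fun u => hgb _) 0 1
  rw [intervalIntegral.integral_finsetSum hii]
  have h1 : ∀ t ∈ D.filter (fun t => ∀ e ∈ E, t + e ∈ D),
      ∫ v in (0 : ℝ)..1, (if rot α β (t : ℝ) (pos α β v) + (mx E : ℝ) ≤ β then (1 : ℝ) else 0) =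
        1 - mx E / (β - α) := by
    intro t ht
    have htD := (Finset.mem_filter.1 ht).1
    have h2 := lin_int (fun y => (if rot α β (t : ℝ) y + (mx E : ℝ) ≤ β then (1 : ℝ) else 0)) hαβ
    have h3 := rot_int hg hgb (a := α) (b := β) (c := (t : ℝ)) (Nat.cast_nonneg t) (hm t htD)
    rw [hI] at h3
    rw [h3] at h2
    refine h2.trans ?_
    field_simp
  rw [Finset.sum_congr rfl h1, Finset.sum_const, nsmul_eq_mul]
  rfl

end Pool.Agent.H73.KT
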