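import Pool.Agent.H73.KT.Defs

/-!
# W7: mixtures of uniform distributions
-/

set_option autoImplicit false

open MeasureTheory Filter Topology Set
open scoped ENNReal

namespace Pool.Agent.H73.KT

open Pool.Agent.H49.BP Pool.Agent.H73.TR

/-- a random pattern in `s`, with the probabilities `p`, and a uniform parameter in `(0, 1]` (`un` in `TR/Gr.lean` is the
Lebesgue measure on `(0, 1]`) -/
noncomputable def mix (s : Finset (Finset ℕ)) (p : Finset ℕ → ℝ) : Measure (Finset ℕ × ℝ) :=
  ∑ D ∈ s, ENNReal.ofReal (p D) • Measure.map (fun v : ℝ => (D, v)) un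

theorem mix_apply (s : Finset (Finset ℕ)) (p : Finset ℕ → ℝ) (N : Set (Finset ℕ × ℝ)) :
    mix s p N = ∑ D ∈ s, ENNReal.ofReal (p D) * un ((fun v : ℝ => (D, v)) ⁻¹' N) := by
  unfold mix
  rw [Measure.finset_sum_apply]
  refine Finset.sum_congr rfl fun D _ => ?_
  rw [Measure.smul_apply, smul_eq_mul, (measurableEmbedding_prodMk_left D).map_apply]

section
variable {s : Finset (Finset ℕ)} {p : Finset ℕ → ℝ} (hp : ∀ D ∈ s, 0 ≤ p D) (hp1 : ∑ D ∈ s, p D = 1)

include hp hp1

theorem mix_prob : IsProbabilityMeasure (mix s p) := by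
  constructor
  rw [mix_apply]
  simp only [preimage_univ, measure_univ, mul_one]
  rw [← ENNReal.ofReal_sum_of_nonneg hp, hp1, ENNReal.ofReal_one]

theorem mix_int {F : Finset ℕ × ℝ → ℝ} (hF : Measurable F) {B : ℝ} (hB : ∀ x, |F x| ≤ B) :
    ∫ x, F x ∂(mix s p) = ∑ D ∈ s, p D * ∫ v, F (D, v) ∂un := by
  unfold mix
  rw [integral_finset_sum_measure]
  · refine Finset.sum_congr rfl fun D hD => ?_
    rw [integral_smul_measure, (measurableEmbedding_prodMk_left D).integral_map,
      ENNReal.toReal_ofReal (hp D hD), smul_eq_mul]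
  · intro D hD
    refine Integrable.smul_measure ?_ ENNReal.ofReal_ne_top
    haveI : IsProbabilityMeasure (Measure.map (fun v : ℝ => (D, v)) un) :=
      Measure.isProbabilityMeasure_map (measurableEmbedding_prodMk_left D).measurable.aemeasurable
    exact Integrable.of_bound hF.aestronglyMeasurable B (Eventually.of_forall fun x => by
      rw [Real.norm_eq_abs]; exact hB x)

theorem mix_supp : mix s p {x | x.1 ∈ s ∧ 0 < p x.1 ∧ x.2 ∈ Ioc (0 : ℝ) 1}ᶜ = 0 := by
  rw [mix_apply]
  refine Finset.sum_eq_zero fun D hD => ?_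
  by_cases h : 0 < p D
  · have : (fun v : ℝ => (D, v)) ⁻¹' {x | x.1 ∈ s ∧ 0 < p x.1 ∧ x.2 ∈ Ioc (0 : ℝ) 1}ᶜ =
        (Ioc (0 : ℝ) 1)ᶜ := by
      ext v
      simp only [mem_preimage, mem_compl_iff, mem_setOf_eq, hD, h, true_and]
    rw [this, un_compl, mul_zero]
  · rw [ENNReal.ofReal_of_nonpos (not_lt.1 h), zero_mul]

theorem mix_null {N : Set (Finset ℕ × ℝ)} (hN : N.Countable) : mix s p N = 0 := by
  rw [mix_apply]
  refine Finset.sum_eq_zero fun D hD => ?_
  rw [un_null (hN.preimage fun v w h => (Prod.mk.inj h).2), mul_zero]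

end

end Pool.Agent.H73.KT
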