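import Pool.Agent.H73.KT.Slo

/-!
# W2b: growth of the masses and lengths of the blocks
-/

set_option autoImplicit false

open MeasureTheory Filter Topology Set

namespace Pool.Agent.H73.KT

open Pool.Agent.H49.BP Pool.Agent.H73.TR

section
variable {a : ℕ → ℕ}

theorem slow_log (ha : Slow a) (b : ℕ) {x : ℝ} (hx1 : 1 ≤ x) (hx : (b : ℝ) ≤ x) : (a b : ℝ) * Real.log 2 ≤ Real.log x := by
  by_cases h : a b = 0
  · rw [h]
    simp only [Nat.cast_zero, zero_mul]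
    exact Real.log_nonneg hx1
  · have h1 : (2 : ℝ) ^ (a b) ≤ x := by
      have h2 : ((2 ^ (a b) : ℕ) : ℝ) ≤ b := by exact_mod_cast ha.2.2 b h
      push_cast at h2
      exact h2.trans hx
    have h3 := Real.log_le_log (by positivity) h1
    rw [Real.log_pow] at h3
    exact h3

/-- Proof: `a b ≤ Nat.log 2 b`, and `log (b + 1) = O((b + 1) ^ δ)`. -/
theorem growth (ha : Slow a) {δ : ℝ} (hδ : 0 < δ) : ∃ C : ℝ, 0 ≤ C ∧ ∀ b : ℕ, (a b : ℝ) + 1 ≤ C * ((b : ℝ) + 1) ^ δ := by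
  have hlog2 : 0 < Real.log 2 := Real.log_pos one_lt_two
  refine ⟨1 / (δ * Real.log 2) + 1, by positivity, fun b => ?_⟩
  have hb : (1 : ℝ) ≤ (b : ℝ) + 1 := by linarith [(Nat.cast_nonneg b : (0 : ℝ) ≤ b)]
  have h1 := slow_log ha b hb (by linarith)
  have h2 := Real.log_le_rpow_div (by linarith : (0 : ℝ) ≤ (b : ℝ) + 1) hδ
  have h3 : 1 ≤ ((b : ℝ) + 1) ^ δ := Real.one_le_rpow hb hδ.le
  have h4 : (a b : ℝ) ≤ ((b : ℝ) + 1) ^ δ / (δ * Real.log 2) := by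
    rw [le_div_iff₀ (by positivity)]
    rw [le_div_iff₀ hδ] at h2
    calc (a b : ℝ) * (δ * Real.log 2) = (a b : ℝ) * Real.log 2 * δ := by ring
      _ ≤ Real.log ((b : ℝ) + 1) * δ := mul_le_mul_of_nonneg_right h1 hδ.le
      _ ≤ _ := h2
  calc (a b : ℝ) + 1 ≤ ((b : ℝ) + 1) ^ δ / (δ * Real.log 2) + ((b : ℝ) + 1) ^ δ := add_le_add h4 h3
    _ = _ := by ring

theorem tt_add_le {M : ℕ} (hM : 1 ≤ M) (i : ℕ) : tt (M + i) ≤ 4 ^ i * tt M := by
  induction i with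
  | zero => simp
  | succ i ih =>
    have h1 := tt_succ_le (j := M + i) (by omega)
    calc tt (M + (i + 1)) = tt (M + i + 1) := rfl
      _ ≤ 4 * tt (M + i) := h1
      _ ≤ 4 * (4 ^ i * tt M) := by linarith
      _ = _ := by ring

theorem log_tt_add_le {M : ℕ} (hM : 1 ≤ M) (i : ℕ) : Real.log (tt (M + i)) ≤ i * Real.log 4 + Real.log (tt M) := by
  have h1 : 0 < tt M := by linarith [tt_one_le M]
  have h2 := Real.log_le_log (by linarith [tt_one_le (M + i)]) (tt_add_le hM i)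
  rw [Real.log_mul (by positivity) h1.ne', Real.log_pow] at h2
  exact h2

theorem tt_add_sub_le {M : ℕ} (hM : 1 ≤ M) (i : ℕ) :
    tt (M + i) - tt M ≤ 6 * i * (i * Real.log 4 + Real.log (tt M)) := by
  induction i with
  | zero => simp
  | succ i ih =>
    have h1 := slot_le (j := M + i) (by omega)
    have h2 := log_tt_add_le hM i
    have h3 : 0 ≤ Real.log 4 := Real.log_nonneg (by norm_num)
    have h4 : (0 : ℝ) ≤ i := Nat.cast_nonneg i
    have e : tt (M + (i + 1)) = tt (M + i + 1) := rfl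
    rw [e]
    push_cast
    nlinarith [mul_nonneg (by linarith : (0 : ℝ) ≤ (i : ℝ) + 1) h3]

/-- Proof: `tt (j + 1) ≤ 4 tt j` (`tt_succ_le`) and `2 ^ (a b) ≤ b ≤ tb a b` give
`log (tb a (b + 1)) ≤ (a b + 1) log 4 + log (tb a b) ≤ 10 log (tb a b)` or so for `b ≥ 1`; each unit slot has length at most
`6 log (tt j)` (`slot_le`), so `ln a b ≤ (a b + 1) * 6 * log (tb a (b + 1)) ≤ C log (tb a b) ^ 2`, and `log x ^ 4 = O(√x)`. -/
theorem ln_sq (ha : Slow a) : ∃ C : ℝ, 0 ≤ C ∧ ∀ b : ℕ, 1 ≤ b → (ln a b) ^ 2 ≤ C * √(tb a b) := by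
  refine ⟨94 ^ 2 * 8 ^ 4, by norm_num, fun b hb => ?_⟩
  have hM : 1 ≤ Mb a b := hb.trans (le_Mb b)
  have hx2 : 2 ≤ tb a b := tb_two hb
  have hx0 : 0 ≤ tb a b := by linarith
  set L : ℝ := Real.log (tb a b) with hL
  have hlog2 := Real.log_two_gt_d9
  have hL2 : Real.log 2 ≤ L := Real.log_le_log two_pos hx2
  have h1 : (a b : ℝ) * Real.log 2 ≤ L := slow_log ha b (by linarith) (by linarith [tb_ge (a := a) b])
  have h2 : (a b : ℝ) + 1 ≤ 3 * L := by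
    have h3 : ((a b : ℝ) + 1) * Real.log 2 ≤ 2 * L := by linarith
    have h4 : (0 : ℝ) ≤ (a b : ℝ) + 1 := by positivity
    nlinarith
  have hL0 : 0 < L := by linarith
  have hlog4 : Real.log 4 ≤ 7 / 5 := by
    have e : (4 : ℝ) = 2 ^ 2 := by norm_num
    have := Real.log_two_lt_d9
    rw [e, Real.log_pow]
    push_cast
    linarith
  have h3 : ln a b ≤ 94 * L ^ 2 := by
    have h4 := tt_add_sub_le hM (a b + 1)
    have e : ln a b = tt (Mb a b + (a b + 1)) - tt (Mb a b) := by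
      unfold ln tb
      rw [Mb_succ]
    rw [e]
    refine h4.trans ?_
    have e2 : Real.log (tt (Mb a b)) = L := rfl
    rw [e2]
    push_cast
    have h5 : (0 : ℝ) ≤ (a b : ℝ) + 1 := by positivity
    have h6 : ((a b : ℝ) + 1) * Real.log 4 ≤ 3 * L * (7 / 5) :=
      mul_le_mul h2 hlog4 (Real.log_nonneg (by norm_num)) (by linarith)
    have h7 : ((a b : ℝ) + 1) * Real.log 4 + L ≤ 3 * L * (7 / 5) + L := by linarith
    calc 6 * ((a b : ℝ) + 1) * (((a b : ℝ) + 1) * Real.log 4 + L)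
        ≤ 6 * (3 * L) * (3 * L * (7 / 5) + L) := by
          refine mul_le_mul (by linarith) h7 ?_ (by linarith)
          have : 0 ≤ ((a b : ℝ) + 1) * Real.log 4 := mul_nonneg h5 (Real.log_nonneg (by norm_num))
          linarith
      _ = 93.6 * L ^ 2 := by ring
      _ ≤ 94 * L ^ 2 := by nlinarith [sq_nonneg L]
  have h4 : 0 < ln a b := ln_pos b
  have h5 : L ≤ 8 * (tb a b) ^ (1 / 8 : ℝ) := by
    have := Real.log_le_rpow_div hx0 (by norm_num : (0 : ℝ) < 1 / 8)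
    calc L ≤ (tb a b) ^ (1 / 8 : ℝ) / (1 / 8) := this
      _ = _ := by ring
  have h6 : L ^ 4 ≤ 8 ^ 4 * √(tb a b) := by
    have h7 : ((tb a b) ^ (1 / 8 : ℝ)) ^ 4 = √(tb a b) := by
      rw [← Real.rpow_natCast, ← Real.rpow_mul hx0, Real.sqrt_eq_rpow]
      norm_num
    calc L ^ 4 ≤ (8 * (tb a b) ^ (1 / 8 : ℝ)) ^ 4 := pow_le_pow_left₀ hL0.le h5 4
      _ = 8 ^ 4 * ((tb a b) ^ (1 / 8 : ℝ)) ^ 4 := by ring
      _ = _ := by rw [h7]
  calc (ln a b) ^ 2 ≤ (94 * L ^ 2) ^ 2 := pow_le_pow_left₀ h4.le h3 2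
    _ = 94 ^ 2 * L ^ 4 := by ring
    _ ≤ 94 ^ 2 * (8 ^ 4 * √(tb a b)) := by linarith
    _ = _ := by ring

end

end Pool.Agent.H73.KT
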