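import Pool.Agent.H73.KT.Inv
import Pool.Agent.H73.KT.Slb
import Pool.Agent.H73.KT.Cfg
import Pool.Agent.H73.KT.Mix
import Pool.Agent.H73.KT.Mea
import Pool.Agent.H73.KT.Der
import Pool.Agent.H73.TR.Co

/-!
# The tests, the avoided sets and the probabilities of a block
-/

set_option autoImplicit false

open MeasureTheory Filter Topology Set

namespace Pool.Agent.H73.KT

open Pool.Agent.H49.BP Pool.Agent.H73.TR

theorem mem_pat {a : ℕ} {D : Finset ℕ} : D ∈ pat a ↔ (∀ t ∈ D, t ≤ a) ∧ 0 ∈ D ∧ 2 ≤ D.card := by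
  unfold pat
  rw [Finset.mem_filter, Finset.mem_powerset]
  refine and_congr_left fun _ => ?_
  constructor
  · intro h t ht
    have := Finset.mem_range.1 (h ht)
    omega
  · intro h t ht
    rw [Finset.mem_range]
    have := h t ht
    omega

theorem pat_ne {a : ℕ} {D : Finset ℕ} (h : D ∈ pat a) : a ≠ 0 := by
  intro ha
  obtain ⟨h1, h2, h3⟩ := mem_pat.1 h
  subst ha
  have h4 : D ⊆ {0} := by
    intro t ht
    rw [Finset.mem_singleton]
    have := h1 t ht
    omega
  have := Finset.card_le_card h4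
  rw [Finset.card_singleton] at this
  omega

theorem mx_le {a : ℕ} {D : Finset ℕ} (h : D ∈ pat a) : mx D ≤ a := by
  unfold mx
  exact Finset.sup_le fun t ht => (mem_pat.1 h).1 t ht

theorem le_mx {D : Finset ℕ} {t : ℕ} (h : t ∈ D) : t ≤ mx D := Finset.le_sup (f := id) h

theorem ins_card {a : ℕ} {D : Finset ℕ} (h : D ∈ insert ∅ (pat a)) : D.card ≤ a + 1 := by
  rw [Finset.mem_insert] at h
  rcases h with rfl | h
  · simp
  · have h1 : D ⊆ Finset.range (a + 1) := by
      intro t ht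
      rw [Finset.mem_range]
      have := (mem_pat.1 h).1 t ht
      omega
    have := Finset.card_le_card h1
    rwa [Finset.card_range] at this

theorem empty_notMem (a : ℕ) : (∅ : Finset ℕ) ∉ pat a := by
  intro h
  simpa using (mem_pat.1 h).2.1

theorem mult_empty {E : Finset ℕ} : mult E ∅ = 0 := by
  unfold mult
  simp

/-! ### The probabilities of the patterns of a block -/

theorem block_pi {a : ℕ} {L : ℝ} (hL : a ≠ 0 → 2 * ((a : ℝ) + 2) ^ 2 ≤ L) {W : Finset ℕ → ℝ}
    (hW0 : ∀ D ∈ pat a, 0 ≤ W D) (hW1 : ∀ D ∈ pat a, W D ≤ cst a * ((a : ℝ) + 1))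
    (hW2 : ∀ D ∈ pat a, ∀ D' ∈ pat a, D ≠ D' → mult D D' ≠ 0 → W D' ≤ cst a * W D) :
    ∃ p : Finset ℕ → ℝ, (∀ D ∈ insert ∅ (pat a), 0 ≤ p D) ∧ ∑ D ∈ insert ∅ (pat a), p D = 1 ∧
      ∀ E ∈ pat a, ∑ D ∈ insert ∅ (pat a), p D * ((mult E D : ℝ) * (1 - mx E / L)) = W E := by
  classical
  set V : Finset ℕ → ℝ := fun D => W D / (1 - mx D / L) with hV
  have ha0 : (0 : ℝ) ≤ a := Nat.cast_nonneg a
  have hden : ∀ D ∈ pat a, 1 / 2 ≤ 1 - (mx D : ℝ) / L ∧ 1 - (mx D : ℝ) / L ≤ 1 := by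
    intro D hD
    have h1 := hL (pat_ne hD)
    have h2 : (mx D : ℝ) ≤ a := by exact_mod_cast mx_le hD
    have h3 : 0 < L := by nlinarith
    have h4 : (mx D : ℝ) / L ≤ 1 / 2 := by
      rw [div_le_iff₀ h3]
      nlinarith
    have h5 : 0 ≤ (mx D : ℝ) / L := by positivity
    constructor <;> linarith
  have hVW : ∀ D ∈ pat a, W D ≤ V D ∧ V D ≤ 2 * W D := by
    intro D hD
    obtain ⟨h1, h2⟩ := hden D hD
    have h3 := hW0 D hD
    have h4 : 0 < 1 - (mx D : ℝ) / L := by linarith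
    constructor
    · rw [hV]
      beta_reduce
      rw [le_div_iff₀ h4]
      exact mul_le_of_le_one_right h3 h2
    · rw [hV]
      beta_reduce
      rw [div_le_iff₀ h4]
      nlinarith
  have hc0 : 0 < cst a := by
    unfold cst
    positivity
  have h2a : (0 : ℝ) < 2 ^ (a + 1) := by positivity
  obtain ⟨π, hπ0, hπz, hπV, hπE⟩ := inversion a V (fun D hD => (hW0 D hD).trans (hVW D hD).1) (by
    intro D hD D' hD' hne hm
    have h1 := (hVW D' hD').2
    have h2 := hW2 D hD D' hD' hne hm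
    have h3 := (hVW D hD).1
    have h4 : V D / (((a : ℝ) + 1) * 2 ^ (a + 1)) = 2 * (cst a * V D) := by
      unfold cst
      field_simp
    rw [h4]
    have h5 := mul_le_mul_of_nonneg_left h3 hc0.le
    linarith)
  have hsum : ∑ D ∈ pat a, π D ≤ 1 := by
    calc ∑ D ∈ pat a, π D ≤ ∑ D ∈ pat a, 1 / (2 : ℝ) ^ (a + 1) := by
          refine Finset.sum_le_sum fun D hD => ?_
          have h1 := hπV D hD
          have h2 := (hVW D hD).2
          have h3 := hW1 D hD
          have h4 : 2 * (cst a * ((a : ℝ) + 1)) = 1 / (2 : ℝ) ^ (a + 1) := by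
            unfold cst
            field_simp
          linarith
      _ = (pat a).card * (1 / (2 : ℝ) ^ (a + 1)) := by rw [Finset.sum_const, nsmul_eq_mul]
      _ ≤ 2 ^ (a + 1) * (1 / (2 : ℝ) ^ (a + 1)) := by
          refine mul_le_mul_of_nonneg_right ?_ (by positivity)
          exact_mod_cast card_pat a
      _ = 1 := by field_simp
  set p : Finset ℕ → ℝ := fun D => if D = ∅ then 1 - ∑ D ∈ pat a, π D else π D with hp
  have hpe : p ∅ = 1 - ∑ D ∈ pat a, π D := by rw [hp]; simp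
  have hpp : ∀ D ∈ pat a, p D = π D := by
    intro D hD
    have : D ≠ ∅ := by
      rintro rfl
      exact empty_notMem a hD
    rw [hp]
    beta_reduce
    rw [if_neg this]
  refine ⟨p, fun D hD => ?_, ?_, fun E hE => ?_⟩
  · rw [Finset.mem_insert] at hD
    rcases hD with rfl | hD
    · rw [hpe]
      linarith
    · rw [hpp D hD]
      exact hπ0 D
  · rw [Finset.sum_insert (empty_notMem a), hpe, Finset.sum_congr rfl hpp]
    ring
  · rw [Finset.sum_insert (empty_notMem a), mult_empty, Nat.cast_zero, zero_mul, mul_zero, zero_add]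
    have h1 : ∑ D ∈ pat a, p D * ((mult E D : ℝ) * (1 - mx E / L)) =
        (∑ D ∈ pat a, π D * (mult E D : ℝ)) * (1 - mx E / L) := by
      rw [Finset.sum_mul]
      refine Finset.sum_congr rfl fun D hD => ?_
      rw [hpp D hD]
      ring
    rw [h1, hπE E hE, hV]
    beta_reduce
    have h4 : 0 < 1 - (mx E : ℝ) / L := by linarith [(hden E hE).1]
    field_simp

/-! ### The tests -/

/-- the tests of the block -/
noncomputable def TT (a : ℕ) (α β : ℝ) (k : (ℤ × Bool) ⊕ Finset ℕ) (x : Finset ℕ × ℝ) : ℝ :=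
  if x.1 ∈ insert ∅ (pat a) then
    (match k with
      | Sum.inl (m, s) => gs a α β (ph m s) x.1 x.2
      | Sum.inr E => cnt α β E x.1 x.2) / ((a : ℝ) + 1)
  else 0

theorem TT_meas (a : ℕ) (α β : ℝ) (k : (ℤ × Bool) ⊕ Finset ℕ) : Measurable (TT a α β k) := by
  refine measurable_from_prod_countable_right fun D => ?_
  unfold TT
  by_cases hD : D ∈ insert ∅ (pat a)
  · simp only [if_pos hD]
    refine Measurable.div_const ?_ _
    rcases k with ⟨m, s⟩ | E
    · exact gs_meas a α β (ph_meas m s) D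
    · exact cnt_meas α β E D
  · simp only [if_neg hD]
    exact measurable_const

theorem TT_abs (a : ℕ) (α β : ℝ) (k : (ℤ × Bool) ⊕ Finset ℕ) (x : Finset ℕ × ℝ) : |TT a α β k x| ≤ 1 := by
  have ha0 : (0 : ℝ) ≤ a := Nat.cast_nonneg a
  unfold TT
  by_cases hD : x.1 ∈ insert ∅ (pat a)
  · rw [if_pos hD, abs_div, abs_of_pos (by linarith : (0 : ℝ) < (a : ℝ) + 1), div_le_one (by linarith)]
    have hc := ins_card hD
    rcases k with ⟨m, s⟩ | E
    · exact gs_abs α β (ph_abs m s) hc x.2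
    · obtain ⟨h1, h2⟩ := cnt_abs α β E x.1 x.2
      show |cnt α β E x.1 x.2| ≤ _
      rw [abs_of_nonneg h1]
      have : (x.1.card : ℝ) ≤ ((a + 1 : ℕ) : ℝ) := by exact_mod_cast hc
      push_cast at this
      linarith
  · rw [if_neg hD]
    simp

/-- the weights of the tests -/
noncomputable def wk (k : (ℤ × Bool) ⊕ Finset ℕ) : ℝ :=
  match k with
    | Sum.inl (m, _) => |(m : ℝ)|
    | Sum.inr E => (Encodable.encode E : ℝ)

theorem wk_nonneg (k : (ℤ × Bool) ⊕ Finset ℕ) : 0 ≤ wk k := by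
  rcases k with ⟨m, s⟩ | E
  · exact abs_nonneg (m : ℝ)
  · exact Nat.cast_nonneg (Encodable.encode E)

theorem wk_sum : Summable fun k => 1 / (wk k + 3) ^ 2 := by
  refine Summable.sum _ ?_ ?_
  · have h1 : Summable fun m : ℤ => 1 / (|(m : ℝ)| + 3) ^ 2 := by
      have h2 := (Real.summable_one_div_int_add_rpow (1 / 2) 2).2 (by norm_num)
      refine Summable.of_nonneg_of_le (fun m => by positivity) (fun m => ?_) h2
      have h3 : (0 : ℝ) < |(m : ℝ) + 1 / 2| := by
        rw [abs_pos]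
        intro h
        have h4 : (2 * m + 1 : ℤ) = 0 := by
          have : (2 * (m : ℝ) + 1) = 0 := by linarith
          exact_mod_cast this
        omega
      have h5 : |(m : ℝ) + 1 / 2| ≤ |(m : ℝ)| + 3 := by
        have := abs_add_le (m : ℝ) (1 / 2)
        rw [abs_of_nonneg (by norm_num : (0 : ℝ) ≤ 1 / 2)] at this
        linarith
      rw [show ((2 : ℝ)) = ((2 : ℕ) : ℝ) by norm_num, Real.rpow_natCast]
      push_cast
      exact one_div_le_one_div_of_le (by positivity) (pow_le_pow_left₀ h3.le h5 2)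
    have h9 : Summable fun x : ℤ × Bool => (1 / (|(x.1 : ℝ)| + 3) ^ 2) * (1 : ℝ) :=
      Summable.mul_of_nonneg (g := fun _ : Bool => (1 : ℝ)) h1 (Summable.of_finite) (fun _ => by positivity)
        (fun k => zero_le_one)
    refine h9.congr fun x => ?_
    rw [mul_one]
    rfl
  · have h1 : Summable fun i : ℕ => 1 / ((i : ℝ) + 3) ^ 2 := by
      have h2 : Summable fun i : ℕ => 1 / ((i : ℝ)) ^ 2 := Real.summable_one_div_nat_pow.2 (by norm_num)
      have h3 := (summable_nat_add_iff 3).2 h2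
      refine h3.congr fun i => ?_
      push_cast
      rfl
    exact h1.comp_injective Encodable.encode_injective

/-! ### The avoided sets -/

/-- the points of the block for the choice `x` -/
noncomputable def SS (a : ℕ → ℕ) (b : ℕ) (x : Finset ℕ × ℝ) : Finset ℝ :=
  cfg (a b) (tb a b) (tb a (b + 1)) x.1 x.2

/-- the choices that create integer distances between the points of the block and those of the previous block -/
def av (a : ℕ → ℕ) (b : ℕ) (y : Finset ℕ × ℝ) : Set (Finset ℕ × ℝ) :=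
  {x | ∃ z ∈ SS a (b - 1) y, ∃ w ∈ SS a b x, ∃ k : ℕ, w = z + (k : ℝ)}

theorem rot_count {α β : ℝ} (h : α < β) (c e : ℝ) : {v : ℝ | rot α β c (pos α β v) = e}.Countable := by
  have hL : 0 < β - α := by linarith
  have h1 : {v : ℝ | rot α β c (pos α β v) = e} ⊆ {(e - c - α) / (β - α), (e - c - α) / (β - α) + 1} := by
    intro v hv
    have hv' : rot α β c (pos α β v) = e := hv
    unfold rot pos at hv'
    rw [mem_insert_iff, mem_singleton_iff]
    split_ifs at hv'
    · left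
      rw [eq_div_iff hL.ne']
      linarith
    · right
      have h2 : v * (β - α) = (e - c - α) + (β - α) := by linarith
      have h3 : v = ((e - c - α) + (β - α)) / (β - α) := by
        rw [eq_div_iff hL.ne', h2]
      rw [h3, add_div, div_self hL.ne']
  exact ((finite_singleton _).insert _).countable.mono h1

theorem av_count (a : ℕ → ℕ) (b : ℕ) (y : Finset ℕ × ℝ) : (av a b y).Countable := by
  have hab : tb a b < tb a (b + 1) := tb_mono (Nat.lt_succ_self b)
  have h1 : av a b y ⊆ ⋃ D : Finset ℕ, ⋃ c ∈ off (a b) (tb a (b + 1) - tb a b) D, ⋃ z ∈ SS a (b - 1) y, ⋃ k : ℕ,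
      (fun v : ℝ => (D, v)) '' {v : ℝ | rot (tb a b) (tb a (b + 1)) c (pos (tb a b) (tb a (b + 1)) v) = z + (k : ℝ)} := by
    rintro ⟨D, v⟩ ⟨z, hz, w, hw, k, hk⟩
    unfold SS cfg at hw
    rw [Finset.mem_image] at hw
    obtain ⟨c, hc, rfl⟩ := hw
    simp only [mem_iUnion]
    exact ⟨D, c, hc, z, hz, k, v, hk, rfl⟩
  refine Countable.mono h1 ?_
  refine countable_iUnion fun D => ?_
  refine (Finset.countable_toSet _).biUnion fun c _ => ?_
  refine (Finset.countable_toSet _).biUnion fun z _ => ?_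
  exact countable_iUnion fun k => (rot_count hab c _).image _

/-! ### Partial summation for the discrepancies -/

theorem abel_near {a : ℕ → ℕ} (ha : Slow a) {κ : Type} {y : κ → ℕ → ℝ} {g : κ → ℝ} (hg : ∀ k, 0 ≤ g k)
    (h : ∀ δ : ℝ, 0 < δ → ∃ C : ℝ, 0 ≤ C ∧ ∀ (k : κ) (J : ℕ), |∑ b ∈ Finset.range J, y k b| ≤
      C * (J : ℝ) ^ (1 / 2 + δ) * g k) :
    ∀ δ : ℝ, 0 < δ → ∃ C : ℝ, 0 ≤ C ∧ ∀ (k : κ) (J : ℕ), |∑ b ∈ Finset.range J, ((a b : ℝ) + 1) * y k b| ≤
      C * (J : ℝ) ^ (1 / 2 + δ) * g k := by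
  intro δ hδ
  obtain ⟨C1, hC10, hC1⟩ := growth ha (half_pos hδ)
  obtain ⟨C2, hC20, hC2⟩ := h (δ / 2) (half_pos hδ)
  refine ⟨2 * C1 * 2 ^ (δ / 2) * C2, by positivity, fun k J => ?_⟩
  rcases Nat.eq_zero_or_pos J with hJ | hJ
  · subst hJ
    rw [Finset.sum_range_zero, abs_zero]
    have := hg k
    positivity
  have hJ1 : (1 : ℝ) ≤ J := by exact_mod_cast hJ
  have hm : Monotone fun b => (a b : ℝ) + 1 := by
    intro i j hij
    have : (a i : ℝ) ≤ a j := by exact_mod_cast ha.1 hij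
    simp only
    linarith
  have h1 := abel hm (fun b => by positivity) (y := y k) (K := C2 * (J : ℝ) ^ (1 / 2 + δ / 2) * g k) (J := J) (by
    intro i hi
    refine (hC2 k i).trans ?_
    have h2 : (i : ℝ) ^ (1 / 2 + δ / 2) ≤ (J : ℝ) ^ (1 / 2 + δ / 2) :=
      Real.rpow_le_rpow (Nat.cast_nonneg i) (by exact_mod_cast hi) (by linarith)
    have := hg k
    gcongr)
  refine h1.trans ?_
  have h3 := hC1 J
  have h4 : ((J : ℝ) + 1) ^ (δ / 2) ≤ 2 ^ (δ / 2) * (J : ℝ) ^ (δ / 2) := by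
    rw [← Real.mul_rpow (by norm_num) (by linarith)]
    exact Real.rpow_le_rpow (by linarith) (by linarith) (by linarith)
  have h5 : (J : ℝ) ^ (δ / 2) * (J : ℝ) ^ (1 / 2 + δ / 2) = (J : ℝ) ^ (1 / 2 + δ) := by
    rw [← Real.rpow_add (by linarith)]
    congr 1
    ring
  have h6 : (a J : ℝ) + 1 ≤ C1 * (2 ^ (δ / 2) * (J : ℝ) ^ (δ / 2)) :=
    h3.trans (mul_le_mul_of_nonneg_left h4 hC10)
  have h7 : 0 ≤ C2 * (J : ℝ) ^ (1 / 2 + δ / 2) * g k := by
    have := hg k
    positivity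
  calc 2 * ((a J : ℝ) + 1) * (C2 * (J : ℝ) ^ (1 / 2 + δ / 2) * g k)
      ≤ 2 * (C1 * (2 ^ (δ / 2) * (J : ℝ) ^ (δ / 2))) * (C2 * (J : ℝ) ^ (1 / 2 + δ / 2) * g k) := by
        refine mul_le_mul_of_nonneg_right (by linarith) h7
    _ = 2 * C1 * 2 ^ (δ / 2) * C2 * ((J : ℝ) ^ (δ / 2) * (J : ℝ) ^ (1 / 2 + δ / 2)) * g k := by ring
    _ = _ := by rw [h5]

/-! ### The integrals of the laws -/

theorem law_int1 {a : ℕ → ℕ} {f : ℝ → ℝ} (hf : Measurable f) (hf0 : ∀ u, 0 ≤ f u) (hf1 : ∀ u, f u ≤ 1) {x : ℝ} {J : ℕ}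
    (hx : 2 ≤ x) (h1 : tb a J ≤ x) (h2 : x < tb a (J + 1)) :
    |∑ b ∈ Finset.range J, (∫ u in (tb a b)..(tb a (b + 1)), f u * md u) - ∫ u in (2 : ℝ)..x, f u / Real.log u| ≤
      ((a J : ℝ) + 1) + 1 + 4 * √x := by
  have hfb : ∀ u, |f u| ≤ 1 := fun u => by
    rw [abs_of_nonneg (hf0 u)]
    exact hf1 u
  have hx1' : 1 ≤ x := by linarith
  have hsumI : ∑ b ∈ Finset.range J, (∫ u in (tb a b)..(tb a (b + 1)), f u * md u) =
      ∫ u in (1 : ℝ)..(tb a J), f u * md u := by
    have h1 := intervalIntegral.sum_integral_adjacent_intervals (a := fun j => tb a j) (n := J) (μ := volume)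
      (f := fun u => f u * md u) (fun k _ => bmd_int hf hfb (tb_one_le _) (tb_one_le _))
    simp only [tb_zero] at h1
    exact h1
  have a5 : |(∫ u in (1 : ℝ)..(tb a J), f u * md u) - ∫ u in (1 : ℝ)..x, f u * md u| ≤ (a J : ℝ) + 1 := by
    rw [abs_sub_comm, intervalIntegral.integral_interval_sub_left (bmd_int hf hfb le_rfl hx1')
      (bmd_int hf hfb le_rfl (tb_one_le _))]
    have h3 : 0 ≤ ∫ u in (tb a J)..x, f u * md u := by
      refine intervalIntegral.integral_nonneg h1 fun u hu => ?_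
      exact mul_nonneg (hf0 u) (md_nonneg ((tb_one_le _).trans hu.1))
    have h4 := intervalIntegral.integral_mono_on h1 (bmd_int hf hfb (tb_one_le J) hx1')
        (md_int (tb_one_le J) hx1') (fun u hu => by
          exact mul_le_of_le_one_left (md_nonneg ((tb_one_le _).trans hu.1)) (hf1 u))
    rw [← MM_sub (tb_one_le _) hx1'] at h4
    have h5 := MM_le hx1' h2.le
    have h6 := MM_block (a := a) J
    rw [abs_of_nonneg h3]
    linarith
  have a6 : |(∫ u in (1 : ℝ)..x, f u * md u) - ∫ u in (2 : ℝ)..x, f u * md u| ≤ 1 := by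
    have h3 : (∫ u in (1 : ℝ)..x, f u * md u) - ∫ u in (2 : ℝ)..x, f u * md u = ∫ u in (1 : ℝ)..2, f u * md u := by
      rw [← intervalIntegral.integral_add_adjacent_intervals (bmd_int hf hfb le_rfl (by norm_num : (1 : ℝ) ≤ 2))
        (bmd_int hf hfb (by norm_num) hx1')]
      ring
    rw [h3]
    have h4 : 0 ≤ ∫ u in (1 : ℝ)..2, f u * md u := by
      refine intervalIntegral.integral_nonneg (by norm_num) fun u hu => ?_
      exact mul_nonneg (hf0 u) (md_nonneg hu.1)
    have h5 := intervalIntegral.integral_mono_on (by norm_num : (1 : ℝ) ≤ 2) (bmd_int hf hfb le_rfl (by norm_num))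
        (md_int le_rfl (by norm_num : (1 : ℝ) ≤ 2)) (fun u hu => by
          exact mul_le_of_le_one_left (md_nonneg hu.1) (hf1 u))
    rw [← MM_sub le_rfl (by norm_num)] at h5
    have h6 := MM_sub_le le_rfl (by norm_num : (1 : ℝ) ≤ 2)
    rw [abs_of_nonneg h4]
    linarith
  have a7 := int_cmp hf hfb hx
  rw [hsumI]
  rw [abs_le] at *
  constructor <;> linarith [a5.1, a5.2, a6.1, a6.2, a7.1, a7.2]

theorem law_int {a : ℕ → ℕ} {f : ℝ → ℝ} (hf : Measurable f) (hf0 : ∀ u, 0 ≤ f u) {B : ℝ} (hB : 0 < B)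
    (hfB : ∀ u, f u ≤ B) {x : ℝ} {J : ℕ} (hx : 2 ≤ x) (h1 : tb a J ≤ x) (h2 : x < tb a (J + 1)) :
    |∑ b ∈ Finset.range J, (∫ u in (tb a b)..(tb a (b + 1)), f u * md u) - ∫ u in (2 : ℝ)..x, f u / Real.log u| ≤
      B * (((a J : ℝ) + 1) + 1 + 4 * √x) := by
  have h := law_int1 (a := a) (f := fun u => f u / B) (hf.div_const B) (fun u => div_nonneg (hf0 u) hB.le)
    (fun u => (div_le_one hB).2 (hfB u)) hx h1 h2
  have e1 : ∀ b, ∫ u in (tb a b)..(tb a (b + 1)), f u * md u = B * ∫ u in (tb a b)..(tb a (b + 1)), f u / B * md u := by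
    intro b
    rw [← intervalIntegral.integral_const_mul]
    refine intervalIntegral.integral_congr fun u _ => ?_
    beta_reduce
    field_simp
  have e2 : ∫ u in (2 : ℝ)..x, f u / Real.log u = B * ∫ u in (2 : ℝ)..x, f u / B / Real.log u := by
    rw [← intervalIntegral.integral_const_mul]
    refine intervalIntegral.integral_congr fun u _ => ?_
    beta_reduce
    field_simp
  simp only [e1]
  rw [e2, ← Finset.mul_sum, ← mul_sub, abs_mul, abs_of_pos hB]
  exact mul_le_mul_of_nonneg_left h hB.le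

end Pool.Agent.H73.KT
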