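import Pool.Agent.H73.TR.Di

/-!
# Systems with prescribed laws of all patterns: definitions

Blocks: the block `b` is the interval `(tb a b, tb a (b + 1)]`; its mass (integral of the density `md`) is `a b + 1`, and it gets
`a b + 1` points. A point set of a block is chosen at random as follows: a pattern `D` (a finite set of natural numbers with
`0 ∈ D`, `2 ≤ |D|`, elements at most `a b`; or `D = ∅`) with a probability `p D`, and a uniform parameter `v ∈ (0, 1]`; the points are
the rotations (modulo the length `L` of the block) of the position `p = α + v (β - α)` by the offsets `D ∪ {(i + 1) L / (a + 2)}`.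
-/

set_option autoImplicit false

open MeasureTheory Filter Topology Set

namespace Pool.Agent.H73.KT

open Pool.Agent.H49.BP Pool.Agent.H73.TR

/-- the patterns with elements at most `a`: they contain `0` and have at least two elements -/
def pat (a : ℕ) : Finset (Finset ℕ) := (Finset.range (a + 1)).powerset.filter fun D => 0 ∈ D ∧ 2 ≤ D.card

/-- the number of the translates of `E` in `D` -/
def mult (E D : Finset ℕ) : ℕ := (D.filter fun t => ∀ e ∈ E, t + e ∈ D).card

/-- the largest element -/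
def mx (E : Finset ℕ) : ℕ := E.sup id

/-- the index of the first point of the block `b` -/
def Mb (a : ℕ → ℕ) (b : ℕ) : ℕ := ∑ i ∈ Finset.range b, (a i + 1)

/-- the ends of the blocks -/
noncomputable def tb (a : ℕ → ℕ) (b : ℕ) : ℝ := tt (Mb a b)

/-- the length of the block -/
noncomputable def ln (a : ℕ → ℕ) (b : ℕ) : ℝ := tb a (b + 1) - tb a b

/-- the offsets of the points of a block of mass `a + 1` and length `L`: the pattern `D` and `a + 1 - |D|` further ones -/
noncomputable def off (a : ℕ) (L : ℝ) (D : Finset ℕ) : Finset ℝ :=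
  D.image (fun t : ℕ => (t : ℝ)) ∪
    (Finset.range (a + 1 - D.card)).image fun i : ℕ => ((i : ℝ) + 1) * (L / ((a : ℝ) + 2))

/-- the position -/
noncomputable def pos (α β v : ℝ) : ℝ := α + v * (β - α)

/-- the points of the block `(α, β]` for the pattern `D` and the parameter `v` -/
noncomputable def cfg (a : ℕ) (α β : ℝ) (D : Finset ℕ) (v : ℝ) : Finset ℝ :=
  (off a (β - α) D).image fun c => rot α β c (pos α β v)

/-- the sum of `g` over the points -/
noncomputable def gs (a : ℕ) (α β : ℝ) (g : ℝ → ℝ) (D : Finset ℕ) (v : ℝ) : ℝ :=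
  ∑ c ∈ off a (β - α) D, g (rot α β c (pos α β v))

/-- the number of the translates of `E` in the pattern `D` that are not wrapped -/
noncomputable def cnt (α β : ℝ) (E D : Finset ℕ) (v : ℝ) : ℝ :=
  ∑ t ∈ D.filter (fun t => ∀ e ∈ E, t + e ∈ D), if rot α β (t : ℝ) (pos α β v) + (mx E : ℝ) ≤ β then (1 : ℝ) else 0

/-- the constant of the mass `a + 1` -/
noncomputable def cst (a : ℕ) : ℝ := 1 / (2 * ((a : ℝ) + 1) * 2 ^ (a + 1))

/-- the masses of the blocks are small and unbounded -/
def Slow (a : ℕ → ℕ) : Prop := Monotone a ∧ Tendsto a atTop atTop ∧ ∀ b, a b ≠ 0 → 2 ^ (a b) ≤ b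

/-- `S b` is a set of `a b + 1` points of the block `b` with mutual distances at least `1` -/
def Blocks (a : ℕ → ℕ) (S : ℕ → Finset ℝ) : Prop :=
  (∀ b, (S b).card = a b + 1) ∧ (∀ b, ∀ x ∈ S b, tb a b < x ∧ x ≤ tb a (b + 1)) ∧
    ∀ b, ∀ x ∈ S b, ∀ y ∈ S b, x < y → x + 1 ≤ y

/-- `q` enumerates the points of the blocks -/
def Enum (a : ℕ → ℕ) (S : ℕ → Finset ℝ) (q : ℕ → ℝ) : Prop :=
  StrictMono q ∧ (∀ n : ℕ, (n : ℝ) + 1 ≤ q n) ∧ 1 < q 0 ∧
    (∀ b n, Mb a b ≤ n → n < Mb a (b + 1) → q n ∈ S b) ∧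
    ∀ b, ∀ x ∈ S b, ∃ n, Mb a b ≤ n ∧ n < Mb a (b + 1) ∧ q n = x

/-- the twisted sums over the points of the blocks are close to the means -/
def NearB (a : ℕ → ℕ) (S : ℕ → Finset ℝ) : Prop := ∀ δ : ℝ, 0 < δ → ∃ C : ℝ, 0 ≤ C ∧ ∀ (m : ℤ) (s : Bool) (J : ℕ),
  |∑ b ∈ Finset.range J, (∑ x ∈ S b, ph m s x -
    ((a b : ℝ) + 1) * ((ln a b)⁻¹ * ∫ y in (tb a b)..(tb a (b + 1)), ph m s y))| ≤
    C * (J : ℝ) ^ (1 / 2 + δ) * √(Real.log (|(m : ℝ)| + 3))

/-- the number of `n` with `q n ≤ x` such that `q n + e` is a member of the sequence for all `e ∈ E` -/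
noncomputable def tc (q : ℕ → ℝ) (E : Finset ℕ) (x : ℝ) : ℕ := {n : ℕ | q n ≤ x ∧ ∀ e ∈ E, ∃ k, q k = q n + e}.ncard

end Pool.Agent.H73.KT
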