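import Pool.Agent.H73.KT.Defs

/-!
# F5a: the law with a small error gives patterns between consecutive fifth powers
-/

set_option autoImplicit false

open MeasureTheory Filter Topology Set

namespace Pool.Agent.H73.KT

open Pool.Agent.H49.BP Pool.Agent.H73.TR

/-- Proof: with `X = n ^ 5` and `Y = (n + 1) ^ 5 - 9` the counts differ by at least
`c0 * ∫_X^Y du / (log u) ^ 4 - 2 C Y ^ (3 / 5) ≥ c0 * 4 n ^ 4 / (5 log (n + 1)) ^ 4 - 2 C (n + 1) ^ 3 > 0` for large `n`; so the set counted by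
`tc q E Y` is not contained in the one counted by `tc q E X`. -/
theorem fifth_exists {q : ℕ → ℝ} {E : Finset ℕ} {c0 C : ℝ} (hc : 0 < c0) (hq : StrictMono q)
    (hg : ∀ n : ℕ, (n : ℝ) + 1 ≤ q n)
    (h : ∀ x : ℝ, 2 ≤ x → |(tc q E x : ℝ) - c0 * ∫ u in (2 : ℝ)..x, 1 / (Real.log u) ^ 4| ≤ C * x ^ (3 / 5 : ℝ)) :
    ∀ᶠ n : ℕ in atTop, ∃ k : ℕ, (n : ℝ) ^ 5 < q k ∧ q k + 9 ≤ ((n : ℝ) + 1) ^ 5 ∧ ∀ e ∈ E, ∃ i, q i = q k + (e : ℝ) := by
  have hC : 0 ≤ C := by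
    by_contra hC
    have h2 := (abs_nonneg _).trans (h 2 le_rfl)
    have h3 : (0 : ℝ) < 2 ^ (3 / 5 : ℝ) := by positivity
    nlinarith
  have hlo : ∀ᶠ x : ℝ in atTop, Real.log x ^ 4 ≤ (c0 / (4000 * (C + 1))) * x := by
    have h1 := (Real.isLittleO_pow_log_id_atTop (n := 4)).bound (show 0 < c0 / (4000 * (C + 1)) by positivity)
    filter_upwards [h1, eventually_ge_atTop 0] with x hx hx0
    simp only [id, Real.norm_eq_abs] at hx
    rw [abs_of_nonneg hx0] at hx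
    exact (le_abs_self _).trans hx
  have hlo' : ∀ᶠ n : ℕ in atTop, Real.log ((n : ℝ) + 1) ^ 4 ≤ (c0 / (4000 * (C + 1))) * ((n : ℝ) + 1) :=
    (tendsto_atTop_add_const_right _ 1 tendsto_natCast_atTop_atTop).eventually hlo
  filter_upwards [hlo', eventually_ge_atTop 2] with n hn hn2
  by_contra hno
  push Not at hno
  have hn2' : (2 : ℝ) ≤ n := by exact_mod_cast hn2
  set X : ℝ := (n : ℝ) ^ 5 with hX
  set Y : ℝ := ((n : ℝ) + 1) ^ 5 - 9 with hY
  have hX2 : 2 ≤ X := by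
    calc (2 : ℝ) ≤ 2 ^ 5 := by norm_num
      _ ≤ X := pow_le_pow_left₀ (by norm_num) hn2' 5
  have hYX : 5 * (n : ℝ) ^ 4 ≤ Y - X := by
    rw [hX, hY]
    have h1 : 0 ≤ (n : ℝ) ^ 3 := by positivity
    have h2 : (8 : ℝ) ≤ (n : ℝ) ^ 3 := by
      calc (8 : ℝ) = 2 ^ 3 := by norm_num
        _ ≤ _ := pow_le_pow_left₀ (by norm_num) hn2' 3
    nlinarith
  have hXY : X ≤ Y := by
    have : 0 ≤ (n : ℝ) ^ 4 := by positivity
    linarith
  have hY2 : 2 ≤ Y := hX2.trans hXY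
  have hfin : {j : ℕ | q j ≤ X ∧ ∀ e ∈ E, ∃ k, q k = q j + (e : ℝ)}.Finite := by
    refine (Set.finite_Iic ⌊X⌋₊).subset ?_
    rintro j ⟨hj, -⟩
    rw [mem_Iic]
    refine Nat.le_floor ?_
    have := hg j
    linarith
  have hsub : {j : ℕ | q j ≤ Y ∧ ∀ e ∈ E, ∃ k, q k = q j + (e : ℝ)} ⊆
      {j : ℕ | q j ≤ X ∧ ∀ e ∈ E, ∃ k, q k = q j + (e : ℝ)} := by
    rintro j ⟨hj, hE⟩
    refine ⟨?_, hE⟩
    by_contra hlt
    push Not at hlt
    obtain ⟨e, he, hne⟩ := hno j hlt (by rw [hY] at hj; linarith)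
    obtain ⟨k, hk⟩ := hE e he
    exact hne k hk
  have hle : (tc q E Y : ℝ) ≤ tc q E X := by
    exact_mod_cast Set.ncard_le_ncard hsub hfin
  have a1 := (abs_le.1 (h X hX2)).2
  have a2 := (abs_le.1 (h Y hY2)).1
  have hI : ∀ x : ℝ, 2 ≤ x → IntervalIntegrable (fun u : ℝ => 1 / (Real.log u) ^ 4) volume 2 x := by
    intro x hx
    refine ContinuousOn.intervalIntegrable ?_
    rw [uIcc_of_le hx]
    intro u hu
    have hu1 : 1 < u := by linarith [hu.1]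
    have h1 : ContinuousAt (fun u : ℝ => (Real.log u) ^ 4) u := (Real.continuousAt_log (by linarith)).pow 4
    exact (continuousAt_const.div h1 (pow_pos (Real.log_pos hu1) 4).ne').continuousWithinAt
  have hint : ∫ u in (2 : ℝ)..Y, 1 / (Real.log u) ^ 4 =
      (∫ u in (2 : ℝ)..X, 1 / (Real.log u) ^ 4) + ∫ u in X..Y, 1 / (Real.log u) ^ 4 := by
    rw [intervalIntegral.integral_add_adjacent_intervals (hI X hX2) ((hI X hX2).symm.trans (hI Y hY2))]
  set l : ℝ := Real.log ((n : ℝ) + 1) with hl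
  have hl0 : 0 < l := Real.log_pos (by linarith)
  have hlow : (Y - X) * (1 / (5 * l) ^ 4) ≤ ∫ u in X..Y, 1 / (Real.log u) ^ 4 := by
    have h1 : ∫ u in X..Y, (1 / (5 * l) ^ 4 : ℝ) ≤ ∫ u in X..Y, 1 / (Real.log u) ^ 4 := by
      refine intervalIntegral.integral_mono_on hXY intervalIntegrable_const ((hI X hX2).symm.trans (hI Y hY2)) ?_
      intro u hu
      have hu1 : 1 < u := by linarith [hu.1]
      have h2 : Real.log u ≤ 5 * l := by
        have h3 : u ≤ ((n : ℝ) + 1) ^ 5 := by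
          have := hu.2
          rw [hY] at this
          linarith
        have h4 := Real.log_le_log (by linarith) h3
        rw [Real.log_pow] at h4
        rw [hl]
        norm_num at h4 ⊢
        exact h4
      exact one_div_le_one_div_of_le (pow_pos (Real.log_pos hu1) 4)
        (pow_le_pow_left₀ (Real.log_pos hu1).le h2 4)
    rw [intervalIntegral.integral_const, smul_eq_mul] at h1
    exact h1
  have hYp : Y ^ (3 / 5 : ℝ) ≤ ((n : ℝ) + 1) ^ 3 := by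
    have h1 : Y ≤ ((n : ℝ) + 1) ^ 5 := by rw [hY]; linarith
    calc Y ^ (3 / 5 : ℝ) ≤ (((n : ℝ) + 1) ^ 5) ^ (3 / 5 : ℝ) := Real.rpow_le_rpow (by linarith) h1 (by norm_num)
      _ = ((n : ℝ) + 1) ^ 3 := by
        rw [← Real.rpow_natCast, ← Real.rpow_mul (by positivity)]
        norm_num
  have hXp : X ^ (3 / 5 : ℝ) ≤ Y ^ (3 / 5 : ℝ) := Real.rpow_le_rpow (by linarith) hXY (by norm_num)
  have key : c0 * ((Y - X) * (1 / (5 * l) ^ 4)) ≤ 2 * C * ((n : ℝ) + 1) ^ 3 := by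
    have h1 : c0 * ((Y - X) * (1 / (5 * l) ^ 4)) ≤ c0 * ∫ u in X..Y, 1 / (Real.log u) ^ 4 :=
      mul_le_mul_of_nonneg_left hlow hc.le
    have h2 : c0 * ∫ u in X..Y, 1 / (Real.log u) ^ 4 ≤ C * X ^ (3 / 5 : ℝ) + C * Y ^ (3 / 5 : ℝ) := by
      rw [hint, mul_add] at a2
      linarith
    have h3 : C * X ^ (3 / 5 : ℝ) ≤ C * ((n : ℝ) + 1) ^ 3 := mul_le_mul_of_nonneg_left (hXp.trans hYp) hC
    have h4 : C * Y ^ (3 / 5 : ℝ) ≤ C * ((n : ℝ) + 1) ^ 3 := mul_le_mul_of_nonneg_left hYp hC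
    linarith
  have key2 : c0 * (Y - X) ≤ 2 * C * ((n : ℝ) + 1) ^ 3 * (5 * l) ^ 4 := by
    have h5 : 0 < (5 * l) ^ 4 := by positivity
    have h6 : c0 * ((Y - X) * (1 / (5 * l) ^ 4)) = c0 * (Y - X) / (5 * l) ^ 4 := by ring
    rw [h6, div_le_iff₀ h5] at key
    exact key
  have hn1 : ((n : ℝ) + 1) ≤ 3 / 2 * n := by linarith
  have hn3 : ((n : ℝ) + 1) ^ 3 ≤ (3 / 2 * n) ^ 3 := pow_le_pow_left₀ (by positivity) hn1 3
  have key3 : 2 * C * ((n : ℝ) + 1) ^ 3 * (5 * l) ^ 4 ≤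
      2 * C * (3 / 2 * n) ^ 3 * (625 * ((c0 / (4000 * (C + 1))) * (3 / 2 * n))) := by
    have h7 : (5 * l) ^ 4 ≤ 625 * ((c0 / (4000 * (C + 1))) * (3 / 2 * n)) := by
      have h8 : (5 * l) ^ 4 = 625 * l ^ 4 := by ring
      rw [h8]
      refine mul_le_mul_of_nonneg_left (hn.trans ?_) (by norm_num)
      exact mul_le_mul_of_nonneg_left hn1 (by positivity)
    exact mul_le_mul (mul_le_mul_of_nonneg_left hn3 (by linarith)) h7 (by positivity) (by positivity)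
  have key4 : 2 * C * (3 / 2 * n) ^ 3 * (625 * ((c0 / (4000 * (C + 1))) * (3 / 2 * n))) ≤ 4 * (c0 * (n : ℝ) ^ 4) := by
    have h9 : 2 * C * (3 / 2 * (n : ℝ)) ^ 3 * (625 * ((c0 / (4000 * (C + 1))) * (3 / 2 * n))) =
        (C / (C + 1)) * (2 * (3 / 2) ^ 4 * 625 / 4000) * (c0 * (n : ℝ) ^ 4) := by
      field_simp
    rw [h9]
    have h10 : C / (C + 1) ≤ 1 := by
      rw [div_le_one (by linarith)]
      linarith
    have h11 : 0 ≤ C / (C + 1) := by positivity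
    have h12 : 0 ≤ c0 * (n : ℝ) ^ 4 := by positivity
    refine mul_le_mul_of_nonneg_right ?_ h12
    norm_num
    linarith
  have h13 : 0 < c0 * (n : ℝ) ^ 4 := by positivity
  have h14 : c0 * (5 * (n : ℝ) ^ 4) ≤ c0 * (Y - X) := mul_le_mul_of_nonneg_left hYX hc.le
  linarith

end Pool.Agent.H73.KT
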