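import Pool.Agent.H73.KT.Defs

/-!
# F5b: the neighbourhoods of the intervals between the fifth powers of `2 ^ j` and `2 ^ j + 1`
-/

set_option autoImplicit false

open MeasureTheory Filter Topology Set

namespace Pool.Agent.H73.KT

open Pool.Agent.H49.BP Pool.Agent.H73.TR

/-- the neighbourhoods of the intervals -/
def EE : Set ℝ := ⋃ j : ℕ, Icc (((2 : ℝ) ^ j) ^ 5 - ((2 : ℝ) ^ j) ^ 3) (((2 : ℝ) ^ j + 1) ^ 5 + ((2 : ℝ) ^ j) ^ 3)

theorem EE_meas : MeasurableSet EE := MeasurableSet.iUnion fun _ => measurableSet_Icc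

theorem pow_near {x : ℝ} (hx : 2 ≤ x) (j : ℕ) (h : ((2 : ℝ) ^ j) ^ 5 - ((2 : ℝ) ^ j) ^ 3 ≤ x) : (32 : ℝ) ^ j ≤ 2 * x := by
  have e : (32 : ℝ) ^ j = ((2 : ℝ) ^ j) ^ 5 := by
    rw [← pow_mul, mul_comm, pow_mul]
    norm_num
  rw [e]
  rcases Nat.eq_zero_or_pos j with h0 | h0
  · subst h0
    norm_num
    linarith
  · have hu : (2 : ℝ) ≤ 2 ^ j := by
      calc (2 : ℝ) = 2 ^ 1 := by norm_num
        _ ≤ 2 ^ j := pow_le_pow_right₀ (by norm_num) h0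
    generalize (2 : ℝ) ^ j = u at *
    have h1 : 4 * u ^ 3 ≤ u ^ 5 := by
      have h2 : u ^ 5 = u ^ 2 * u ^ 3 := by ring
      rw [h2]
      refine mul_le_mul_of_nonneg_right ?_ (by positivity)
      nlinarith
    linarith

theorem len_le (j : ℕ) : ((2 : ℝ) ^ j + 1) ^ 5 + ((2 : ℝ) ^ j) ^ 3 - (((2 : ℝ) ^ j) ^ 5 - ((2 : ℝ) ^ j) ^ 3) ≤ 33 * 16 ^ j := by
  have e : (16 : ℝ) ^ j = ((2 : ℝ) ^ j) ^ 4 := by
    rw [← pow_mul, mul_comm, pow_mul]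
    norm_num
  rw [e]
  have hu : (1 : ℝ) ≤ 2 ^ j := one_le_pow₀ (by norm_num)
  generalize (2 : ℝ) ^ j = u at *
  have h1 : u ^ 3 ≤ u ^ 4 := pow_le_pow_right₀ hu (by norm_num)
  have h2 : u ^ 2 ≤ u ^ 4 := pow_le_pow_right₀ hu (by norm_num)
  have h3 : u ≤ u ^ 4 := by simpa using pow_le_pow_right₀ hu (show 1 ≤ 4 by norm_num)
  have h4 : 1 ≤ u ^ 4 := one_le_pow₀ hu
  nlinarith

/-- Proof: the interval of index `j` meets `[2, x]` only if `(2 ^ j) ^ 5 / 2 ≤ x` (or `j ≤ 1`); its length is at most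
`100 * 16 ^ j`, and the geometric sum over `j ≤ J` is at most `200 * 16 ^ J ≤ C x ^ (4 / 5)`. -/
theorem EE_int : ∃ C : ℝ, 0 ≤ C ∧ ∀ x : ℝ, 2 ≤ x → ∫ u in (2 : ℝ)..x, EE.indicator (fun _ => (1 : ℝ)) u ≤ C * x ^ (4 / 5 : ℝ) := by
  refine ⟨33 * 2 * 2, by norm_num, fun x hx => ?_⟩
  obtain ⟨J, hJ1, hJ2⟩ := exists_nat_pow_near (show (1 : ℝ) ≤ 2 * x by linarith) (show (1 : ℝ) < 32 by norm_num)
  have hsub : Ioc 2 x ∩ EE ⊆ ⋃ j ∈ Finset.range (J + 1),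
      Icc (((2 : ℝ) ^ j) ^ 5 - ((2 : ℝ) ^ j) ^ 3) (((2 : ℝ) ^ j + 1) ^ 5 + ((2 : ℝ) ^ j) ^ 3) := by
    rintro u ⟨hu1, hu2⟩
    unfold EE at hu2
    obtain ⟨j, hj⟩ := mem_iUnion.1 hu2
    refine mem_iUnion₂.2 ⟨j, ?_, hj⟩
    rw [Finset.mem_range]
    have h1 := pow_near hx j (hj.1.trans hu1.2)
    have h2 := h1.trans_lt hJ2
    exact (pow_lt_pow_iff_right₀ (by norm_num)).1 h2
  rw [intervalIntegral.integral_of_le (by linarith), setIntegral_indicator EE_meas, setIntegral_const, smul_eq_mul,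
    mul_one]
  have hfin : volume (⋃ j ∈ Finset.range (J + 1),
      Icc (((2 : ℝ) ^ j) ^ 5 - ((2 : ℝ) ^ j) ^ 3) (((2 : ℝ) ^ j + 1) ^ 5 + ((2 : ℝ) ^ j) ^ 3)) ≠ ⊤ := by
    refine ne_of_lt ((measure_biUnion_finset_le _ _).trans_lt ?_)
    exact ENNReal.sum_lt_top.2 fun j _ => measure_Icc_lt_top
  calc volume.real (Ioc 2 x ∩ EE) ≤ volume.real (⋃ j ∈ Finset.range (J + 1),
      Icc (((2 : ℝ) ^ j) ^ 5 - ((2 : ℝ) ^ j) ^ 3) (((2 : ℝ) ^ j + 1) ^ 5 + ((2 : ℝ) ^ j) ^ 3)) :=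
        measureReal_mono hsub hfin
    _ ≤ ∑ j ∈ Finset.range (J + 1), volume.real
        (Icc (((2 : ℝ) ^ j) ^ 5 - ((2 : ℝ) ^ j) ^ 3) (((2 : ℝ) ^ j + 1) ^ 5 + ((2 : ℝ) ^ j) ^ 3)) :=
        measureReal_biUnion_finset_le _ _
    _ ≤ ∑ j ∈ Finset.range (J + 1), 33 * (16 : ℝ) ^ j := by
        refine Finset.sum_le_sum fun j _ => ?_
        have h0 : ((2 : ℝ) ^ j) ^ 5 - ((2 : ℝ) ^ j) ^ 3 ≤ ((2 : ℝ) ^ j + 1) ^ 5 + ((2 : ℝ) ^ j) ^ 3 := by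
          have hu : (0 : ℝ) < 2 ^ j := by positivity
          have h1 : ((2 : ℝ) ^ j) ^ 5 ≤ ((2 : ℝ) ^ j + 1) ^ 5 := pow_le_pow_left₀ hu.le (by linarith) 5
          have h2 : 0 < ((2 : ℝ) ^ j) ^ 3 := by positivity
          linarith
        rw [Real.volume_real_Icc_of_le h0]
        exact len_le j
    _ ≤ 33 * (2 * (16 : ℝ) ^ J) := by
        rw [← Finset.mul_sum]
        refine mul_le_mul_of_nonneg_left ?_ (by norm_num)
        rw [geom_sum_eq (by norm_num), div_le_iff₀ (by norm_num), pow_succ]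
        have : (0 : ℝ) < 16 ^ J := by positivity
        linarith
    _ ≤ 33 * 2 * 2 * x ^ (4 / 5 : ℝ) := by
        have e : (16 : ℝ) ^ J = ((32 : ℝ) ^ J) ^ (4 / 5 : ℝ) := by
          rw [← Real.rpow_natCast (32 : ℝ) J, ← Real.rpow_mul (by norm_num), mul_comm, Real.rpow_mul (by norm_num),
            ← Real.rpow_natCast (16 : ℝ) J]
          congr 1
          rw [show (32 : ℝ) = 2 ^ (5 : ℝ) by norm_num, ← Real.rpow_mul (by norm_num)]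
          norm_num
        have h1 : (16 : ℝ) ^ J ≤ (2 * x) ^ (4 / 5 : ℝ) := by
          rw [e]
          exact Real.rpow_le_rpow (by positivity) hJ1 (by norm_num)
        have h2 : (2 * x) ^ (4 / 5 : ℝ) ≤ 2 * x ^ (4 / 5 : ℝ) := by
          rw [Real.mul_rpow (by norm_num) (by linarith)]
          refine mul_le_mul_of_nonneg_right ?_ (Real.rpow_nonneg (by linarith) _)
          calc (2 : ℝ) ^ (4 / 5 : ℝ) ≤ 2 ^ (1 : ℝ) :=
                Real.rpow_le_rpow_of_exponent_le (by norm_num) (by norm_num)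
            _ = 2 := Real.rpow_one 2
        linarith

/-- For large `j`: a point within `√y` of a point `y` of `((2 ^ j) ^ 5, (2 ^ j + 1) ^ 5)` is in `EE`. -/
theorem EE_near : ∀ᶠ j : ℕ in atTop, ∀ y u : ℝ, ((2 : ℝ) ^ j) ^ 5 < y → y < ((2 : ℝ) ^ j + 1) ^ 5 → |u - y| ≤ √y → u ∈ EE := by
  filter_upwards [eventually_ge_atTop 3] with j hj y u h1 h2 h3
  have hu : (8 : ℝ) ≤ 2 ^ j := by
    calc (8 : ℝ) = 2 ^ 3 := by norm_num
      _ ≤ 2 ^ j := pow_le_pow_right₀ (by norm_num) hj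
  refine mem_iUnion.2 ⟨j, ?_⟩
  have h4 : √y ≤ ((2 : ℝ) ^ j) ^ 3 := by
    refine Real.sqrt_le_iff.2 ⟨by positivity, h2.le.trans ?_⟩
    generalize (2 : ℝ) ^ j = v at *
    have h5 : v + 1 ≤ 9 / 8 * v := by linarith
    calc (v + 1) ^ 5 ≤ (9 / 8 * v) ^ 5 := pow_le_pow_left₀ (by linarith) h5 5
      _ = (9 / 8) ^ 5 * v ^ 5 := by ring
      _ ≤ v * v ^ 5 := by
          refine mul_le_mul_of_nonneg_right ?_ (by positivity)
          norm_num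
          linarith
      _ = (v ^ 3) ^ 2 := by ring
  rw [abs_le] at h3
  constructor
  · linarith [h3.1]
  · linarith [h3.2]

end Pool.Agent.H73.KT
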