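import Pool.Agent.H73.KT.Fin
import Pool.Agent.H73.KT.F5b

/-!
# F5c: the law with the error `O(x ^ (4 / 5) / (log x) ^ k)`
-/

set_option autoImplicit false

open MeasureTheory Filter Topology Set

namespace Pool.Agent.H73.KT

open Pool.Agent.H49.BP Pool.Agent.H73.TR

theorem gi_int {X : Set ℝ} (hX : MeasurableSet X) (k : ℕ) {x : ℝ} (hx : 2 ≤ x) :
    IntervalIntegrable (fun u => 1 / (Real.log u) ^ k * X.indicator (fun _ => (1 : ℝ)) u) volume 2 x := by
  have hlk := logk_cont hx k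
  have hind : Measurable (X.indicator (fun _ => (1 : ℝ))) := measurable_const.indicator hX
  refine hlk.mono_fun ?_ ?_
  · exact ((measurable_const.div (Real.measurable_log.pow_const _)).mul hind).aestronglyMeasurable
  · refine Eventually.of_forall fun u => ?_
    beta_reduce
    rw [norm_mul (1 / (Real.log u) ^ k)]
    refine mul_le_of_le_one_right (norm_nonneg _) ?_
    rw [Real.norm_of_nonneg (Set.indicator_nonneg (fun _ _ => zero_le_one) u)]
    exact Set.indicator_le_self' (fun _ _ => zero_le_one) u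

/-- the difference of the integrals -/
theorem nb_ex {c : Finset ℕ → ℝ} {Bad : Finset ℕ → Prop} {X : Set ℝ} (hX : MeasurableSet X)
    {D : Finset ℕ} (hD : 2 ≤ D.card) (hc : 0 ≤ c D) {x : ℝ} (hx : 2 ≤ x) :
    |(∫ u in (2 : ℝ)..x, nb c Bad X D u / Real.log u) - c D * ∫ u in (2 : ℝ)..x, 1 / (Real.log u) ^ D.card| ≤
      c D * ∫ u in (2 : ℝ)..x, 1 / (Real.log u) ^ D.card * X.indicator (fun _ => (1 : ℝ)) u := by
  classical
  have hnn : 0 ≤ ∫ u in (2 : ℝ)..x, 1 / (Real.log u) ^ D.card * X.indicator (fun _ => (1 : ℝ)) u := by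
    refine intervalIntegral.integral_nonneg hx fun u hu => ?_
    have hl : 0 < Real.log u := log_pos' (by linarith [hu.1])
    have h2 : 0 ≤ X.indicator (fun _ => (1 : ℝ)) u := Set.indicator_nonneg (fun _ _ => zero_le_one) u
    positivity
  by_cases hB : Bad D
  swap
  · rw [nb_int hD hB hx, sub_self, abs_zero]
    positivity
  have hpt : ∀ u, 2 ≤ u → nb c Bad X D u / Real.log u =
      c D * (1 / (Real.log u) ^ D.card) - c D * (1 / (Real.log u) ^ D.card * X.indicator (fun _ => (1 : ℝ)) u) := by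
    intro u hu
    unfold nb
    by_cases h : u ∈ X
    · rw [if_pos ⟨hB, h⟩, Set.indicator_of_mem h]
      ring
    · rw [if_neg (fun h' => h h'.2), Set.indicator_of_notMem h, n0_div hD hu]
      ring
  have e1 : ∫ u in (2 : ℝ)..x, nb c Bad X D u / Real.log u =
      (∫ u in (2 : ℝ)..x, c D * (1 / (Real.log u) ^ D.card)) -
        ∫ u in (2 : ℝ)..x, c D * (1 / (Real.log u) ^ D.card * X.indicator (fun _ => (1 : ℝ)) u) := by
    rw [← intervalIntegral.integral_sub ((logk_cont hx D.card).const_mul (c D)) ((gi_int hX D.card hx).const_mul (c D))]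
    refine intervalIntegral.integral_congr fun u hu => ?_
    rw [uIcc_of_le hx] at hu
    exact hpt u hu.1
  rw [e1, intervalIntegral.integral_const_mul, intervalIntegral.integral_const_mul, sub_sub_cancel_left, abs_neg,
    abs_of_nonneg (by positivity)]

theorem log_pow_le (k : ℕ) {x : ℝ} (hx : 2 ≤ x) : (Real.log x) ^ k ≤ (5 * ((k : ℝ) + 1)) ^ k * x ^ (1 / 5 : ℝ) := by
  have hx0 : 0 ≤ x := by linarith
  have hx1 : 1 ≤ x := by linarith
  have hk : 0 < 1 / (5 * ((k : ℝ) + 1)) := by positivity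
  have h1 := Real.log_le_rpow_div hx0 hk
  have h2 : 0 ≤ Real.log x := Real.log_nonneg hx1
  calc (Real.log x) ^ k ≤ (x ^ (1 / (5 * ((k : ℝ) + 1))) / (1 / (5 * ((k : ℝ) + 1)))) ^ k := pow_le_pow_left₀ h2 h1 k
    _ = (5 * ((k : ℝ) + 1)) ^ k * (x ^ (1 / (5 * ((k : ℝ) + 1)))) ^ k := by
        rw [div_eq_mul_inv, one_div, inv_inv, mul_pow]
        ring
    _ ≤ (5 * ((k : ℝ) + 1)) ^ k * x ^ (1 / 5 : ℝ) := by
        refine mul_le_mul_of_nonneg_left ?_ (by positivity)
        rw [← Real.rpow_natCast, ← Real.rpow_mul hx0]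
        refine Real.rpow_le_rpow_of_exponent_le hx1 ?_
        rw [one_div_mul_eq_div, div_le_div_iff₀ (by positivity) (by norm_num)]
        nlinarith

theorem law_fifth {c : Finset ℕ → ℝ} (hc : ∀ D, 0 ≤ c D) {q : ℕ → ℝ} {Bad : Finset ℕ → Prop} {D : Finset ℕ} (hD2 : 2 ≤ D.card)
    (hlaw : ∀ ε : ℝ, 0 < ε → ∃ C : ℝ, ∀ x : ℝ, 2 ≤ x →
      |(tc q D x : ℝ) - ∫ u in (2 : ℝ)..x, nb c Bad EE D u / Real.log u| ≤ C * x ^ (1 / 2 + ε)) :
    ∃ C : ℝ, ∀ x : ℝ, 2 ≤ x →
      |(tc q D x : ℝ) - c D * ∫ u in (2 : ℝ)..x, 1 / (Real.log u) ^ D.card| ≤ C * (x ^ (4 / 5 : ℝ) / (Real.log x) ^ D.card) := by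
  obtain ⟨C1, hC1⟩ := hlaw (1 / 10) (by norm_num)
  obtain ⟨C0, hC0, hE⟩ := EE_int
  set k := D.card with hk
  set P : ℝ := (5 * ((k : ℝ) + 1)) ^ k with hP
  have hP0 : 0 ≤ P := by positivity
  refine ⟨|C1| * P + c D * (2 ^ k * C0 * 2 * P + 2 ^ k * C0), fun x hx => ?_⟩
  have hx0 : 0 ≤ x := by linarith
  have hlx : 0 < Real.log x := log_pos' (by linarith)
  have hLk : 0 < (Real.log x) ^ k := pow_pos hlx k
  have hlp := log_pow_le k hx
  rw [← hP] at hlp
  -- the point y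
  set y : ℝ := max 2 √x with hy
  have hy2 : 2 ≤ y := le_max_left _ _
  have hsx : √x ≤ x := by
    rw [Real.sqrt_le_left hx0]
    nlinarith
  have hyx : y ≤ x := max_le hx hsx
  have hlog : Real.log x / 2 ≤ Real.log y := by
    have h1 : Real.log (√x) ≤ Real.log y := Real.log_le_log (Real.sqrt_pos.2 (by linarith)) (le_max_right _ _)
    rwa [Real.log_sqrt hx0] at h1
  have hy45 : y ^ (4 / 5 : ℝ) ≤ 2 * x ^ (2 / 5 : ℝ) := by
    have h1 : y ≤ 2 * √x := by
      refine max_le ?_ ?_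
      · have : 1 ≤ √x := by
          rw [Real.one_le_sqrt]
          linarith
        linarith
      · have := Real.sqrt_nonneg x
        linarith
    calc y ^ (4 / 5 : ℝ) ≤ (2 * √x) ^ (4 / 5 : ℝ) := Real.rpow_le_rpow (by linarith) h1 (by norm_num)
      _ = 2 ^ (4 / 5 : ℝ) * x ^ (2 / 5 : ℝ) := by
          rw [Real.mul_rpow (by norm_num) (Real.sqrt_nonneg x), Real.sqrt_eq_rpow, ← Real.rpow_mul hx0]
          norm_num
      _ ≤ 2 * x ^ (2 / 5 : ℝ) := by
          refine mul_le_mul_of_nonneg_right ?_ (Real.rpow_nonneg hx0 _)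
          calc (2 : ℝ) ^ (4 / 5 : ℝ) ≤ 2 ^ (1 : ℝ) :=
                Real.rpow_le_rpow_of_exponent_le (by norm_num) (by norm_num)
            _ = 2 := Real.rpow_one 2
  have hex := nb_ex (c := c) (Bad := Bad) (X := EE) EE_meas hD2 (hc D) hx
  rw [← hk] at hex
  -- split at y
  have hi2y := gi_int EE_meas k hy2
  have hi2x := gi_int EE_meas k hx
  have hiyx : IntervalIntegrable (fun u => 1 / (Real.log u) ^ k * EE.indicator (fun _ => (1 : ℝ)) u) volume y x :=
    hi2y.symm.trans hi2x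
  have hsplit := intervalIntegral.integral_add_adjacent_intervals hi2y hiyx
  have hind : Measurable (EE.indicator (fun _ => (1 : ℝ))) := measurable_const.indicator EE_meas
  have hindI : ∀ α β : ℝ, IntervalIntegrable (EE.indicator (fun _ => (1 : ℝ))) volume α β := fun α β =>
    bint hind (B := 1) (fun u => by
      rw [abs_of_nonneg (Set.indicator_nonneg (fun _ _ => zero_le_one) u)]
      exact Set.indicator_le_self' (fun _ _ => zero_le_one) u) α β
  have hind0 : ∀ u, 0 ≤ EE.indicator (fun _ => (1 : ℝ)) u := fun u => Set.indicator_nonneg (fun _ _ => zero_le_one) u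
  have hI1 : ∫ u in (2 : ℝ)..y, 1 / (Real.log u) ^ k * EE.indicator (fun _ => (1 : ℝ)) u ≤ 2 ^ k * (C0 * y ^ (4 / 5 : ℝ)) := by
    refine le_trans ?_ (mul_le_mul_of_nonneg_left (hE y hy2) (by positivity))
    rw [← intervalIntegral.integral_const_mul]
    refine intervalIntegral.integral_mono_on hy2 hi2y ((hindI _ _).const_mul _) fun u hu => ?_
    have hl : 1 / 2 ≤ Real.log u := log_half' hu.1
    refine mul_le_mul_of_nonneg_right ?_ (hind0 u)
    rw [div_le_iff₀ (pow_pos (by linarith) _), ← mul_pow]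
    exact one_le_pow₀ (by linarith)
  have hI2 : ∫ u in y..x, 1 / (Real.log u) ^ k * EE.indicator (fun _ => (1 : ℝ)) u ≤
      2 ^ k / (Real.log x) ^ k * (C0 * x ^ (4 / 5 : ℝ)) := by
    refine le_trans ?_ (mul_le_mul_of_nonneg_left (hE x hx) (by positivity))
    have h2 : ∫ u in y..x, EE.indicator (fun _ => (1 : ℝ)) u ≤ ∫ u in (2 : ℝ)..x, EE.indicator (fun _ => (1 : ℝ)) u := by
      have h3 := intervalIntegral.integral_add_adjacent_intervals (hindI 2 y) (hindI y x)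
      have h4 : 0 ≤ ∫ u in (2 : ℝ)..y, EE.indicator (fun _ => (1 : ℝ)) u :=
        intervalIntegral.integral_nonneg hy2 fun u _ => hind0 u
      linarith
    refine le_trans ?_ (mul_le_mul_of_nonneg_left h2 (by positivity))
    rw [← intervalIntegral.integral_const_mul]
    refine intervalIntegral.integral_mono_on hyx hiyx ((hindI _ _).const_mul _) fun u hu => ?_
    have hl : Real.log x / 2 ≤ Real.log u := hlog.trans (Real.log_le_log (by linarith) hu.1)
    refine mul_le_mul_of_nonneg_right ?_ (hind0 u)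
    rw [div_le_div_iff₀ (pow_pos (by linarith) _) hLk, one_mul]
    rw [← mul_pow]
    exact pow_le_pow_left₀ hlx.le (by linarith) k
  have hmain := hC1 x hx
  rw [show (1 / 2 + 1 / 10 : ℝ) = 3 / 5 by norm_num] at hmain
  -- the powers
  have hx35 : x ^ (3 / 5 : ℝ) ≤ P * (x ^ (4 / 5 : ℝ) / (Real.log x) ^ k) := by
    rw [mul_div_assoc', le_div_iff₀ hLk]
    calc x ^ (3 / 5 : ℝ) * (Real.log x) ^ k ≤ x ^ (3 / 5 : ℝ) * (P * x ^ (1 / 5 : ℝ)) :=
          mul_le_mul_of_nonneg_left hlp (Real.rpow_nonneg hx0 _)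
      _ = P * (x ^ (3 / 5 : ℝ) * x ^ (1 / 5 : ℝ)) := by ring
      _ = P * x ^ (4 / 5 : ℝ) := by
          rw [← Real.rpow_add (by linarith)]
          norm_num
  have hx25 : x ^ (2 / 5 : ℝ) ≤ P * (x ^ (4 / 5 : ℝ) / (Real.log x) ^ k) :=
    (Real.rpow_le_rpow_of_exponent_le (by linarith) (by norm_num)).trans hx35
  have hcD := hc D
  have h1 : |(tc q D x : ℝ) - c D * ∫ u in (2 : ℝ)..x, 1 / (Real.log u) ^ k| ≤
      C1 * x ^ (3 / 5 : ℝ) + c D * ∫ u in (2 : ℝ)..x, 1 / (Real.log u) ^ k * EE.indicator (fun _ => (1 : ℝ)) u := by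
    refine le_trans (abs_sub_le _ (∫ u in (2 : ℝ)..x, nb c Bad EE D u / Real.log u) _) ?_
    exact add_le_add hmain hex
  have h2 : C1 * x ^ (3 / 5 : ℝ) ≤ |C1| * (P * (x ^ (4 / 5 : ℝ) / (Real.log x) ^ k)) :=
    (mul_le_mul_of_nonneg_right (le_abs_self C1) (Real.rpow_nonneg hx0 _)).trans
      (mul_le_mul_of_nonneg_left hx35 (abs_nonneg _))
  have h3 : ∫ u in (2 : ℝ)..x, 1 / (Real.log u) ^ k * EE.indicator (fun _ => (1 : ℝ)) u ≤
      2 ^ k * C0 * 2 * (P * (x ^ (4 / 5 : ℝ) / (Real.log x) ^ k)) + 2 ^ k * C0 * (x ^ (4 / 5 : ℝ) / (Real.log x) ^ k) := by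
    rw [← hsplit]
    refine add_le_add (hI1.trans ?_) (hI2.trans (le_of_eq ?_))
    · calc 2 ^ k * (C0 * y ^ (4 / 5 : ℝ)) ≤ 2 ^ k * (C0 * (2 * x ^ (2 / 5 : ℝ))) := by
            refine mul_le_mul_of_nonneg_left (mul_le_mul_of_nonneg_left hy45 hC0) (by positivity)
        _ = 2 ^ k * C0 * 2 * x ^ (2 / 5 : ℝ) := by ring
        _ ≤ _ := mul_le_mul_of_nonneg_left hx25 (by positivity)
    · ring
  have h4 := mul_le_mul_of_nonneg_left h3 hcD
  calc _ ≤ _ := h1
    _ ≤ |C1| * (P * (x ^ (4 / 5 : ℝ) / (Real.log x) ^ k)) +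
        c D * (2 ^ k * C0 * 2 * (P * (x ^ (4 / 5 : ℝ) / (Real.log x) ^ k)) + 2 ^ k * C0 * (x ^ (4 / 5 : ℝ) / (Real.log x) ^ k)) :=
        add_le_add h2 h4
    _ = _ := by ring

end Pool.Agent.H73.KT
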