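import Pool.Agent.H73.KT.Defs

/-!
# W1: the triangular system for the probabilities of the patterns
-/

set_option autoImplicit false

open MeasureTheory Filter Topology Set

namespace Pool.Agent.H73.KT

open Pool.Agent.H49.BP Pool.Agent.H73.TR

theorem mult_ne {E D : Finset ℕ} (h : mult E D ≠ 0) : ∃ t ∈ D, ∀ e ∈ E, t + e ∈ D := by
  unfold mult at h
  rw [Finset.card_ne_zero] at h
  obtain ⟨t, ht⟩ := h
  rw [Finset.mem_filter] at ht
  exact ⟨t, ht⟩

/-- If `D` has a translate in `D'` and `D ≠ D'`, both containing `0`, then `|D| < |D'|`. (If `t + D ⊆ D'` and `|D'| ≤ |D|` then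
`t + D = D'`; `0 ∈ D'` gives `t = 0`.) Also `mult D D = 1` for `0 ∈ D` (only `t = 0`: `t + D ⊆ D` gives `t + max D ≤ max D`). -/
theorem mult_card {D D' : Finset ℕ} (h0 : 0 ∈ D) (h0' : 0 ∈ D') (h : mult D D' ≠ 0) (hne : D ≠ D') : D.card < D'.card := by
  obtain ⟨t, ht, hsub⟩ := mult_ne h
  by_contra hcard
  push Not at hcard
  have hinj : Function.Injective fun e : ℕ => t + e := fun x y hxy => by simpa using hxy
  have h1 : D.image (fun e => t + e) ⊆ D' := by
    intro x hx
    rw [Finset.mem_image] at hx
    obtain ⟨e, he, rfl⟩ := hx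
    exact hsub e he
  have h2 : D.image (fun e => t + e) = D' := by
    refine Finset.eq_of_subset_of_card_le h1 ?_
    rw [Finset.card_image_of_injective _ hinj]
    exact hcard
  have h3 : t = 0 := by
    rw [← h2, Finset.mem_image] at h0'
    obtain ⟨e, _, he⟩ := h0'
    omega
  subst h3
  apply hne
  rw [← h2]
  simp

theorem mult_self {D : Finset ℕ} (h0 : 0 ∈ D) : mult D D = 1 := by
  unfold mult
  have h1 : D.filter (fun t => ∀ e ∈ D, t + e ∈ D) = {0} := by
    ext t
    rw [Finset.mem_filter, Finset.mem_singleton]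
    constructor
    · rintro ⟨_, h2⟩
      have h3 := h2 _ (Finset.max'_mem D ⟨0, h0⟩)
      have h4 := Finset.le_max' D _ h3
      omega
    · rintro rfl
      refine ⟨h0, fun e he => ?_⟩
      rwa [zero_add]
  rw [h1, Finset.card_singleton]

theorem pat_card {a : ℕ} {D : Finset ℕ} (hD : D ∈ pat a) : D.card ≤ a + 1 := by
  unfold pat at hD
  rw [Finset.mem_filter, Finset.mem_powerset] at hD
  have := Finset.card_le_card hD.1
  rwa [Finset.card_range] at this

theorem mult_le {a : ℕ} {E D : Finset ℕ} (hD : D ∈ pat a) : mult E D ≤ a + 1 := by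
  unfold mult
  exact (Finset.card_filter_le _ _).trans (pat_card hD)

theorem card_pat (a : ℕ) : (pat a).card ≤ 2 ^ (a + 1) := by
  unfold pat
  refine (Finset.card_filter_le _ _).trans ?_
  rw [Finset.card_powerset, Finset.card_range]

theorem pat_zero_mem {a : ℕ} {D : Finset ℕ} (hD : D ∈ pat a) : 0 ∈ D := by
  unfold pat at hD
  rw [Finset.mem_filter] at hD
  exact hD.2.1

/-- Proof: downward induction on the number of elements. For `k` from `a + 2` down to `0` there is `π ≥ 0`, zero outside
`{D ∈ pat a : k ≤ |D|}`, with `π D ≤ V D` and with the equation for all `E ∈ pat a` with `k ≤ |E|`. Step: for `|D| = k` put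
`π D := V D - ∑_{D' ∈ pat a, D' ≠ D} mult D D' * π D'` (all `D'` with nonzero term have `|D'| > k` by `mult_card`); it is `≥ 0` since
`mult D D' * π D' ≤ (a + 1) * V D' ≤ V D / 2 ^ (a + 1)` and there are at most `2 ^ (a + 1)` patterns. -/
theorem inversion (a : ℕ) (V : Finset ℕ → ℝ) (hV0 : ∀ D ∈ pat a, 0 ≤ V D)
    (hV : ∀ D ∈ pat a, ∀ D' ∈ pat a, D ≠ D' → mult D D' ≠ 0 → V D' ≤ V D / (((a : ℝ) + 1) * 2 ^ (a + 1))) :
    ∃ π : Finset ℕ → ℝ, (∀ D, 0 ≤ π D) ∧ (∀ D, D ∉ pat a → π D = 0) ∧ (∀ D ∈ pat a, π D ≤ V D) ∧
      ∀ E ∈ pat a, ∑ D ∈ pat a, π D * (mult E D : ℝ) = V E := by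
  classical
  have key : ∀ j : ℕ, j ≤ a + 2 → ∃ π : Finset ℕ → ℝ, (∀ D, 0 ≤ π D) ∧
      (∀ D, (D ∉ pat a ∨ D.card < a + 2 - j) → π D = 0) ∧ (∀ D ∈ pat a, π D ≤ V D) ∧
      ∀ E ∈ pat a, a + 2 - j ≤ E.card → ∑ D ∈ pat a, π D * (mult E D : ℝ) = V E := by
    intro j
    induction j with
    | zero =>
      intro _
      refine ⟨fun _ => 0, fun _ => le_rfl, fun _ _ => rfl, hV0, fun E hE h => ?_⟩
      have := pat_card hE
      omega
    | succ j ih =>
      intro hj
      obtain ⟨π, h1, h2, h3, h4⟩ := ih (by omega)
      set k := a + 2 - (j + 1) with hk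
      have hk' : a + 2 - j = k + 1 := by omega
      rw [hk'] at h2 h4
      have hS0 : ∀ D, 0 ≤ ∑ D' ∈ pat a, π D' * (mult D D' : ℝ) := fun D =>
        Finset.sum_nonneg fun D' _ => mul_nonneg (h1 D') (Nat.cast_nonneg _)
      have hS1 : ∀ D ∈ pat a, D.card = k → ∑ D' ∈ pat a, π D' * (mult D D' : ℝ) ≤ V D := by
        intro D hD hDk
        have hp2 : (0 : ℝ) < 2 ^ (a + 1) := by positivity
        have hVD := hV0 D hD
        have h5 : ∀ D' ∈ pat a, π D' * (mult D D' : ℝ) ≤ V D / 2 ^ (a + 1) := by
          intro D' hD'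
          by_cases hm : mult D D' = 0
          · rw [hm, Nat.cast_zero, mul_zero]
            positivity
          by_cases hne : D = D'
          · subst hne
            rw [h2 D (Or.inr (by omega)), zero_mul]
            positivity
          · have h6 := hV D hD D' hD' hne hm
            have h7 := h3 D' hD'
            have h8 : (mult D D' : ℝ) ≤ (a : ℝ) + 1 := by exact_mod_cast mult_le hD'
            have h9 : (0 : ℝ) ≤ mult D D' := Nat.cast_nonneg _
            calc π D' * (mult D D' : ℝ) ≤ (V D / (((a : ℝ) + 1) * 2 ^ (a + 1))) * ((a : ℝ) + 1) :=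
                  mul_le_mul (h7.trans h6) h8 h9 (by positivity)
              _ = V D / 2 ^ (a + 1) := by field_simp
        calc ∑ D' ∈ pat a, π D' * (mult D D' : ℝ) ≤ ∑ D' ∈ pat a, V D / 2 ^ (a + 1) := Finset.sum_le_sum h5
          _ = (pat a).card * (V D / 2 ^ (a + 1)) := by rw [Finset.sum_const, nsmul_eq_mul]
          _ ≤ 2 ^ (a + 1) * (V D / 2 ^ (a + 1)) := by
              refine mul_le_mul_of_nonneg_right ?_ (by positivity)
              exact_mod_cast card_pat a
          _ = V D := by field_simp
      set π' : Finset ℕ → ℝ := fun D => if D ∈ pat a ∧ D.card = k then V D - ∑ D' ∈ pat a, π D' * (mult D D' : ℝ)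
        else π D with hπ'
      have hin : ∀ D, D ∈ pat a → D.card = k → π' D = V D - ∑ D' ∈ pat a, π D' * (mult D D' : ℝ) := by
        intro D hD hDk
        rw [hπ']
        beta_reduce
        rw [if_pos ⟨hD, hDk⟩]
      have hout : ∀ D, ¬ (D ∈ pat a ∧ D.card = k) → π' D = π D := by
        intro D hD
        rw [hπ']
        beta_reduce
        rw [if_neg hD]
      refine ⟨π', fun D => ?_, fun D hD => ?_, fun D hD => ?_, fun E hE hEk => ?_⟩
      · by_cases h : D ∈ pat a ∧ D.card = k
        · rw [hin D h.1 h.2]
          linarith [hS1 D h.1 h.2]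
        · rw [hout D h]
          exact h1 D
      · have h : ¬ (D ∈ pat a ∧ D.card = k) := by
          rintro ⟨h5, h6⟩
          rcases hD with h7 | h7
          · exact h7 h5
          · omega
        rw [hout D h]
        refine h2 D ?_
        rcases hD with h7 | h7
        · exact Or.inl h7
        · exact Or.inr (by omega)
      · by_cases h : D.card = k
        · rw [hin D hD h]
          linarith [hS0 D]
        · rw [hout D (fun h5 => h h5.2)]
          exact h3 D hD
      · rcases Nat.lt_or_ge k E.card with h | h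
        · rw [← h4 E hE h]
          refine Finset.sum_congr rfl fun D hD => ?_
          by_cases h5 : D.card = k
          · have h6 : mult E D = 0 := by
              by_contra hm
              have hne : E ≠ D := by
                rintro rfl
                omega
              have := mult_card (pat_zero_mem hE) (pat_zero_mem hD) hm hne
              omega
            rw [h6]
            simp
          · rw [hout D (fun h6 => h5 h6.2)]
        · have hEk' : E.card = k := le_antisymm h hEk
          have h5 : ∀ D ∈ pat a, π' D * (mult E D : ℝ) = π D * (mult E D : ℝ) + if D = E then π' E else 0 := by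
            intro D hD
            by_cases h6 : D = E
            · subst h6
              rw [if_pos rfl, mult_self (pat_zero_mem hD), h2 D (Or.inr (by omega))]
              push_cast
              ring
            · rw [if_neg h6, add_zero]
              by_cases h7 : D.card = k
              · have h8 : mult E D = 0 := by
                  by_contra hm
                  have := mult_card (pat_zero_mem hE) (pat_zero_mem hD) hm (fun h => h6 h.symm)
                  omega
                rw [h8]
                simp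
              · rw [hout D (fun h8 => h7 h8.2)]
          rw [Finset.sum_congr rfl h5, Finset.sum_add_distrib, Finset.sum_ite_eq' (pat a) E, if_pos hE, hin E hE hEk']
          ring
  obtain ⟨π, h1, h2, h3, h4⟩ := key (a + 2) le_rfl
  exact ⟨π, h1, fun D hD => h2 D (Or.inl hD), h3, fun E hE => h4 E hE (by omega)⟩

end Pool.Agent.H73.KT
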