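import Pool.Agent.H73.KT.Defs
import Pool.Agent.H73.TR.Co

/-!
# W2: slowly growing masses, the blocks, partial summation
-/

set_option autoImplicit false

open MeasureTheory Filter Topology Set

namespace Pool.Agent.H73.KT

open Pool.Agent.H49.BP Pool.Agent.H73.TR

/-- Proof: `a b := Nat.findGreatest (fun k => ∀ i, 1 ≤ i → i ≤ k → U i ≤ b) b`. -/
theorem activation (U : ℕ → ℕ) : ∃ a : ℕ → ℕ, Monotone a ∧ Tendsto a atTop atTop ∧ ∀ b, a b ≠ 0 → U (a b) ≤ b := by
  classical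
  set P : ℕ → ℕ → Prop := fun b k => ∀ i, 1 ≤ i → i ≤ k → U i ≤ b with hP
  have h0 : ∀ b, P b 0 := fun b i h1 h2 => by omega
  refine ⟨fun b => Nat.findGreatest (P b) b, ?_, ?_, fun b hb => ?_⟩
  · refine monotone_nat_of_le_succ fun b => ?_
    have h1 : P b (Nat.findGreatest (P b) b) := Nat.findGreatest_spec (Nat.zero_le b) (h0 b)
    refine Nat.le_findGreatest ((Nat.findGreatest_le b).trans (Nat.le_succ b)) ?_
    exact fun i h2 h3 => (h1 i h2 h3).trans (Nat.le_succ b)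
  · refine tendsto_atTop.2 fun K => ?_
    filter_upwards [eventually_ge_atTop (K + ∑ i ∈ Finset.range (K + 1), U i)] with b hb
    refine Nat.le_findGreatest (by omega) fun i _ hi => ?_
    have h1 : U i ≤ ∑ i ∈ Finset.range (K + 1), U i :=
      Finset.single_le_sum (f := U) (fun _ _ => Nat.zero_le _) (Finset.mem_range.2 (by omega))
    omega
  · have h1 : P b (Nat.findGreatest (P b) b) := Nat.findGreatest_spec (Nat.zero_le b) (h0 b)
    exact h1 _ (Nat.one_le_iff_ne_zero.2 hb) le_rfl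

section
variable {a : ℕ → ℕ}

theorem Mb_zero : Mb a 0 = 0 := by
  simp [Mb]

theorem Mb_succ (b : ℕ) : Mb a (b + 1) = Mb a b + (a b + 1) := by
  unfold Mb
  rw [Finset.sum_range_succ]

theorem Mb_mono : StrictMono (Mb a) := by
  refine strictMono_nat_of_lt_succ fun b => ?_
  rw [Mb_succ]
  omega

theorem le_Mb (b : ℕ) : b ≤ Mb a b := Mb_mono.le_apply

theorem tb_zero : tb a 0 = 1 := by
  unfold tb
  rw [Mb_zero, tt_zero]

theorem tb_mono : StrictMono (tb a) := fun _ _ h => tt_mono (Mb_mono h)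

theorem tb_one_le (b : ℕ) : 1 ≤ tb a b := tt_one_le _

theorem tb_two {b : ℕ} (hb : 1 ≤ b) : 2 ≤ tb a b := tt_two (hb.trans (le_Mb b))

theorem tb_ge (b : ℕ) : (b : ℝ) + 1 ≤ tb a b := by
  have h1 := tt_ge (Mb a b)
  have h2 : (b : ℝ) ≤ Mb a b := by exact_mod_cast le_Mb b
  unfold tb
  linarith

theorem ln_pos (b : ℕ) : 0 < ln a b := by
  unfold ln
  have := tb_mono (a := a) (Nat.lt_succ_self b)
  simp only [Nat.succ_eq_add_one] at this
  linarith

theorem MM_tb (b : ℕ) : MM (tb a b) = Mb a b := MM_tt _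

theorem MM_block (b : ℕ) : MM (tb a (b + 1)) - MM (tb a b) = (a b : ℝ) + 1 := by
  rw [MM_tb, MM_tb, Mb_succ]
  push_cast
  ring

/-- every index is in a block -/
theorem exists_index (n : ℕ) : ∃ b : ℕ, Mb a b ≤ n ∧ n < Mb a (b + 1) := by
  classical
  have h : ∃ b, n < Mb a (b + 1) := ⟨n, lt_of_lt_of_le (Nat.lt_succ_self n) (le_Mb (n + 1))⟩
  refine ⟨Nat.find h, ?_, Nat.find_spec h⟩
  rcases Nat.eq_zero_or_pos (Nat.find h) with h1 | h1
  · rw [h1, Mb_zero]
    exact Nat.zero_le n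
  · have h2 := Nat.find_min h (Nat.sub_lt h1 one_pos)
    have e : Nat.find h - 1 + 1 = Nat.find h := by omega
    rw [not_lt, e] at h2
    exact h2

theorem exists_block {x : ℝ} (hx : 1 ≤ x) : ∃ J : ℕ, tb a J ≤ x ∧ x < tb a (J + 1) := by
  obtain ⟨n, h1, h2⟩ := exists_slot hx
  obtain ⟨b, h3, h4⟩ := exists_index (a := a) n
  refine ⟨b, ?_, ?_⟩
  · exact (tt_mono.monotone h3).trans h1
  · exact h2.trans_le (tt_mono.monotone h4)

/-- Proof: `tb a (b + 1) - tb a b ≥ tt (Mb a b + 1) - tt (Mb a b)`, and the lengths of the unit slots tend to infinity: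
`1 = MM (tt (n + 1)) - MM (tt n) ≤ (tt (n + 1) - tt n) / log (tt n)` by `MM_inc_le`. -/
theorem ln_ge (K : ℝ) : ∃ b0 : ℕ, ∀ b, b0 ≤ b → K < ln a b := by
  obtain ⟨n0, hn0⟩ := sub_len K
  refine ⟨n0, fun b hb => ?_⟩
  have h1 := hn0 (Mb a b) (hb.trans (le_Mb b))
  have h2 : tt (Mb a b + 1) ≤ tt (Mb a (b + 1)) := tt_mono.monotone (by rw [Mb_succ]; omega)
  unfold ln tb
  linarith

end

/-- Partial summation: `∑ m b y b = m (J - 1) Y J - ∑_{b < J - 1} (m (b + 1) - m b) Y (b + 1)`, or directly by induction: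
`|∑_{b < J} m b * y b - m J * Y J| ≤ (m J) * K`. -/
theorem abel {m : ℕ → ℝ} (hm : Monotone m) (hm0 : ∀ b, 0 ≤ m b) {y : ℕ → ℝ} {K : ℝ} {J : ℕ}
    (h : ∀ i, i ≤ J → |∑ b ∈ Finset.range i, y b| ≤ K) : |∑ b ∈ Finset.range J, m b * y b| ≤ 2 * m J * K := by
  have hK : 0 ≤ K := (abs_nonneg _).trans (h 0 (Nat.zero_le J))
  have key : ∀ i, i ≤ J → |∑ b ∈ Finset.range i, m b * y b - m i * ∑ b ∈ Finset.range i, y b| ≤ (m i - m 0) * K := by
    intro i
    induction i with
    | zero => intro _; simp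
    | succ i ih =>
      intro hi
      have h1 := ih (by omega)
      have h2 := h (i + 1) hi
      have h3 : 0 ≤ m (i + 1) - m i := sub_nonneg.2 (hm (Nat.le_succ i))
      have e : ∑ b ∈ Finset.range (i + 1), m b * y b - m (i + 1) * ∑ b ∈ Finset.range (i + 1), y b =
          (∑ b ∈ Finset.range i, m b * y b - m i * ∑ b ∈ Finset.range i, y b) -
            (m (i + 1) - m i) * ∑ b ∈ Finset.range (i + 1), y b := by
        rw [Finset.sum_range_succ, Finset.sum_range_succ]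
        ring
      rw [e]
      refine (abs_sub _ _).trans ?_
      rw [abs_mul, abs_of_nonneg h3]
      have h4 := mul_le_mul_of_nonneg_left h2 h3
      nlinarith
  have h1 := key J le_rfl
  have h2 := h J le_rfl
  have h3 := mul_le_mul_of_nonneg_left h2 (hm0 J)
  have h4 : |∑ b ∈ Finset.range J, m b * y b| ≤
      |∑ b ∈ Finset.range J, m b * y b - m J * ∑ b ∈ Finset.range J, y b| + |m J * ∑ b ∈ Finset.range J, y b| := by
    have := abs_add_le (∑ b ∈ Finset.range J, m b * y b - m J * ∑ b ∈ Finset.range J, y b)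
      (m J * ∑ b ∈ Finset.range J, y b)
    rwa [sub_add_cancel] at this
  rw [abs_mul, abs_of_nonneg (hm0 J)] at h4
  have h5 := mul_nonneg (hm0 0) hK
  nlinarith

end Pool.Agent.H73.KT
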