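import Pool.Agent.H73.KT.Fin

/-!
# Laws with prescribed triplets
-/

set_option autoImplicit false

open MeasureTheory Filter Topology Set

namespace Pool.Agent.H73.KT

open Pool.Agent.H49.BP Pool.Agent.H73.TR

/-- the first triplet -/
def T2 : Finset ℕ := {0, 2, 6}

/-- the second triplet -/
def T4 : Finset ℕ := {0, 4, 6}

/-- the patterns that contain a triplet -/
def bad (D : Finset ℕ) : Prop := mult T2 D ≠ 0 ∨ mult T4 D ≠ 0

open Classical in
/-- the laws -/
noncomputable def nt (c : Finset ℕ → ℝ) (f2 f4 : ℝ → ℝ) (D : Finset ℕ) (u : ℝ) : ℝ :=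
  if D = T2 then f2 u else if D = T4 then f4 u else if bad D then 0 else n0 c D u

theorem T24 : T4 ≠ T2 := by decide

theorem card_T2 : T2.card = 3 := by decide

theorem card_T4 : T4.card = 3 := by decide

theorem zero_T2 : 0 ∈ T2 := by decide

theorem zero_T4 : 0 ∈ T4 := by decide

theorem bad_T2 : bad T2 := Or.inl (by rw [mult_self zero_T2]; exact one_ne_zero)

theorem bad_T4 : bad T4 := Or.inr (by rw [mult_self zero_T4]; exact one_ne_zero)

theorem bad_up {D D' : Finset ℕ} (hm : mult D D' ≠ 0) (h : bad D) : bad D' := by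
  rcases h with h | h
  · exact Or.inl (mult_trans h hm)
  · exact Or.inr (mult_trans h hm)

theorem bad_card {D : Finset ℕ} (h0 : 0 ∈ D) (h : bad D) : 3 ≤ D.card := by
  rcases h with h | h
  · by_cases he : T2 = D
    · rw [← he, card_T2]
    · have := mult_card zero_T2 h0 h he
      rw [card_T2] at this
      omega
  · by_cases he : T4 = D
    · rw [← he, card_T4]
    · have := mult_card zero_T4 h0 h he
      rw [card_T4] at this
      omega

/-- the pairs in a triplet -/
theorem pair_of {D T : Finset ℕ} (hT : T = T2 ∨ T = T4) (h0 : 0 ∈ D) (h2 : D.card = 2) (hm : mult D T ≠ 0) :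
    D = {0, 2} ∨ D = {0, 4} ∨ D = {0, 6} := by
  obtain ⟨x, y, hxy, hD⟩ := Finset.card_eq_two.1 h2
  -- the nonzero element
  obtain ⟨d, hd0, hd⟩ : ∃ d : ℕ, d ≠ 0 ∧ D = {0, d} := by
    rw [hD, Finset.mem_insert, Finset.mem_singleton] at h0
    rcases h0 with h | h
    · exact ⟨y, fun hy => hxy (by rw [← h, hy]), by rw [hD, ← h]⟩
    · exact ⟨x, fun hx => hxy (by rw [← h, hx]), by rw [hD, ← h, Finset.pair_comm]⟩
  obtain ⟨t, ht, hsub⟩ := mult_ne hm
  have h3 := hsub d (by rw [hd]; simp)
  have h4 : d = 2 ∨ d = 4 ∨ d = 6 := by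
    rcases hT with rfl | rfl
    · simp only [T2, Finset.mem_insert, Finset.mem_singleton] at ht h3
      omega
    · simp only [T4, Finset.mem_insert, Finset.mem_singleton] at ht h3
      omega
  rcases h4 with h | h | h
  · exact Or.inl (by rw [hd, h])
  · exact Or.inr (Or.inl (by rw [hd, h]))
  · exact Or.inr (Or.inr (by rw [hd, h]))

section
variable {c : Finset ℕ → ℝ} (hc : ∀ D, 0 ≤ c D)
    (hc0 : ∀ D D' : Finset ℕ, 0 ∈ D → 2 ≤ D.card → 0 ∈ D' → mult D D' ≠ 0 → c D = 0 → c D' = 0)
    (h2 : 0 < c {0, 2}) (h4 : 0 < c {0, 4}) (h6 : 0 < c {0, 6})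

include hc h2 h4 h6

/-- the law of a triplet is small compared with the laws of its pairs -/
theorem trip_sub {f : ℝ → ℝ} (hfl : Tendsto (fun u => f u * Real.log u) atTop (𝓝 0)) {D T : Finset ℕ}
    (hT : T = T2 ∨ T = T4) (h0 : 0 ∈ D) (hD2 : 2 ≤ D.card) (hne : D ≠ T) (hm : mult D T ≠ 0) {c' : ℝ} (hc' : 0 < c') :
    ∀ᶠ u in atTop, f u ≤ c' * n0 c D u := by
  have hT0 : 0 ∈ T ∧ T.card = 3 := by
    rcases hT with rfl | rfl
    · exact ⟨zero_T2, card_T2⟩
    · exact ⟨zero_T4, card_T4⟩
  have h3 := mult_card h0 hT0.1 hm hne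
  have h5 : D.card = 2 := by omega
  have hcD : 0 < c D := by
    rcases pair_of hT h0 h5 hm with rfl | rfl | rfl
    · exact h2
    · exact h4
    · exact h6
  have hev := hfl.eventually_le_const (show (0 : ℝ) < c' * c D by positivity)
  filter_upwards [hev, eventually_ge_atTop 2] with u hu hu2
  have hl : 0 < Real.log u := log_pos' (by linarith)
  unfold n0
  rw [if_pos hu2, h5, pow_one, ← mul_div_assoc, le_div_iff₀ hl]
  exact hu

include hc0

theorem nt_laws {f2 f4 : ℝ → ℝ} (m2 : Measurable f2) (m4 : Measurable f4) (p2 : ∀ u, 0 ≤ f2 u) (p4 : ∀ u, 0 ≤ f4 u)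
    (b2 : ∃ B : ℝ, ∀ u, f2 u ≤ B) (b4 : ∃ B : ℝ, ∀ u, f4 u ≤ B)
    (l2 : Tendsto (fun u => f2 u * Real.log u) atTop (𝓝 0)) (l4 : Tendsto (fun u => f4 u * Real.log u) atTop (𝓝 0)) :
    Laws (nt c f2 f4) := by
  classical
  have h00 := n0_laws hc hc0
  have hz : ∀ {f : ℝ → ℝ}, (∀ u, 0 ≤ f u) → Tendsto (fun u => f u * Real.log u) atTop (𝓝 0) →
      Tendsto f atTop (𝓝 0) := by
    intro f hf hl
    refine squeeze_zero' (Eventually.of_forall hf) ?_ hl
    filter_upwards [eventually_ge_atTop (Real.exp 1)] with u hu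
    have : 1 ≤ Real.log u := by
      rw [Real.le_log_iff_exp_le (lt_of_lt_of_le (Real.exp_pos 1) hu)]
      exact hu
    exact le_mul_of_one_le_right (hf u) this
  have hnn : ∀ D u, 0 ≤ nt c f2 f4 D u := by
    intro D u
    unfold nt
    split_ifs
    · exact p2 u
    · exact p4 u
    · exact le_rfl
    · exact h00.nonneg D u
  refine ⟨fun D => ?_, hnn, fun D => ?_, fun D hD0 hD2 => ?_, fun D D' hD0 hD2 hD0' hne hm c' hc' => ?_⟩
  · unfold nt
    split_ifs
    · exact m2
    · exact m4
    · exact measurable_const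
    · exact h00.meas D
  · unfold nt
    split_ifs
    · exact b2
    · exact b4
    · exact ⟨0, fun _ => le_rfl⟩
    · exact h00.bdd D
  · unfold nt
    split_ifs
    · exact hz p2 l2
    · exact hz p4 l4
    · exact tendsto_const_nhds
    · exact h00.lim D hD0 hD2
  · by_cases hD'2 : D' = T2
    · subst hD'2
      have hb : ¬ bad D := by
        intro hb
        have h3 := bad_card hD0 hb
        have h5 := mult_card hD0 hD0' hm hne
        rw [card_T2] at h5
        omega
      filter_upwards [trip_sub hc h2 h4 h6 l2 (Or.inl rfl) hD0 hD2 hne hm hc'] with u hu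
      have e1 : nt c f2 f4 T2 u = f2 u := by
        unfold nt
        rw [if_pos rfl]
      have e2 : nt c f2 f4 D u = n0 c D u := by
        unfold nt
        rw [if_neg hne, if_neg (fun h => hb (by rw [h]; exact bad_T4)), if_neg hb]
      rw [e1, e2]
      exact hu
    · by_cases hD'4 : D' = T4
      · subst hD'4
        have hb : ¬ bad D := by
          intro hb
          have h3 := bad_card hD0 hb
          have h5 := mult_card hD0 hD0' hm hne
          rw [card_T4] at h5
          omega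
        filter_upwards [trip_sub hc h2 h4 h6 l4 (Or.inr rfl) hD0 hD2 hne hm hc'] with u hu
        have e1 : nt c f2 f4 T4 u = f4 u := by
          unfold nt
          rw [if_neg T24, if_pos rfl]
        have e2 : nt c f2 f4 D u = n0 c D u := by
          unfold nt
          rw [if_neg (fun h => hb (by rw [h]; exact bad_T2)), if_neg hne, if_neg hb]
        rw [e1, e2]
        exact hu
      · by_cases hb' : bad D'
        · refine Eventually.of_forall fun u => ?_
          have e1 : nt c f2 f4 D' u = 0 := by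
            unfold nt
            rw [if_neg hD'2, if_neg hD'4, if_pos hb']
          rw [e1]
          exact mul_nonneg hc'.le (hnn D u)
        · have hb : ¬ bad D := fun h => hb' (bad_up hm h)
          filter_upwards [h00.sub D D' hD0 hD2 hD0' hne hm c' hc'] with u hu
          have e1 : nt c f2 f4 D' u = n0 c D' u := by
            unfold nt
            rw [if_neg hD'2, if_neg hD'4, if_neg hb']
          have e2 : nt c f2 f4 D u = n0 c D u := by
            unfold nt
            rw [if_neg (fun h => hb (by rw [h]; exact bad_T2)), if_neg (fun h => hb (by rw [h]; exact bad_T4)),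
              if_neg hb]
          rw [e1, e2]
          exact hu

end

theorem nt_int {c : Finset ℕ → ℝ} {f2 f4 : ℝ → ℝ} {D : Finset ℕ} (hD : 2 ≤ D.card) (hB : ¬ bad D)
    {x : ℝ} (hx : 2 ≤ x) : ∫ u in (2 : ℝ)..x, nt c f2 f4 D u / Real.log u = c D * ∫ u in (2 : ℝ)..x, 1 / (Real.log u) ^ D.card := by
  rw [← intervalIntegral.integral_const_mul]
  refine intervalIntegral.integral_congr fun u hu => ?_
  rw [uIcc_of_le hx] at hu
  beta_reduce
  unfold nt
  rw [if_neg (fun h => hB (by rw [h]; exact bad_T2)), if_neg (fun h => hB (by rw [h]; exact bad_T4)), if_neg hB]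
  exact n0_div hD hu.1

theorem nt_T2 (c : Finset ℕ → ℝ) (f2 f4 : ℝ → ℝ) : nt c f2 f4 T2 = f2 := by
  funext u
  unfold nt
  rw [if_pos rfl]

theorem nt_T4 (c : Finset ℕ → ℝ) (f2 f4 : ℝ → ℝ) : nt c f2 f4 T4 = f4 := by
  funext u
  unfold nt
  rw [if_neg T24, if_pos rfl]

/-- late patterns need a nonzero law nearby -/
theorem finite_of {q : ℕ → ℝ} (hg : ∀ n : ℕ, (n : ℝ) + 1 ≤ q n) {f : ℝ → ℝ} {P : ℕ → Prop}
    (h : ∃ K : ℕ, ∀ k, K ≤ k → P k → ∃ u : ℝ, |u - q k| ≤ √(q k) ∧ f u ≠ 0) (hf : ∀ᶠ u in atTop, f u = 0) :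
    {n : ℕ | P n}.Finite := by
  obtain ⟨K, hK⟩ := h
  obtain ⟨u0, hu0⟩ := eventually_atTop.1 hf
  obtain ⟨N, hN⟩ := exists_nat_gt (max (2 * u0) 4)
  refine (finite_Iio (max K N)).subset fun n hn => ?_
  by_contra hcon
  rw [mem_Iio] at hcon
  push Not at hcon
  have h1 : K ≤ n := (le_max_left _ _).trans hcon
  have h2 : N ≤ n := (le_max_right _ _).trans hcon
  obtain ⟨u, hu1, hu2⟩ := hK n h1 hn
  refine hu2 (hu0 u ?_)
  have h3 := hg n
  have h4 : (N : ℝ) ≤ n := by exact_mod_cast h2
  have h5 : 2 * u0 < q n := by linarith [le_max_left (2 * u0) 4]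
  have h6 : 4 < q n := by linarith [le_max_right (2 * u0) 4]
  have h7 : √(q n) ≤ q n / 2 := by
    rw [Real.sqrt_le_left (by linarith)]
    nlinarith
  have h8 := (abs_le.1 hu1).1
  linarith

end Pool.Agent.H73.KT
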